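import Pool.Agent.Y773.HK.Gss

/-! # The finite Fourier transform of a primitive ray class character, main theorem -/

set_option autoImplicit false
set_option linter.unusedSectionVars false

open NumberField Complex Filter Topology Set

namespace Pool.Agent.Y773

section

variable {K : Type} [Field K] [NumberField K]

lemma absNorm_span_nat (m : ℕ) : Ideal.absNorm (Ideal.span {(m : 𝓞 K)}) = m ^ Module.finrank ℚ K := by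
  rw [Ideal.absNorm_span_singleton]
  have h1 : (m : 𝓞 K) = algebraMap ℤ (𝓞 K) (m : ℤ) := by simp
  rw [h1, Algebra.norm_algebraMap, Int.natAbs_pow, Int.natAbs_natCast]
  congr 1
  exact (RingOfIntegers.rank K)

/-- translation -/
lemma SQ_translate {𝔠 : Ideal (𝓞 K)} {f : 𝓞 K → ℂ} (h : PerI 𝔠 f) (z : 𝓞 K) :
    SQ 𝔠 (fun x => f (x + z)) = SQ 𝔠 f := by
  refine SQ_bij (f₁ := fun x => f (x + z)) ?_ h (fun x => x + z) (fun x _ => rfl) ?_ ?_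
  · intro x y hxy
    exact h _ _ (by rwa [add_sub_add_right_eq_sub])
  · intro x x' _ _
    rw [add_sub_add_right_eq_sub]
  · intro y hy
    refine ⟨y - z, ?_, ?_⟩
    · simpa using hy
    · rw [sub_add_cancel, sub_self]; exact Submodule.zero_mem _

lemma SQ_const_mul {𝔠 : Ideal (𝓞 K)} (h : 𝔠 ≠ ⊥) (a : ℂ) (f : 𝓞 K → ℂ) :
    SQ 𝔠 (fun x => a * f x) = a * SQ 𝔠 f := by
  have : Finite (𝓞 K ⧸ 𝔠) := Ideal.finiteQuotientOfFreeOfNeBot _ h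
  unfold SQ
  rw [mul_finsum]

lemma SQ_congr {𝔠 : Ideal (𝓞 K)} {f g : 𝓞 K → ℂ} (h : ∀ x, f x = g x) : SQ 𝔠 f = SQ 𝔠 g := by
  have : f = g := funext h
  rw [this]

lemma FT_eq_SQ {D m : ℕ} {Ψ : 𝓞 K → ℂ} {x : 𝓞 K}
    (hx : ∀ r : 𝓞 K, (D : ℤ) ∣ Algebra.trace ℤ (𝓞 K) (x * r)) :
    FT D m Ψ x = SQ (Ideal.span {(m : 𝓞 K)}) (fun r => Ψ r * ee (m * D) (x * r)) := by
  unfold FT
  rw [if_pos hx]
  rfl

lemma ee_scale {E k : ℕ} (hE0 : 0 < E) (hk0 : 0 < k) {u y : 𝓞 K}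
    (h : (E : 𝓞 K) * u = (k : 𝓞 K) * y) : ee k u = ee E y := by
  unfold ee
  have e8 : (E : ℤ) • u = (k : ℤ) • y := by
    rw [zsmul_eq_mul, zsmul_eq_mul]
    push_cast
    exact h
  have e9 := congrArg (Algebra.trace ℤ (𝓞 K)) e8
  rw [map_smul, map_smul, smul_eq_mul, smul_eq_mul] at e9
  have e10 : (E : ℂ) * ((Algebra.trace ℤ (𝓞 K) u : ℤ) : ℂ) =
      (k : ℂ) * ((Algebra.trace ℤ (𝓞 K) y : ℤ) : ℂ) := by exact_mod_cast e9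
  have hE1 : (E : ℂ) ≠ 0 := by exact_mod_cast hE0.ne'
  have hk2 : (k : ℂ) ≠ 0 := by exact_mod_cast hk0.ne'
  congr 1
  rw [div_eq_div_iff hk2 hE1]
  linear_combination (2 * Real.pi * I) * e10

variable [IsTotallyReal K]

lemma conj_sg (e : InfinitePlace K → ℕ) (x : K) : (starRingEnd ℂ) (sg e x) = sg e x := by
  unfold sg
  rw [map_prod]
  refine Finset.prod_congr rfl fun w _ => ?_
  rw [map_pow]
  congr 1
  exact map_intCast (starRingEnd ℂ) _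

lemma sg_natCast (e : InfinitePlace K → ℕ) {k : ℕ} (hk : 0 < k) : sg e (k : K) = 1 := by
  unfold sg
  refine Finset.prod_eq_one fun w _ => ?_
  rw [map_natCast, sign_pos (by exact_mod_cast hk)]
  simp

lemma sg_TPos (e : InfinitePlace K → ℕ) {x : 𝓞 K} (hx : TPos K x) : sg e (x : K) = 1 := by
  unfold sg
  refine Finset.prod_eq_one fun w _ => ?_
  rw [sign_pos (hx _)]
  simp

/-- the sum over `𝔟/𝔟𝔣` in terms of the reference sum -/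
lemma gauss_cop {𝔣 : Ideal (𝓞 K)} {ψ : Ideal (𝓞 K) →*₀ ℂ} {e : InfinitePlace K → ℕ}
    (h : IsModChar 𝔣 e ψ) {𝔤₀ : Ideal (𝓞 K)} (h𝔤₀ne : 𝔤₀ ≠ ⊥) {E : ℕ} (hE0 : 0 < E)
    (h𝔤₀ : 𝔤₀ * (𝔣 * differentIdeal ℤ (𝓞 K)) = Ideal.span {(E : 𝓞 K)})
    {k : ℕ} (hk0 : 0 < k) {𝔟 𝔟' 𝔠 : Ideal (𝓞 K)} (h𝔟 : 𝔟 ≠ ⊥) (h𝔟' : 𝔟' ≠ ⊥)
    (hid : 𝔟' * (𝔟 * 𝔣 * differentIdeal ℤ (𝓞 K)) = Ideal.span {(k : 𝓞 K)}) {x : 𝓞 K}
    (h𝔠 : 𝔠 * 𝔟' = Ideal.span {x}) (hcop : IsCoprime 𝔠 𝔣) (hφ₀ : PerI (𝔤₀ * 𝔣) (ee E))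
    (hφ : PerI (𝔟 * 𝔣) fun r => ee k (x * r)) :
    ψ 𝔠 * SQ (𝔟 * 𝔣) (fun r => Ps ψ e 𝔟 r * ee k (x * r)) =
      sg e (x : K) * SQ (𝔤₀ * 𝔣) (fun y => Ps ψ e 𝔤₀ y * ee E y) := by
  have h𝔠ne := h.ne_bot_of_coprime hcop
  have hf : PerI (𝔟 * 𝔣) (fun r => Ps ψ e 𝔟 r * ee k (x * r)) := by
    intro r r' hrr
    have e1 : ee k (x * r) = ee k (x * r') := hφ r r' hrr
    change Ps ψ e 𝔟 r * ee k (x * r) = Ps ψ e 𝔟 r' * ee k (x * r')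
    rw [h.perI h𝔟 r r' hrr, e1]
  have hx0 : x ≠ 0 := by
    rintro rfl
    rw [Ideal.span_singleton_eq_bot.mpr rfl] at h𝔠
    exact mul_ne_zero h𝔠ne h𝔟' h𝔠
  have hxK : (x : K) ≠ 0 := by exact_mod_cast hx0
  have hgc : 𝔤₀ * 𝔠 ≠ ⊥ := mul_ne_zero h𝔤₀ne h𝔠ne
  have s1 := h.SQ_mul h𝔤₀ne hcop hφ₀
  have hle : 𝔤₀ * 𝔠 * 𝔣 ≤ 𝔤₀ * 𝔣 := by
    have : 𝔤₀ * 𝔠 * 𝔣 = 𝔠 * (𝔤₀ * 𝔣) := by ring
    rw [this]
    exact Ideal.mul_le_right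
  have hPg : PerI (𝔤₀ * 𝔠 * 𝔣) (fun y => sg e (x : K) * (Ps ψ e (𝔤₀ * 𝔠) y * ee E y)) := by
    intro r r' hrr
    change sg e (x : K) * (Ps ψ e (𝔤₀ * 𝔠) r * ee E r) =
      sg e (x : K) * (Ps ψ e (𝔤₀ * 𝔠) r' * ee E r')
    rw [h.perI hgc r r' hrr, hφ₀ r r' (hle hrr)]
  have hEx0 : (E : 𝓞 K) * x ≠ 0 := mul_ne_zero (by exact_mod_cast hE0.ne') hx0
  have hk1 : (k : 𝓞 K) ≠ 0 := by exact_mod_cast hk0.ne'
  have hab : Ideal.span {(E : 𝓞 K) * x} * 𝔟 = Ideal.span {(k : 𝓞 K)} * (𝔤₀ * 𝔠) := by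
    rw [← Ideal.span_singleton_mul_span_singleton, ← h𝔠, ← h𝔤₀, ← hid]
    ring
  have hgf : 𝔤₀ * 𝔠 * 𝔣 ≠ ⊥ := mul_ne_zero hgc h.ne_bot
  have e2 : sg e (((E : 𝓞 K) * x : 𝓞 K) : K) = sg e (x : K) := by
    have e3 : (((E : 𝓞 K) * x : 𝓞 K) : K) = (E : K) * (x : K) := by
      refine (map_mul (algebraMap (𝓞 K) K) _ _).trans ?_
      rw [map_natCast]
    rw [e3, sg_mul, sg_natCast e hE0, one_mul]
  have e4 : sg e (((k : ℕ) : 𝓞 K) : K) = 1 := by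
    have e5 : (((k : ℕ) : 𝓞 K) : K) = (k : K) := map_natCast (algebraMap (𝓞 K) K) k
    rw [e5, sg_natCast e hk0]
  have s2 : SQ (𝔟 * 𝔣) (fun r => Ps ψ e 𝔟 r * ee k (x * r)) =
      SQ (𝔤₀ * 𝔠 * 𝔣) (fun y => sg e (x : K) * (Ps ψ e (𝔤₀ * 𝔠) y * ee E y)) := by
    refine SQ_scale hEx0 hk1 hab hf hPg ?_ ?_ ?_
    · intro r hr
      change Ps ψ e 𝔟 r * ee k (x * r) = 0
      rw [Ps_of_notMem hr, zero_mul]
    · intro r hr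
      change sg e (x : K) * (Ps ψ e (𝔤₀ * 𝔠) r * ee E r) = 0
      rw [Ps_of_notMem hr, zero_mul, mul_zero]
    · intro r hr y hy hry
      change Ps ψ e 𝔟 r * ee k (x * r) = sg e (x : K) * (Ps ψ e (𝔤₀ * 𝔠) y * ee E y)
      have e1 := Ps_scale (η := ψ) (e := e) hk1 h𝔟 hgc hab hr hy hry
      rw [e2, e4, mul_one] at e1
      have e6 : Ps ψ e 𝔟 r = sg e (x : K) * Ps ψ e (𝔤₀ * 𝔠) y := by
        calc Ps ψ e 𝔟 r = Ps ψ e 𝔟 r * sg e (x : K) * sg e (x : K) := by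
              rw [mul_assoc, sg_sq e hxK, mul_one]
          _ = _ := by rw [e1]; ring
      have e7 : ee k (x * r) = ee E y := ee_scale hE0 hk0 (by rw [← mul_assoc]; exact hry)
      rw [e6, e7]
      ring
  rw [SQ_const_mul hgf] at s2
  rw [s2, s1]
  ring

theorem gauss_main (𝔣 : Ideal (𝓞 K)) (ψ : Ideal (𝓞 K) →*₀ ℂ) (e : InfinitePlace K → ℕ)
    (hp : IsPrimChar K 𝔣 ψ) (h : IsModChar 𝔣 e ψ) :
    ∃ τ : ℂ, ∀ (𝔟 𝔟' : Ideal (𝓞 K)) (m D : ℕ), 0 < m → 0 < D →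
      𝔟' * (𝔟 * 𝔣 * differentIdeal ℤ (𝓞 K)) = Ideal.span {((m * D : ℕ) : 𝓞 K)} →
      (m : 𝓞 K) ∈ 𝔟 * 𝔣 → (D : 𝓞 K) ∈ differentIdeal ℤ (𝓞 K) → ∀ x : 𝓞 K,
        FT D m (Ps ψ e 𝔟) x = τ * ((m : ℂ) ^ (Module.finrank ℚ K) /
          ((Ideal.absNorm 𝔟 : ℂ) * (Ideal.absNorm 𝔣 : ℂ))) * (starRingEnd ℂ) (Ps ψ e 𝔟' x) := by
  have h𝔡 : differentIdeal ℤ (𝓞 K) ≠ ⊥ := differentIdeal_ne_bot
  have h𝔣𝔡 : 𝔣 * differentIdeal ℤ (𝓞 K) ≠ ⊥ := mul_ne_zero h.ne_bot h𝔡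
  -- the reference datum
  set E : ℕ := Ideal.absNorm (𝔣 * differentIdeal ℤ (𝓞 K)) with hE
  have hE0 : 0 < E := Nat.pos_of_ne_zero (fun h1 => h𝔣𝔡 (Ideal.absNorm_eq_zero_iff.mp h1))
  have hEmem : (E : 𝓞 K) ∈ 𝔣 * differentIdeal ℤ (𝓞 K) := Ideal.absNorm_mem _
  obtain ⟨𝔤₀, h𝔤₀⟩ := mem_iff_exists_mul.mp hEmem
  have h𝔤₀ne : 𝔤₀ ≠ ⊥ := by
    rintro rfl
    rw [Ideal.bot_mul] at h𝔤₀
    have := (Ideal.span_singleton_eq_bot.mp h𝔤₀.symm)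
    exact hE0.ne' (by exact_mod_cast this)
  have hφ₀ : PerI (𝔤₀ * 𝔣) (ee E) := by
    intro x y hxy
    refine ee_sub_eq hE0 (trace_dvd fun δ hδ => ?_)
    rw [← h𝔤₀, ← mul_assoc]
    exact Ideal.mul_mem_mul hxy hδ
  refine ⟨SQ (𝔤₀ * 𝔣) (fun y => Ps ψ e 𝔤₀ y * ee E y), ?_⟩
  intro 𝔟 𝔟' m D hm hD hid hm𝔟 hD𝔡 x
  set k : ℕ := m * D with hk
  have hk0 : 0 < k := Nat.mul_pos hm hD
  have hkne : Ideal.span {(k : 𝓞 K)} ≠ ⊥ := span_m_ne_bot hk0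
  have h𝔟 : 𝔟 ≠ ⊥ := by
    rintro rfl
    rw [Ideal.bot_mul, Ideal.bot_mul, Ideal.mul_bot] at hid
    exact hkne hid.symm
  have h𝔟' : 𝔟' ≠ ⊥ := by
    rintro rfl
    rw [Ideal.bot_mul] at hid
    exact hkne hid.symm
  have h𝔟𝔣 : 𝔟 * 𝔣 ≠ ⊥ := mul_ne_zero h𝔟 h.ne_bot
  have hmne : Ideal.span {(m : 𝓞 K)} ≠ ⊥ := span_m_ne_bot hm
  have hmle : Ideal.span {(m : 𝓞 K)} ≤ 𝔟 * 𝔣 := (Ideal.span_singleton_le_iff_mem _).mpr hm𝔟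
  have hper := h.perI h𝔟
  have hNb : (Ideal.absNorm 𝔟 : ℂ) ≠ 0 := by
    exact_mod_cast (fun h1 => h𝔟 (Ideal.absNorm_eq_zero_iff.mp h1))
  have hNf : (Ideal.absNorm 𝔣 : ℂ) ≠ 0 := by
    exact_mod_cast (fun h1 => h.ne_bot (Ideal.absNorm_eq_zero_iff.mp h1))
  by_cases hx : x ∈ 𝔟'
  swap
  · -- `x` is not in `𝔟'`
    rw [Ps_of_notMem hx, map_zero, mul_zero]
    by_cases hcond : ∀ r : 𝓞 K, (D : ℤ) ∣ Algebra.trace ℤ (𝓞 K) (x * r)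
    swap
    · unfold FT
      rw [if_neg hcond]
    rw [FT_eq_SQ hcond]
    have hexz : ∃ z ∈ 𝔟 * 𝔣, ¬ ((k : ℤ) ∣ Algebra.trace ℤ (𝓞 K) (x * z)) := by
      by_contra hcon
      push Not at hcon
      apply hx
      have h1 : Ideal.span {x} * (𝔟 * 𝔣 * differentIdeal ℤ (𝓞 K)) ≤
          𝔟' * (𝔟 * 𝔣 * differentIdeal ℤ (𝓞 K)) := by
        rw [hid, ← mul_assoc, Ideal.mul_le]
        intro w hw δ hδ
        obtain ⟨z, hz, rfl⟩ := Ideal.mem_span_singleton_mul.mp hw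
        refine trace_dvd_conv hk0 (fun o => ?_) hδ
        rw [mul_assoc]
        exact hcon _ (Ideal.mul_mem_right _ _ hz)
      have h2 : 𝔟' ∣ Ideal.span {x} := by
        have h3 := Ideal.dvd_iff_le.mpr h1
        exact (mul_dvd_mul_iff_right (mul_ne_zero h𝔟𝔣 h𝔡)).mp h3
      exact (Ideal.dvd_span_singleton).mp h2
    obtain ⟨z, hz, hz2⟩ := hexz
    have hPer : PerI (Ideal.span {(m : 𝓞 K)}) (fun r => Ps ψ e 𝔟 r * ee k (x * r)) := by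
      intro r r' hrr
      have e1 := hper r r' (hmle hrr)
      have e2 : ee k (x * r) = ee k (x * r') := by
        refine ee_sub_eq hk0 ?_
        obtain ⟨t, ht⟩ := Ideal.mem_span_singleton'.mp hrr
        have e3 : x * r - x * r' = (m : ℤ) • (x * t) := by
          rw [← mul_sub, ← ht, zsmul_eq_mul]
          push_cast
          ring
        rw [e3, map_smul, hk]
        push_cast
        rw [smul_eq_mul]
        exact mul_dvd_mul_left _ (hcond t)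
      simp only [e1, e2]
    have hS := SQ_translate hPer z
    have hne1 : ee k (x * z) ≠ 1 := fun h1 => hz2 ((ee_eq_one_iff hk0 _).mp h1)
    have e4 : SQ (Ideal.span {(m : 𝓞 K)}) (fun r => Ps ψ e 𝔟 (r + z) * ee k (x * (r + z))) =
        ee k (x * z) * SQ (Ideal.span {(m : 𝓞 K)}) (fun r => Ps ψ e 𝔟 r * ee k (x * r)) := by
      rw [← SQ_const_mul hmne]
      refine SQ_congr fun r => ?_
      have e5 : Ps ψ e 𝔟 (r + z) = Ps ψ e 𝔟 r := hper _ _ (by rwa [add_sub_cancel_left])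
      rw [e5, mul_add, ee_add]
      ring
    have e6 : (1 - ee k (x * z)) *
        SQ (Ideal.span {(m : 𝓞 K)}) (fun r => Ps ψ e 𝔟 r * ee k (x * r)) = 0 := by
      have := e4.symm.trans hS
      linear_combination -this
    rcases mul_eq_zero.mp e6 with h7 | h7
    · exact absurd (sub_eq_zero.mp h7).symm hne1
    · exact h7
  -- `x ∈ 𝔟'`
  have htr : ∀ z ∈ 𝔟 * 𝔣, (k : ℤ) ∣ Algebra.trace ℤ (𝓞 K) (x * z) := by
    intro z hz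
    refine trace_dvd fun δ hδ => ?_
    have e0 : x * z * δ = x * (z * δ) := mul_assoc _ _ _
    rw [← hid, e0]
    exact Ideal.mul_mem_mul hx (Ideal.mul_mem_mul hz hδ)
  have hcond : ∀ r : 𝓞 K, (D : ℤ) ∣ Algebra.trace ℤ (𝓞 K) (x * r) := by
    intro r
    have h1 := htr (m * r) (Ideal.mul_mem_right _ _ hm𝔟)
    have e3 : x * (m * r) = (m : ℤ) • (x * r) := by
      rw [zsmul_eq_mul]
      push_cast
      ring
    rw [e3, map_smul, hk, smul_eq_mul] at h1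
    push_cast at h1
    exact (mul_dvd_mul_iff_left (by exact_mod_cast hm.ne')).mp h1
  set φ : 𝓞 K → ℂ := fun r => ee k (x * r) with hφdef
  have hφ : PerI (𝔟 * 𝔣) φ := by
    intro r r' hrr
    refine ee_sub_eq hk0 ?_
    rw [← mul_sub]
    exact htr _ hrr
  have hf : PerI (𝔟 * 𝔣) (fun r => Ps ψ e 𝔟 r * φ r) := by
    intro r r' hrr
    change Ps ψ e 𝔟 r * φ r = Ps ψ e 𝔟 r' * φ r'
    rw [hper r r' hrr, hφ r r' hrr]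
  have hC : FT D m (Ps ψ e 𝔟) x = ((m : ℂ) ^ (Module.finrank ℚ K) /
      ((Ideal.absNorm 𝔟 : ℂ) * (Ideal.absNorm 𝔣 : ℂ))) * SQ (𝔟 * 𝔣) (fun r => Ps ψ e 𝔟 r * φ r) := by
    rw [FT_eq_SQ hcond]
    have h1 := SQ_mono hmne hmle hf
    rw [map_mul, absNorm_span_nat] at h1
    push_cast at h1
    rw [div_mul_eq_mul_div, eq_div_iff (mul_ne_zero hNb hNf), ← h1]
    ring
  rw [hC]
  obtain ⟨𝔠, h𝔠⟩ := mem_iff_exists_mul.mp hx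
  rw [Ps_of_eq h𝔟' h𝔠]
  by_cases hcop : IsCoprime 𝔠 𝔣
  swap
  · -- the ideal is not prime to `𝔣`
    have hψ0 : ψ 𝔠 = 0 := by
      by_contra h1
      exact hcop ((h.supp 𝔠).mp h1)
    rw [hψ0, zero_mul, map_zero, mul_zero]
    have hgne : 𝔠 ⊔ 𝔣 ≠ ⊤ := fun h1 => hcop (Ideal.isCoprime_iff_sup_eq.mpr h1)
    have hgdvd : 𝔠 ⊔ 𝔣 ∣ 𝔣 := Ideal.dvd_iff_le.mpr le_sup_right
    obtain ⟨𝔥, h𝔥⟩ := hgdvd
    have h𝔥ne : 𝔥 ≠ 𝔣 := by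
      intro h1
      apply hgne
      have h2 : (𝔠 ⊔ 𝔣) * 𝔣 = 1 * 𝔣 := by
        rw [one_mul]
        conv_rhs => rw [h𝔥, h1]
      have h3 := mul_right_cancel₀ h.ne_bot h2
      rw [h3, Ideal.one_eq_top]
    have h𝔥dvd : 𝔥 ∣ 𝔣 := ⟨𝔠 ⊔ 𝔣, by rw [mul_comm]; exact h𝔥⟩
    obtain ⟨c, hc1, hcpos, hccop, hcψ⟩ := hp.prim 𝔥 h𝔥dvd h𝔥ne
    have hcb : Ideal.span {c} ≠ ⊥ := h.ne_bot_of_coprime hccop
    have hc0 : c ≠ 0 := fun h1 => hcb (Ideal.span_singleton_eq_bot.mpr h1)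
    have hbc : 𝔟 * Ideal.span {c} ≠ ⊥ := mul_ne_zero h𝔟 hcb
    have hle : 𝔟 * Ideal.span {c} * 𝔣 ≤ 𝔟 * 𝔣 := by
      have : 𝔟 * Ideal.span {c} * 𝔣 = Ideal.span {c} * (𝔟 * 𝔣) := by ring
      rw [this]
      exact Ideal.mul_le_right
    have hPf : PerI (𝔟 * Ideal.span {c} * 𝔣) (fun r => Ps ψ e (𝔟 * Ideal.span {c}) r * φ r) := by
      intro r r' hrr
      change Ps ψ e (𝔟 * Ideal.span {c}) r * φ r = Ps ψ e (𝔟 * Ideal.span {c}) r' * φ r'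
      rw [h.perI hbc r r' hrr, hφ r r' (hle hrr)]
    have hcx : ∀ y ∈ 𝔟, φ (c * y) = φ y := by
      intro y hy
      refine ee_sub_eq hk0 (trace_dvd fun δ hδ => ?_)
      have e1 : (x * (c * y) - x * y) * δ = (x * (c - 1)) * (y * δ) := by ring
      have e2 : x * (c - 1) ∈ 𝔟' * 𝔣 := by
        have e3 : x * (c - 1) ∈ Ideal.span {x} * 𝔥 :=
          Ideal.mul_mem_mul (Ideal.mem_span_singleton_self x) hc1
        rw [← h𝔠] at e3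
        have e4 : 𝔠 * 𝔟' * 𝔥 ≤ 𝔟' * 𝔣 := by
          conv_rhs => rw [h𝔥]
          have : 𝔠 * 𝔟' * 𝔥 = 𝔟' * (𝔠 * 𝔥) := by ring
          rw [this]
          exact Ideal.mul_mono_right (Ideal.mul_mono_left le_sup_left)
        exact e4 e3
      rw [e1, ← hid]
      have e5 : (x * (c - 1)) * (y * δ) ∈ (𝔟' * 𝔣) * (𝔟 * differentIdeal ℤ (𝓞 K)) :=
        Ideal.mul_mem_mul e2 (Ideal.mul_mem_mul hy hδ)
      have e6 : (𝔟' * 𝔣) * (𝔟 * differentIdeal ℤ (𝓞 K)) =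
        𝔟' * (𝔟 * 𝔣 * differentIdeal ℤ (𝓞 K)) := by ring
      rwa [e6] at e5
    have s1 := h.SQ_mul h𝔟 hccop hφ
    have s2 : SQ (𝔟 * Ideal.span {c} * 𝔣) (fun r => Ps ψ e (𝔟 * Ideal.span {c}) r * φ r) =
        SQ (𝔟 * 𝔣) (fun r => Ps ψ e 𝔟 r * φ r) := by
      have hab : Ideal.span {(1 : 𝓞 K)} * (𝔟 * Ideal.span {c}) = Ideal.span {c} * 𝔟 := by
        rw [Ideal.span_singleton_one, Ideal.top_mul, mul_comm]
      refine SQ_scale one_ne_zero hc0 hab hPf hf ?_ ?_ ?_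
      · intro r hr
        change Ps ψ e (𝔟 * Ideal.span {c}) r * φ r = 0
        rw [Ps_of_notMem hr, zero_mul]
      · intro r hr
        change Ps ψ e 𝔟 r * φ r = 0
        rw [Ps_of_notMem hr, zero_mul]
      · intro r hr y hy hry
        change Ps ψ e (𝔟 * Ideal.span {c}) r * φ r = Ps ψ e 𝔟 y * φ y
        have e1 := Ps_scale (η := ψ) (e := e) hc0 hbc h𝔟 hab hr hy hry
        have e2 : sg e ((1 : 𝓞 K) : K) = 1 := by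
          have := sg_natCast (K := K) e one_pos
          simpa using this
        rw [e2, mul_one, sg_TPos e hcpos, mul_one] at e1
        rw [e1]
        congr 1
        rw [one_mul] at hry
        rw [hry]
        exact hcx y hy
    rw [s2] at s1
    have s3 : (1 - ψ (Ideal.span {c})) * SQ (𝔟 * 𝔣) (fun r => Ps ψ e 𝔟 r * φ r) = 0 := by
      linear_combination s1
    rcases mul_eq_zero.mp s3 with h7 | h7
    · exact absurd (sub_eq_zero.mp h7).symm hcψ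
    · rw [h7, mul_zero]
  · -- the main case
    have s1 := gauss_cop h h𝔤₀ne hE0 h𝔤₀ hk0 h𝔟 h𝔟' hid h𝔠 hcop hφ₀ hφ
    have hconj : (starRingEnd ℂ) (ψ 𝔠) * ψ 𝔠 = 1 := by
      rw [mul_comm, Complex.mul_conj, Complex.normSq_eq_norm_sq, h.norm_eq_one hcop]
      simp
    have s2 : SQ (𝔟 * 𝔣) (fun r => Ps ψ e 𝔟 r * φ r) = sg e (x : K) * (starRingEnd ℂ) (ψ 𝔠) *
        SQ (𝔤₀ * 𝔣) (fun y => Ps ψ e 𝔤₀ y * ee E y) := by
      calc SQ (𝔟 * 𝔣) (fun r => Ps ψ e 𝔟 r * φ r) =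
          (starRingEnd ℂ) (ψ 𝔠) * (ψ 𝔠 * SQ (𝔟 * 𝔣) (fun r => Ps ψ e 𝔟 r * φ r)) := by
            rw [← mul_assoc, hconj, one_mul]
        _ = (starRingEnd ℂ) (ψ 𝔠) * (sg e (x : K) *
            SQ (𝔤₀ * 𝔣) (fun y => Ps ψ e 𝔤₀ y * ee E y)) := by rw [s1]
        _ = _ := by ring
    rw [s2, map_mul, conj_sg]
    ring

end

theorem t_gauss : StGauss := by
  intro K _ _ _ 𝔣 ψ e hp h
  exact gauss_main 𝔣 ψ e hp h

end Pool.Agent.Y773
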