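import Pool.Agent.Y773.HK.Rs
import Pool.Agent.Y772.TW.Main
import Pool.Agent.Y772.SK.Fin
import Pool.Agent.Y772.NZ.Main
import Pool.Agent.Y772.NC.D3

/-! # Cyclic cubic fields: the final theorem -/

set_option autoImplicit false
set_option linter.unusedSectionVars false

open NumberField Complex Filter Topology Set MeasureTheory
open H370 (NN Ns Nd)
open H385 (primFamM Rw)

namespace Pool.Agent.Y773

section

variable {K : Type} [Field K] [NumberField K]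

lemma totallyReal_of_cubic [IsGalois ℚ K] (h3 : Module.finrank ℚ K = 3) : IsTotallyReal K := by
  have h := IsUnramifiedAtInfinitePlaces_of_odd_finrank (k := ℚ) (K := K)
    (by rw [h3]; decide)
  refine ⟨fun w => ?_⟩
  have h1 := h.isUnramified w
  rw [NumberField.InfinitePlace.isUnramified_iff] at h1
  rcases h1 with h1 | h1
  · exact h1
  · exact absurd (IsTotallyReal.isReal (w.comap (algebraMap ℚ K)))
      (NumberField.InfinitePlace.not_isReal_iff_isComplex.mpr h1)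

/-- in a group of order three every nontrivial element is `σ` or `σ⁻¹` -/
lemma all_sigma [IsGalois ℚ K] (h3 : Module.finrank ℚ K = 3) {ψ : Ideal (𝓞 K) →*₀ ℂ}
    {σ₀ : K ≃+* K} (hσ : ∃ 𝔞 : Ideal (𝓞 K), ψ 𝔞 ≠ 0 ∧ gal σ₀ ψ 𝔞 ≠ 0 ∧ gal σ₀ ψ 𝔞 ≠ ψ 𝔞) :
    ∀ τ : K ≃+* K, τ ≠ RingEquiv.refl K →
      ∃ 𝔞 : Ideal (𝓞 K), ψ 𝔞 ≠ 0 ∧ gal τ ψ 𝔞 ≠ 0 ∧ gal τ ψ 𝔞 ≠ ψ 𝔞 := by
  classical
  intro τ hτ
  -- as algebra automorphisms
  let toA : (K ≃+* K) → (K ≃ₐ[ℚ] K) := fun f => AlgEquiv.ofRingEquiv (f := f) (fun r => by simp)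
  have htoA : ∀ f x, toA f x = f x := fun f x => rfl
  have hcard : Nat.card (K ≃ₐ[ℚ] K) = 3 := by rw [IsGalois.card_aut_eq_finrank, h3]
  have hσ1 : toA σ₀ ≠ 1 := by
    intro h1
    obtain ⟨𝔞, -, -, h2⟩ := hσ
    apply h2
    have h4 : ∀ x, σ₀ x = x := fun x => by
      have := congrArg (fun f => f x) h1
      exact this
    have h5 : σ₀ = RingEquiv.refl K := by ext x; exact h4 x
    rw [h5]
    change ψ (𝔞.map _) = ψ 𝔞
    congr 1
    have : ((RingOfIntegers.mapRingEquiv (RingEquiv.refl K) : 𝓞 K ≃+* 𝓞 K) : 𝓞 K →+* 𝓞 K) =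
        RingHom.id _ := by
      ext x
      rfl
    rw [this, Ideal.map_id]
  have hτ1 : toA τ ≠ 1 := by
    intro h1
    apply hτ
    ext x
    exact congrArg (fun f => f x) h1
  have hprime : Fact (Nat.Prime 3) := ⟨Nat.prime_three⟩
  have hmem : toA τ ∈ Subgroup.zpowers (toA σ₀) := by
    have := zpowers_eq_top_of_prime_card (p := 3) hcard hσ1
    rw [this]
    trivial
  have hord : orderOf (toA σ₀) = 3 := by
    have h1 := orderOf_dvd_natCard (toA σ₀)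
    rw [hcard] at h1
    rcases (Nat.dvd_prime Nat.prime_three).mp h1 with h2 | h2
    · rw [orderOf_eq_one_iff] at h2
      exact absurd h2 hσ1
    · exact h2
  rw [mem_zpowers_iff_mem_range_orderOf, hord, Finset.mem_image] at hmem
  obtain ⟨k, hk, hk2⟩ := hmem
  rw [Finset.mem_range] at hk
  have hcases : τ = σ₀ ∨ τ = σ₀.symm := by
    interval_cases k
    · rw [pow_zero] at hk2
      exact absurd hk2.symm hτ1
    · left
      rw [pow_one] at hk2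
      ext x
      exact (congrArg (fun f => f x) hk2).symm
    · right
      have h1 : toA σ₀ ^ 3 = 1 := by rw [← hord]; exact pow_orderOf_eq_one _
      have h2 : toA τ * toA σ₀ = 1 := by rw [← hk2, ← pow_succ, h1]
      ext x
      have h3 := congrArg (fun f => f (σ₀.symm x)) h2
      have h4 : τ (σ₀ (σ₀.symm x)) = σ₀.symm x := h3
      rw [RingEquiv.apply_symm_apply] at h4
      exact h4
  obtain ⟨𝔞, h1, h2, h3⟩ := hσ
  rcases hcases with rfl | rfl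
  · exact ⟨𝔞, h1, h2, h3⟩
  · refine ⟨𝔞.map (RingOfIntegers.mapRingEquiv σ₀ : 𝓞 K →+* 𝓞 K), h2, ?_, ?_⟩
    · have : gal σ₀.symm ψ (𝔞.map (RingOfIntegers.mapRingEquiv σ₀ : 𝓞 K →+* 𝓞 K)) = ψ 𝔞 := by
        change ψ (Ideal.map _ (Ideal.map _ 𝔞)) = ψ 𝔞
        rw [Ideal.map_map]
        congr 1
        have h5 : ((RingOfIntegers.mapRingEquiv σ₀.symm : 𝓞 K ≃+* 𝓞 K) : 𝓞 K →+* 𝓞 K).comp
            ((RingOfIntegers.mapRingEquiv σ₀ : 𝓞 K ≃+* 𝓞 K) : 𝓞 K →+* 𝓞 K) = RingHom.id _ := by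
          ext x
          exact σ₀.symm_apply_apply (x : K)
        rw [h5, Ideal.map_id]
      rw [this]
      exact h1
    · have : gal σ₀.symm ψ (𝔞.map (RingOfIntegers.mapRingEquiv σ₀ : 𝓞 K →+* 𝓞 K)) = ψ 𝔞 := by
        change ψ (Ideal.map _ (Ideal.map _ 𝔞)) = ψ 𝔞
        rw [Ideal.map_map]
        congr 1
        have h5 : ((RingOfIntegers.mapRingEquiv σ₀.symm : 𝓞 K ≃+* 𝓞 K) : 𝓞 K →+* 𝓞 K).comp
            ((RingOfIntegers.mapRingEquiv σ₀ : 𝓞 K ≃+* 𝓞 K) : 𝓞 K →+* 𝓞 K) = RingHom.id _ := by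
          ext x
          exact σ₀.symm_apply_apply (x : K)
        rw [h5, Ideal.map_id]
      rw [this]
      exact h3.symm

/-- **Zeros on the critical line, cyclic cubic fields** -/
theorem cubic_final [IsGalois ℚ K] (h3 : Module.finrank ℚ K = 3) {𝔣 : Ideal (𝓞 K)}
    {ψ : Ideal (𝓞 K) →*₀ ℂ} (h : IsPrimChar K 𝔣 ψ) {σ₀ : K ≃+* K}
    (hσ : ∃ 𝔞 : Ideal (𝓞 K), ψ 𝔞 ≠ 0 ∧ gal σ₀ ψ 𝔞 ≠ 0 ∧ gal σ₀ ψ 𝔞 ≠ ψ 𝔞) :
    ∃ F : (q : ℕ) → DirichletCharacter ℂ q → ℂ → ℂ,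
      (∀ (q : ℕ) (χ : DirichletCharacter ℂ q), 2 ≤ q →
        Nat.Coprime q (Ideal.absNorm 𝔣 * (discr K).natAbs) → χ.IsPrimitive →
        Differentiable ℂ (F q χ) ∧ ∀ s : ℂ, 1 < s.re → F q χ s = LI (tw ψ χ) s) ∧
      ∃ κ η X0 : ℝ, 1 ≤ κ ∧ 0 < η ∧ 1 ≤ X0 ∧
      ∀ (X Y : ℕ) (T : ℝ), X0 ≤ X → κ * X ≤ Y → (Y : ℝ) ≤ (X : ℝ) ^ (1 + η) →
        (Real.log X) ^ 2 ≤ T → T ≤ (X : ℝ) ^ η →
        0.27945 * primFamM (Ideal.absNorm 𝔣 * (discr K).natAbs) X Y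
            (fun q χ => (NN (F q χ) T (2 * T) : ℝ)) ≤
          primFamM (Ideal.absNorm 𝔣 * (discr K).natAbs) X Y
            (fun q χ => (Ns (F q χ) T (2 * T) : ℝ)) ∧
        0.639725 * primFamM (Ideal.absNorm 𝔣 * (discr K).natAbs) X Y
            (fun q χ => (NN (F q χ) T (2 * T) : ℝ)) ≤
          primFamM (Ideal.absNorm 𝔣 * (discr K).natAbs) X Y
            (fun q χ => (Nd (F q χ) T (2 * T) : ℝ)) := by
  classical
  have hreal := totallyReal_of_cubic h3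
  set N : ℕ := Ideal.absNorm 𝔣 * (discr K).natAbs with hN
  have hN0 : N ≠ 0 := mul_ne_zero (fun h1 => h.ne_bot (Ideal.absNorm_eq_zero_iff.mp h1))
    (Int.natAbs_ne_zero.mpr (discr_ne_zero K))
  set M := W388.rad N with hM
  have hMsq : Squarefree M := W388.rad_squarefree N
  -- Selberg orthonormality
  have hSel : W388.SelE (cc ψ) := by
    refine Pool.Agent.Y772.SK.selK K h3 ψ h.norm_le_one ?_ ?_
    · refine ⟨𝔣 * Ideal.span {((2 : ℕ) : 𝓞 K)}, mul_ne_zero h.ne_bot (span_m_ne_bot two_pos), ?_⟩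
      intro 𝔞 h𝔞
      have h0 : 𝔞 ≠ ⊥ := by
        rintro rfl
        rw [Ideal.isCoprime_iff_sup_eq, bot_sup_eq] at h𝔞
        exact mul_span_ne_top le_rfl h𝔞
      exact h.norm_eq_one h0 (IsCoprime.mul_right_iff.mp h𝔞).1
    · intro σ hσ1
      obtain ⟨g, hg, hg2⟩ := rs_cont h σ (all_sigma h3 hσ σ hσ1)
      exact ⟨g, hg, Filter.Eventually.of_forall hg2⟩
  obtain ⟨A, F, hA, hF, hF2⟩ := twE_of h M
    (fun q χ hq hχ hqM => by
      have hqN : Nat.Coprime q N := (W388.coprime_rad hN0 q).mp hqM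
      refine Pool.Agent.Y772.TW.t_tw K 𝔣 ψ h q χ (by omega) hχ ?_ ?_
      · exact Nat.Coprime.coprime_dvd_right (dvd_mul_right _ _) hqN
      · have h1 : Nat.Coprime q (discr K).natAbs :=
          Nat.Coprime.coprime_dvd_right (dvd_mul_left _ _) hqN
        rw [Int.isCoprime_iff_gcd_eq_one]
        simpa [Int.gcd] using h1)
    (fun q χ G s₀ hq hs0 hG hGL => by
      have : NeZero q := ⟨by omega⟩
      exact Pool.Agent.Y772.SK.nzrK K h3 ψ h.norm_le_one hSel q χ G s₀ hs0 hG hGL)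
  rw [h3] at hF
  obtain ⟨κ, η, X0, hκ, hη, hX0, hfin⟩ := W388.final_of_const_E 3 A (by norm_num) hA M hMsq (cc ψ) F
    (by exact_mod_cast hF) hSel 0.943 1.72055 (by norm_num) (by linarith [Real.pi_gt_three])
    Pool.Agent.Y772.NC.Rw_const_d3
  refine ⟨F, ?_, κ, η, X0, hκ, hη, hX0, ?_⟩
  · intro q χ hq hqN hχ
    exact hF2 q χ hq ((W388.coprime_rad hN0 q).mpr hqN) hχ
  · intro X Y T a1 a2 a3 a4 a5
    obtain ⟨b1, b2⟩ := hfin X Y T a1 a2 a3 a4 a5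
    simp only [hM, W388.primFamM_rad hN0] at b1 b2
    norm_num at b1 b2 ⊢
    exact ⟨b1, b2⟩

end

end Pool.Agent.Y773
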