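import Pool.Agent.Y773.HK.Eul
import Pool.Agent.Y773.HK.Cub

/-! # The Euler factors of the twists -/

set_option autoImplicit false
set_option linter.unusedSectionVars false

open NumberField Complex Filter Topology Set

namespace Pool.Agent.Y773

section

variable {K : Type} [Field K] [NumberField K]

/-- `∏_{𝔭 ∣ p} (1 - ψ(𝔭) x^(f(𝔭)))` -/
noncomputable def HP (ψ : Ideal (𝓞 K) →*₀ ℂ) (p : ℕ) (x : ℂ) : ℂ :=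
  ∏ᶠ 𝔭 ∈ {𝔭 : Ideal (𝓞 K) | 𝔭.IsPrime ∧ (p : 𝓞 K) ∈ 𝔭}, (1 - ψ 𝔭 * x ^ (𝔭.inertiaDeg ℤ))

theorem hasProd_tw {ψ : Ideal (𝓞 K) →*₀ ℂ} (hψ : ∀ 𝔞, ‖ψ 𝔞‖ ≤ 1) {q : ℕ}
    (χ : DirichletCharacter ℂ q) {s : ℂ} (hs : 1 < s.re) :
    HasProd (fun p : Nat.Primes =>
      (HP ψ p (χ ((p : ℕ) : ZMod q) * ((p : ℕ) : ℂ) ^ (-s)))⁻¹) (LI (tw ψ χ) s) := by
  have h1 : ∀ 𝔞, ‖tw ψ χ 𝔞‖ ≤ 1 := by
    intro 𝔞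
    change ‖ψ 𝔞 * χ ((Ideal.absNorm 𝔞 : ℕ) : ZMod q)‖ ≤ 1
    rw [norm_mul]
    exact mul_le_one₀ (hψ 𝔞) (norm_nonneg _) (DirichletCharacter.norm_le_one χ _)
  refine (hasProd_LI h1 hs).congr_fun fun p => ?_
  congr 1
  unfold HP Ov
  refine finprod_mem_congr rfl fun 𝔭 h𝔭 => ?_
  have h2 : Prime 𝔭 := prime_of_Ov p.2 h𝔭
  have h3 := Pool.Agent.Y772.DK.norm_over p.2 ((Ov_iff p.2 h2).mp h𝔭)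
  have h4 : zz (tw ψ χ) s 𝔭 =
      ψ 𝔭 * χ ((Ideal.absNorm 𝔭 : ℕ) : ZMod q) * ((Ideal.absNorm 𝔭 : ℕ) : ℂ) ^ (-s) := rfl
  rw [h4, h3, natCast_pow_cpow, Nat.cast_pow, map_pow, mul_pow]
  ring

end

end Pool.Agent.Y773
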