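import Pool.Agent.Y772.DK.Main

/-! # Euler products over the rational primes -/

set_option autoImplicit false
set_option linter.unusedSectionVars false

open NumberField Complex Filter Topology Set

namespace Pool.Agent.Y773

open Pool.Agent.Y772.DK

section

variable {K : Type} [Field K] [NumberField K]

/-- the prime ideals above `p` -/
def Ov (K : Type) [Field K] [NumberField K] (p : ℕ) : Set (Ideal (𝓞 K)) :=
  {𝔭 : Ideal (𝓞 K) | 𝔭.IsPrime ∧ (p : 𝓞 K) ∈ 𝔭}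

lemma Ov_iff {p : ℕ} (hp : p.Prime) {𝔭 : Ideal (𝓞 K)} (h : Prime 𝔭) :
    𝔭 ∈ Ov K p ↔ 𝔭 ∈ (Ideal.span {(p : ℤ)}).primesOver (𝓞 K) := by
  have h1 : 𝔭.IsPrime := Ideal.isPrime_of_prime h
  constructor
  · rintro ⟨-, h2⟩
    refine ⟨h1, ⟨?_⟩⟩
    have hmax : (Ideal.span {(p : ℤ)}).IsMaximal :=
      PrincipalIdealRing.isMaximal_of_irreducible
        (Nat.prime_iff_prime_int.mp hp).irreducible
    refine hmax.eq_of_le ?_ ?_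
    · exact (h1.comap (algebraMap ℤ (𝓞 K))).ne_top
    · rw [Ideal.span_singleton_le_iff_mem]
      change algebraMap ℤ (𝓞 K) (p : ℤ) ∈ 𝔭
      simpa using h2
  · rintro ⟨-, h2⟩
    refine ⟨h1, ?_⟩
    have h3 : (p : ℤ) ∈ Ideal.span {(p : ℤ)} := Ideal.mem_span_singleton_self _
    rw [h2.over] at h3
    have h4 : algebraMap ℤ (𝓞 K) (p : ℤ) ∈ 𝔭 := h3
    simpa using h4

lemma prime_of_Ov {p : ℕ} (hp : p.Prime) {𝔭 : Ideal (𝓞 K)} (h : 𝔭 ∈ Ov K p) : Prime 𝔭 := by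
  refine Ideal.prime_of_isPrime ?_ h.1
  rintro rfl
  have h2 := h.2
  rw [Ideal.mem_bot] at h2
  exact hp.ne_zero (by exact_mod_cast h2)

/-- the rational prime below -/
noncomputable def bl (𝔭 : {𝔭 : Ideal (𝓞 K) // Prime 𝔭}) : Nat.Primes :=
  ⟨(below 𝔭.2).choose, (below 𝔭.2).choose_spec.1⟩

lemma bl_iff (𝔭 : {𝔭 : Ideal (𝓞 K) // Prime 𝔭}) (p : Nat.Primes) : bl 𝔭 = p ↔ 𝔭.1 ∈ Ov K p := by
  have h1 : 𝔭.1 ∈ Ov K (bl 𝔭) := (Ov_iff (bl 𝔭).2 𝔭.2).mpr (below 𝔭.2).choose_spec.2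
  constructor
  · rintro rfl
    exact h1
  · intro h2
    by_contra hne
    have hcop : Nat.Coprime (bl 𝔭 : ℕ) (p : ℕ) := (Nat.coprime_primes (bl 𝔭).2 p.2).mpr
      (fun h => hne (Subtype.ext h))
    obtain ⟨u, v, huv⟩ := Nat.isCoprime_iff_coprime.mpr hcop
    have h4 : (1 : 𝓞 K) ∈ 𝔭.1 := by
      have h5 : ((u * (bl 𝔭 : ℕ) + v * (p : ℕ) : ℤ) : 𝓞 K) = 1 := by rw [huv]; simp
      rw [← h5]
      push_cast
      exact 𝔭.1.add_mem (Ideal.mul_mem_left _ _ h1.2) (Ideal.mul_mem_left _ _ h2.2)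
    exact h1.1.ne_top ((Ideal.eq_top_iff_one _).mpr h4)

lemma natCast_pow_cpow (N k : ℕ) (z : ℂ) : (((N ^ k : ℕ)) : ℂ) ^ z = ((N : ℂ) ^ z) ^ k := by
  induction k with
  | zero => simp
  | succ k ih =>
    rw [pow_succ, Nat.cast_mul, Complex.natCast_mul_natCast_cpow, ih, pow_succ]

/-- the local factor -/
noncomputable def zz (ψ : Ideal (𝓞 K) →*₀ ℂ) (s : ℂ) (𝔭 : Ideal (𝓞 K)) : ℂ :=
  ψ 𝔭 * ((Ideal.absNorm 𝔭 : ℕ) : ℂ) ^ (-s)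

lemma norm_zz_lt {ψ : Ideal (𝓞 K) →*₀ ℂ} (hψ : ∀ 𝔞, ‖ψ 𝔞‖ ≤ 1) {s : ℂ} (hs : 1 < s.re)
    {𝔭 : Ideal (𝓞 K)} (h : Prime 𝔭) : ‖zz ψ s 𝔭‖ < 1 := by
  have h1 : Ideal.absNorm 𝔭 ≠ 0 := fun h1 => h.ne_zero (Ideal.absNorm_eq_zero_iff.mp h1)
  have h2 : Ideal.absNorm 𝔭 ≠ 1 := fun h2 =>
    (Ideal.isPrime_of_prime h).ne_top (Ideal.absNorm_eq_one_iff.mp h2)
  unfold zz
  rw [norm_mul, Complex.norm_natCast_cpow_of_pos (by omega)]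
  have h3 : ((Ideal.absNorm 𝔭 : ℕ) : ℝ) ^ (-s).re < 1 := by
    refine Real.rpow_lt_one_of_one_lt_of_neg (by exact_mod_cast (by omega : 1 < Ideal.absNorm 𝔭)) ?_
    simp only [neg_re]
    linarith
  calc _ ≤ 1 * ((Ideal.absNorm 𝔭 : ℕ) : ℝ) ^ (-s).re :=
        mul_le_mul_of_nonneg_right (hψ 𝔭) (by positivity)
    _ < 1 := by rw [one_mul]; exact h3

lemma hasSum_log {ψ : Ideal (𝓞 K) →*₀ ℂ} (hψ : ∀ 𝔞, ‖ψ 𝔞‖ ≤ 1) {s : ℂ} (hs : 1 < s.re) :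
    HasSum (fun 𝔭 : {𝔭 : Ideal (𝓞 K) // Prime 𝔭} => -Complex.log (1 - zz ψ s 𝔭)) (LA (ee ψ) s) := by
  have h1 : HasSum (fun 𝔞 : Ideal (𝓞 K) => ee ψ 𝔞 * ((Ideal.absNorm 𝔞 : ℕ) : ℂ) ^ (-s))
      (LA (ee ψ) s) := (term_summable (ee_zero ψ) (ee_le ψ hψ) hs).of_norm.hasSum
  let j : {𝔭 : Ideal (𝓞 K) // Prime 𝔭} × ℕ → Ideal (𝓞 K) := fun x => x.1.1 ^ (x.2 + 1)
  have hj : Function.Injective j := by
    rintro ⟨⟨p, hp⟩, k⟩ ⟨⟨q, hq⟩, l⟩ h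
    have h2 : p ^ (k + 1) = q ^ (l + 1) := h
    have hpq : p = q := by
      have h3 : p ∣ q := hp.dvd_of_dvd_pow (h2 ▸ dvd_pow_self p (by omega))
      have := (hp.dvd_prime_iff_associated hq).mp h3
      rwa [associated_iff_eq] at this
    subst hpq
    have h4 : k + 1 = l + 1 := by
      exact pow_injective_of_not_isUnit hp.not_isUnit hp.ne_zero h2
    have h5 : k = l := by omega
    rw [h5]
  have h2 : HasSum ((fun 𝔞 : Ideal (𝓞 K) => ee ψ 𝔞 * ((Ideal.absNorm 𝔞 : ℕ) : ℂ) ^ (-s)) ∘ j)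
      (LA (ee ψ) s) := by
    rw [hj.hasSum_iff]
    · exact h1
    · intro 𝔞 h𝔞
      have h3 : ¬ IsPrimePow 𝔞 := by
        rintro ⟨p, k, hp, hk, rfl⟩
        apply h𝔞
        refine ⟨(⟨p, hp⟩, k - 1), ?_⟩
        change p ^ (k - 1 + 1) = p ^ k
        rw [Nat.sub_add_cancel hk]
      unfold ee
      rw [VM_of_not h3, zero_div, ofReal_zero, zero_mul, zero_mul]
  refine HasSum.prod_fiberwise h2 fun 𝔭 => ?_
  have hz := norm_zz_lt hψ hs 𝔭.2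
  have h3 := Complex.hasSum_taylorSeries_neg_log hz
  rw [← hasSum_nat_add_iff' 1] at h3
  simp only [Finset.range_one, Finset.sum_singleton, pow_zero, Nat.cast_zero, div_zero, sub_zero] at h3
  refine h3.congr_fun fun k => ?_
  have hNlog : Real.log (Ideal.absNorm 𝔭.1) ≠ 0 := by
    have h4 : Ideal.absNorm 𝔭.1 ≠ 0 := fun h1 => 𝔭.2.ne_zero (Ideal.absNorm_eq_zero_iff.mp h1)
    have h5 : Ideal.absNorm 𝔭.1 ≠ 1 := fun h2 =>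
      (Ideal.isPrime_of_prime 𝔭.2).ne_top (Ideal.absNorm_eq_one_iff.mp h2)
    have : (1 : ℝ) < Ideal.absNorm 𝔭.1 := by exact_mod_cast (by omega : 1 < Ideal.absNorm 𝔭.1)
    exact (Real.log_pos this).ne'
  change ee ψ (𝔭.1 ^ (k + 1)) * ((Ideal.absNorm (𝔭.1 ^ (k + 1)) : ℕ) : ℂ) ^ (-s) =
    zz ψ s 𝔭 ^ (k + 1) / ((k + 1 : ℕ) : ℂ)
  unfold ee zz
  rw [VM_pow 𝔭.2 (by omega), map_pow, map_pow, Nat.cast_pow, Real.log_pow, mul_pow]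
  have h6 : ((((Ideal.absNorm 𝔭.1 : ℕ) ^ (k + 1) : ℕ)) : ℂ) ^ (-s) =
      (((Ideal.absNorm 𝔭.1 : ℕ) : ℂ) ^ (-s)) ^ (k + 1) := by
    exact natCast_pow_cpow _ _ _
  rw [h6]
  have h7 : (Real.log (Ideal.absNorm 𝔭.1) / (((k + 1 : ℕ) : ℝ) * Real.log (Ideal.absNorm 𝔭.1)) : ℝ) =
      1 / ((k + 1 : ℕ) : ℝ) := by
    field_simp
  rw [h7]
  push_cast
  ring

/-- **Euler product over the rational primes** -/
theorem hasProd_LI {ψ : Ideal (𝓞 K) →*₀ ℂ} (hψ : ∀ 𝔞, ‖ψ 𝔞‖ ≤ 1) {s : ℂ} (hs : 1 < s.re) :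
    HasProd (fun p : Nat.Primes => (∏ᶠ 𝔭 ∈ Ov K p, (1 - zz ψ s 𝔭))⁻¹) (LI ψ s) := by
  classical
  have h1 := hasSum_log hψ hs
  have h2 := h1.tsum_fiberwise bl
  have h3 := h2.cexp
  rw [← LI_eq_exp ψ hψ hs] at h3
  refine h3.congr_fun fun p => ?_
  -- the fibre
  have hfin : (Ov K p).Finite := by
    have h4 : Ov K p ⊆ {𝔭 | 𝔭 ∣ Ideal.span {((p : ℕ) : 𝓞 K)}} := by
      intro 𝔭 h𝔭
      rw [mem_ofPred_eq, Ideal.dvd_span_singleton]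
      exact h𝔭.2
    refine (finite_dvd ?_).subset h4
    rw [Ne, Ideal.zero_eq_bot, Ideal.span_singleton_eq_bot]
    exact_mod_cast p.2.ne_zero
  have hfin' : Finite (Ov K p) := hfin
  let e : (bl ⁻¹' {p} : Set {𝔭 : Ideal (𝓞 K) // Prime 𝔭}) ≃ Ov K p :=
    { toFun := fun 𝔭 => ⟨𝔭.1.1, (bl_iff 𝔭.1 p).mp 𝔭.2⟩
      invFun := fun x => ⟨⟨x.1, prime_of_Ov p.2 x.2⟩, (bl_iff _ p).mpr x.2⟩
      left_inv := fun 𝔭 => rfl
      right_inv := fun x => rfl }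
  have hfin2 : Finite (bl ⁻¹' {p} : Set {𝔭 : Ideal (𝓞 K) // Prime 𝔭}) := Finite.of_equiv _ e.symm
  have := Fintype.ofFinite (bl ⁻¹' {p} : Set {𝔭 : Ideal (𝓞 K) // Prime 𝔭})
  have := Fintype.ofFinite (Ov K p)
  rw [← finprod_set_coe_eq_finprod_mem, finprod_eq_prod_of_fintype]
  simp only [Function.comp_apply]
  rw [tsum_fintype, Complex.exp_sum, ← Equiv.prod_comp e, ← Finset.prod_inv_distrib]
  refine Finset.prod_congr rfl fun 𝔭 _ => ?_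
  have hz := norm_zz_lt hψ hs 𝔭.1.2
  have hne : 1 - zz ψ s 𝔭.1.1 ≠ 0 := by
    intro h0
    have h5 : zz ψ s 𝔭.1.1 = 1 := (sub_eq_zero.mp h0).symm
    rw [h5, norm_one] at hz
    exact lt_irrefl _ hz
  rw [Complex.exp_neg, Complex.exp_log hne]
  rfl

end

end Pool.Agent.Y773
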