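import Pool.Agent.Y773.HK.Poi3

/-! # Units of totally real fields and the domain of integration -/

set_option autoImplicit false
set_option linter.unusedSectionVars false

open NumberField Complex Filter Topology MeasureTheory
open NumberField.Units NumberField.Units.dirichletUnitTheorem

namespace Pool.Agent.Y773

/-- change of variables, general form -/
lemma exists_vol_gen {E F : Type} [NormedAddCommGroup E] [NormedSpace ℝ E] [FiniteDimensional ℝ E]
    [MeasurableSpace E] [BorelSpace E] [NormedAddCommGroup F] [NormedSpace ℝ F]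
    [FiniteDimensional ℝ F] [MeasurableSpace F] [BorelSpace F]
    (μ : Measure E) [μ.IsAddHaarMeasure] (ν : Measure F) [ν.IsAddHaarMeasure] (L : E ≃ₗ[ℝ] F) :
    ∃ c : ℝ, 0 < c ∧ (∀ f : F → ℂ, ∫ v, f (L v) ∂μ = (c : ℂ) * ∫ u, f u ∂ν) ∧
      (∀ f : F → ℝ, ∫ v, f (L v) ∂μ = c * ∫ u, f u ∂ν) ∧
      (∀ f : F → ℂ, Integrable f ν → Integrable (fun v => f (L v)) μ) := by
  set L' : E ≃L[ℝ] F := L.toContinuousLinearEquiv with hL
  have h1 : (Measure.map L' μ).IsAddHaarMeasure := L'.toContinuousAddEquiv.isAddHaarMeasure_map _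
  obtain ⟨c, hc⟩ : ∃ c : NNReal, Measure.map L' μ = c • ν :=
    ⟨_, Measure.isAddLeftInvariant_eq_smul _ _⟩
  have hc0 : c ≠ 0 := by
    rintro rfl
    rw [zero_smul] at hc
    have := h1.toIsOpenPosMeasure.open_pos Set.univ isOpen_univ Set.univ_nonempty
    rw [hc] at this
    simp at this
  have hme := L'.toHomeomorph.toMeasurableEquiv.measurableEmbedding
  have hc0' : (0 : ℝ) < c := by
    have : 0 < c := pos_iff_ne_zero.mpr hc0
    exact_mod_cast this
  refine ⟨(c : ℝ), hc0', fun f => ?_, fun f => ?_, fun f hf => ?_⟩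
  · have h2 : ∫ v, f (L v) ∂μ = ∫ u, f u ∂(Measure.map L' μ) := (hme.integral_map f).symm
    rw [h2, hc, integral_smul_nnreal_measure]
    rfl
  · have h2 : ∫ v, f (L v) ∂μ = ∫ u, f u ∂(Measure.map L' μ) := (hme.integral_map f).symm
    rw [h2, hc, integral_smul_nnreal_measure]
    rfl
  · have h2 : Integrable f (Measure.map L' μ) := by
      rw [hc]
      exact hf.smul_measure_nnreal
    exact (hme.integrable_map_iff).mp h2

section units

variable (K : Type) [Field K] [NumberField K]

/-- the units as a product -/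
noncomputable def unE : torsion K × (Fin (rank K) → ℤ) ≃ (𝓞 K)ˣ :=
  Equiv.ofBijective (fun p => (p.1 : (𝓞 K)ˣ) * ∏ i, (fundSystem K i) ^ (p.2 i)) (by
    constructor
    · intro p q h
      exact (exist_unique_eq_mul_prod K ((q.1 : (𝓞 K)ˣ) * ∏ i, (fundSystem K i) ^ (q.2 i))).unique
        h.symm rfl
    · intro u
      obtain ⟨p, hp, -⟩ := exist_unique_eq_mul_prod K u
      exact ⟨p, hp.symm⟩)

lemma unE_apply (ζ : torsion K) (m : Fin (rank K) → ℤ) :
    unE K (ζ, m) = (ζ : (𝓞 K)ˣ) * ∏ i, (fundSystem K i) ^ (m i) := rfl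

lemma place_unE (ζ : torsion K) (m : Fin (rank K) → ℤ) (w : InfinitePlace K) :
    w ((unE K (ζ, m) : (𝓞 K)ˣ) : K) =
      Real.exp (∑ i, (m i : ℝ) * Real.log (w ((fundSystem K i : (𝓞 K)ˣ) : K))) := by
  have hpos : ∀ u : (𝓞 K)ˣ, 0 < w (u : K) := fun u => by
    rw [InfinitePlace.pos_iff]
    simp
  have h1 : Real.log (w ((unE K (ζ, m) : (𝓞 K)ˣ) : K)) =
      ∑ i, (m i : ℝ) * Real.log (w ((fundSystem K i : (𝓞 K)ˣ) : K)) := by
    have hw : ∀ u v : (𝓞 K)ˣ, w ((u * v : (𝓞 K)ˣ) : K) = w (u : K) * w (v : K) := by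
      intro u v
      rw [← map_mul]
      congr 1
    let φ : (𝓞 K)ˣ →* Multiplicative ℝ :=
      { toFun := fun u => Multiplicative.ofAdd (Real.log (w (u : K)))
        map_one' := by simp
        map_mul' := fun u v => by
          rw [hw, Real.log_mul (hpos u).ne' (hpos v).ne']
          rfl }
    have h2 : φ (unE K (ζ, m)) = φ ζ * ∏ i, φ (fundSystem K i) ^ (m i) := by
      rw [unE_apply, map_mul, map_prod]
      simp only [map_zpow]
    have h3 : φ ζ = 1 := by
      have : w ((ζ : (𝓞 K)ˣ) : K) = 1 := by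
        have := (mem_torsion K).mp ζ.2
        exact this w
      change Multiplicative.ofAdd (Real.log _) = 1
      rw [this, Real.log_one]
      rfl
    rw [h3, one_mul] at h2
    have h4 := congrArg Multiplicative.toAdd h2
    rw [toAdd_prod] at h4
    simp only [toAdd_zpow] at h4
    change Real.log _ = _ at h4
    rw [h4]
    refine Finset.sum_congr rfl fun i _ => ?_
    rw [zsmul_eq_mul]
    rfl
  rw [← h1, Real.exp_log (hpos _)]

end units

section coord

variable (K : Type) [Field K] [NumberField K]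

/-- coordinates: `(τ, θ) ↦ τ + ∑ θ_i 2 log |ε_i|` -/
noncomputable def el : (ℝ × (Fin (rank K) → ℝ)) →ₗ[ℝ] (InfinitePlace K → ℝ) where
  toFun p w := p.1 + ∑ i, p.2 i * (2 * Real.log (w ((fundSystem K i : (𝓞 K)ˣ) : K)))
  map_add' p q := by
    funext w
    simp only [Prod.fst_add, Prod.snd_add, Pi.add_apply, add_mul, Finset.sum_add_distrib]
    ring
  map_smul' c p := by
    funext w
    simp only [Prod.smul_fst, Prod.smul_snd, Pi.smul_apply, smul_eq_mul, RingHom.id_apply,
      Finset.mul_sum, mul_add, mul_assoc]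

variable [IsTotallyReal K]

lemma sum_log_unit (u : (𝓞 K)ˣ) : ∑ w : InfinitePlace K, Real.log (w (u : K)) = 0 := by
  have h := sum_mult_mul_log u
  simpa using h

lemma sum_el (p : ℝ × (Fin (rank K) → ℝ)) :
    ∑ w : InfinitePlace K, el K p w = Module.finrank ℚ K * p.1 := by
  simp only [el, LinearMap.coe_mk, AddHom.coe_mk]
  rw [Finset.sum_add_distrib, Finset.sum_comm]
  have h1 : ∀ i, ∑ w : InfinitePlace K,
      p.2 i * (2 * Real.log (w ((fundSystem K i : (𝓞 K)ˣ) : K))) = 0 := by
    intro i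
    rw [← Finset.mul_sum, ← Finset.mul_sum, sum_log_unit]
    simp
  simp only [h1, Finset.sum_const_zero, add_zero, Finset.sum_const, Finset.card_univ, card_place,
    nsmul_eq_mul]

lemma el_injective : Function.Injective (el K) := by
  rw [injective_iff_map_eq_zero]
  intro p hp
  have h1 := sum_el K p
  rw [hp] at h1
  simp only [Pi.zero_apply, Finset.sum_const_zero] at h1
  have hn : (Module.finrank ℚ K : ℝ) ≠ 0 := by
    have := Module.finrank_pos (R := ℚ) (M := K)
    exact_mod_cast this.ne'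
  have h2 : p.1 = 0 := by
    rcases mul_eq_zero.mp h1.symm with h | h
    · exact absurd h hn
    · exact h
  classical
  have hB := isMaxRank_fundSystem K
  have h3 : ∑ i, p.2 i • logEmbedding K (Additive.ofMul (fundSystem K i)) = 0 := by
    funext w
    have h4 := congrFun hp w.1
    simp only [el, LinearMap.coe_mk, AddHom.coe_mk, h2, zero_add, Pi.zero_apply] at h4
    rw [Finset.sum_apply]
    have h5 : ∀ i, (p.2 i • logEmbedding K (Additive.ofMul (fundSystem K i))) w =
        p.2 i * Real.log (w.1 ((fundSystem K i : (𝓞 K)ˣ) : K)) := by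
      intro i
      rw [Pi.smul_apply, logEmbedding_component, IsTotallyReal.mult_eq]
      simp
    simp only [h5, Pi.zero_apply]
    have h6 : ∑ i, p.2 i * (2 * Real.log (w.1 ((fundSystem K i : (𝓞 K)ˣ) : K))) =
        2 * ∑ i, p.2 i * Real.log (w.1 ((fundSystem K i : (𝓞 K)ˣ) : K)) := by
      rw [Finset.mul_sum]
      exact Finset.sum_congr rfl fun i _ => by ring
    rw [h6] at h4
    linarith
  have h7 := Fintype.linearIndependent_iff.mp hB p.2 h3
  exact Prod.ext h2 (funext h7)

/-- `el` is an isomorphism -/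
noncomputable def elE : (ℝ × (Fin (rank K) → ℝ)) ≃ₗ[ℝ] (InfinitePlace K → ℝ) :=
  LinearEquiv.ofInjectiveOfFinrankEq (el K) (el_injective K) (by
    rw [Module.finrank_prod, Module.finrank_pi, Module.finrank_pi, Module.finrank_self,
      Fintype.card_fin, rank]
    have : 0 < Fintype.card (InfinitePlace K) := Fintype.card_pos
    omega)

lemma elE_apply (p : ℝ × (Fin (rank K) → ℝ)) : elE K p = el K p := rfl

end coord

end Pool.Agent.Y773
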