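import Pool.Agent.Y773.HK.Defs
import Pool.Agent.W388.TW.D0

/-!
# Ray class characters of number fields and their L-functions: statements of the parts

Owner helper773 (zeros of Artin L-functions of degree three).  Every `def St... : Prop` is the
statement of one part; a proof of it is a theorem `t_... : St...` in a file of its own.
-/

set_option autoImplicit false

open NumberField Complex Filter Topology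

namespace Pool.Agent.Y773

/-- TW : the twist of a primitive ray class character by a primitive Dirichlet character of the
norm, of conductor prime to the discriminant and to the conductor, is primitive. -/
def StTw : Prop := ∀ (K : Type) [Field K] [NumberField K] [IsGalois ℚ K] (𝔣 : Ideal (𝓞 K))
  (ψ : Ideal (𝓞 K) →*₀ ℂ), IsPrimChar K 𝔣 ψ → ∀ (q : ℕ) (χ : DirichletCharacter ℂ q), 1 ≤ q →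
    χ.IsPrimitive → Nat.Coprime q (Ideal.absNorm 𝔣) → IsCoprime (q : ℤ) (discr K) →
    IsPrimChar K (𝔣 * Ideal.span {(q : 𝓞 K)}) (tw ψ χ)

/-- SIG : the signature of a ray class character of a totally real field. -/
def StSig : Prop := ∀ (K : Type) [Field K] [NumberField K] [IsTotallyReal K] (𝔣 : Ideal (𝓞 K))
  (ψ : Ideal (𝓞 K) →*₀ ℂ), 𝔣 ≠ ⊥ →
  (∀ x : 𝓞 K, x - 1 ∈ 𝔣 → TPos K x → ψ (Ideal.span {x}) = 1) →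
    ∃ e : InfinitePlace K → ℕ, (∀ w, e w ≤ 1) ∧
      ∀ x : 𝓞 K, x ≠ 0 → x - 1 ∈ 𝔣 → ψ (Ideal.span {x}) = sg e (x : K)

/-- PER : `Ψ_𝔟` is periodic modulo `𝔟 𝔪`, supported on `𝔟`, of absolute value `≤ 1`, and it
transforms under the units by the sign character. -/
def StPer : Prop := ∀ (K : Type) [Field K] [NumberField K] [IsTotallyReal K] (𝔪 : Ideal (𝓞 K))
  (e : InfinitePlace K → ℕ) (η : Ideal (𝓞 K) →*₀ ℂ), IsModChar 𝔪 e η →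
    (∀ 𝔞, ‖η 𝔞‖ ≤ 1) ∧ (∀ 𝔞, IsCoprime 𝔞 𝔪 → ‖η 𝔞‖ = 1) ∧
    ∀ 𝔟 : Ideal (𝓞 K), 𝔟 ≠ ⊥ →
      (∀ x y : 𝓞 K, x - y ∈ 𝔟 * 𝔪 → Ps η e 𝔟 x = Ps η e 𝔟 y) ∧
      (∀ x : 𝓞 K, x ∉ 𝔟 → Ps η e 𝔟 x = 0) ∧
      (∀ x : 𝓞 K, ‖Ps η e 𝔟 x‖ ≤ 1) ∧
      (∀ (u : (𝓞 K)ˣ) (x : 𝓞 K), Ps η e 𝔟 (u * x) = sg e ((u : 𝓞 K) : K) * Ps η e 𝔟 x)

/-- GAUSS : the finite Fourier transform of `Ψ_𝔟` for a primitive character. -/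
def StGauss : Prop := ∀ (K : Type) [Field K] [NumberField K] [IsTotallyReal K] (𝔣 : Ideal (𝓞 K))
  (ψ : Ideal (𝓞 K) →*₀ ℂ) (e : InfinitePlace K → ℕ), IsPrimChar K 𝔣 ψ → IsModChar 𝔣 e ψ →
    ∃ τ : ℂ, ∀ (𝔟 𝔟' : Ideal (𝓞 K)) (m D : ℕ), 0 < m → 0 < D →
      𝔟' * (𝔟 * 𝔣 * differentIdeal ℤ (𝓞 K)) = Ideal.span {((m * D : ℕ) : 𝓞 K)} →
      (m : 𝓞 K) ∈ 𝔟 * 𝔣 → (D : 𝓞 K) ∈ differentIdeal ℤ (𝓞 K) → ∀ x : 𝓞 K,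
        FT D m (Ps ψ e 𝔟) x = τ * ((m : ℂ) ^ (Module.finrank ℚ K) /
          ((Ideal.absNorm 𝔟 : ℂ) * (Ideal.absNorm 𝔣 : ℂ))) * (starRingEnd ℂ) (Ps ψ e 𝔟' x)

/-- ORTH : the constant terms cancel for a ray class character which is not trivial. -/
def StOrth : Prop := ∀ (K : Type) [Field K] [NumberField K] [IsTotallyReal K] (𝔪 : Ideal (𝓞 K))
  (η : Ideal (𝓞 K) →*₀ ℂ), IsModChar 𝔪 (fun _ => 0) η → (∃ 𝔞, IsCoprime 𝔞 𝔪 ∧ η 𝔞 ≠ 1) →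
    ∀ (𝔟 : ClassGroup (𝓞 K) → Ideal (𝓞 K)) (h0 : ∀ c, 𝔟 c ≠ ⊥),
      (∀ c, ClassGroup.mk0 ⟨𝔟 c, mem_nonZeroDivisors_of_ne_zero (h0 c)⟩ = c) →
      ∀ m : ℕ, 0 < m → (∀ c, (m : 𝓞 K) ∈ 𝔟 c * 𝔪) →
        ∑ c, (Ideal.absNorm (𝔟 c) : ℂ) *
          ∑ᶠ r : 𝓞 K ⧸ Ideal.span {(m : 𝓞 K)}, Ps η (fun _ => 0) (𝔟 c) (Quotient.out r) = 0

/-- FE : analytic consequences of the functional equation, uniform in `Q ≥ 1` and in the function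
(as `W388.StFE`, `Pool.Agent.W820.TW.t_fe`). -/
def StFEd : Prop := ∀ (ι : Type) [Fintype ι] [Nonempty ι], ∀ (N : ℝ), 1 ≤ N → ∀ (B : ℝ), 1 ≤ B →
  ∃ A : ℝ, 1 ≤ A ∧ ∀ (Q : ℝ), 1 ≤ Q → ∀ (e : ι → ℕ) (F : ℂ → ℂ),
    FEd (N * Q ^ Fintype.card ι) e F →
    (∀ s : ℂ, 3 / 2 ≤ s.re → ‖F s‖ ≤ B) →
    (∀ s : ℂ, 1 ≤ s.re → 1 ≤ |s.im| → F s ≠ 0) →
    (∀ s : ℂ, (1 / 16 : ℝ) ≤ s.re → s.re ≤ 4 → 1 ≤ s.im → ‖F s‖ ≤ A * (Q * s.im) ^ A) ∧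
    (∀ s : ℂ, s.re ≤ 0 → 1 ≤ s.im → F s ≠ 0) ∧
    (∀ s : ℂ, 0 < s.re → s.re < 1 → 1 ≤ s.im →
      analyticOrderAt F (1 - (starRingEnd ℂ) s) = analyticOrderAt F s) ∧
    (∀ s : ℂ, -1 / 2 ≤ s.re → s.re ≤ 1 / 2 → 1 ≤ s.im → F s ≠ 0 →
      ‖deriv F s / F s + (((Fintype.card ι : ℝ) * Real.log (Q * s.im) : ℝ) : ℂ) +
        (starRingEnd ℂ) (deriv F (1 - (starRingEnd ℂ) s) / F (1 - (starRingEnd ℂ) s))‖ ≤ A)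

/-- DIR : the Dirichlet series of a completely multiplicative function on the ideals. -/
def StDirK : Prop := ∀ (K : Type) [Field K] [NumberField K], ∃ A : ℝ, 1 ≤ A ∧
  ∀ ψ : Ideal (𝓞 K) →*₀ ℂ, (∀ 𝔞, ‖ψ 𝔞‖ ≤ 1) →
    (∀ s : ℂ, 1 < s.re →
      Summable (fun 𝔞 : Ideal (𝓞 K) => ‖ψ 𝔞 * ((Ideal.absNorm 𝔞 : ℕ) : ℂ) ^ (-s)‖)) ∧
    (∀ s : ℂ, 1 < s.re → DifferentiableAt ℂ (LI ψ) s) ∧
    (∀ s : ℂ, 1 < s.re → LI ψ s ≠ 0) ∧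
    (∀ s : ℂ, 1 < s.re → deriv (LI ψ) s / LI ψ s =
      - ∑' n : ℕ, cc ψ n * (ArithmeticFunction.vonMangoldt n : ℂ) * (n : ℂ) ^ (-s)) ∧
    (∀ s : ℂ, 3 / 2 ≤ s.re → ‖LI ψ s‖ ≤ A) ∧
    (∀ s : ℂ, 2 ≤ s.re → A⁻¹ ≤ ‖LI ψ s‖) ∧
    (∀ n : ℕ, ‖cc ψ n‖ ≤ Module.finrank ℚ K) ∧
    (∀ p : ℕ, p.Prime → cc ψ p = ∑ᶠ 𝔭 ∈ {𝔭 : Ideal (𝓞 K) | Ideal.absNorm 𝔭 = p}, ψ 𝔭) ∧
    Summable (fun n : ℕ => ArithmeticFunction.vonMangoldt n * ‖cc ψ n‖ * (n : ℝ) ^ (-(3 / 2) : ℝ)) ∧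
    ∑' n : ℕ, ArithmeticFunction.vonMangoldt n * ‖cc ψ n‖ * (n : ℝ) ^ (-(3 / 2) : ℝ) ≤ A ∧
    (∀ (q : ℕ) (χ : DirichletCharacter ℂ q) (n : ℕ), cc (tw ψ χ) n = χ (n : ZMod q) * cc ψ n)

/-- SEL : weak Selberg orthonormality for the character of `Gal(ℚ̄/ℚ)` induced by `ψ`, from the
continuation of the L-functions of `ψ · conj(ψ^σ)`, for a cyclic cubic field `K`. -/
def StSelK : Prop := ∀ (K : Type) [Field K] [NumberField K] [IsGalois ℚ K],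
  Module.finrank ℚ K = 3 → ∀ ψ : Ideal (𝓞 K) →*₀ ℂ, (∀ 𝔞, ‖ψ 𝔞‖ ≤ 1) →
    (∃ 𝔪 : Ideal (𝓞 K), 𝔪 ≠ ⊥ ∧ ∀ 𝔞, IsCoprime 𝔞 𝔪 → ‖ψ 𝔞‖ = 1) →
    (∀ σ : K ≃+* K, σ ≠ RingEquiv.refl K → ∃ g : ℂ → ℂ, AnalyticAt ℂ g 1 ∧
      ∀ᶠ s in 𝓝 (1 : ℂ), 1 < s.re → LI (rs σ ψ) s = g s) →
    W388.SelE (cc ψ)

/-- NZR : no zeros on the line `Re s = 1`. -/
def StNzrK : Prop := ∀ (K : Type) [Field K] [NumberField K] [IsGalois ℚ K],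
  Module.finrank ℚ K = 3 → ∀ ψ : Ideal (𝓞 K) →*₀ ℂ, (∀ 𝔞, ‖ψ 𝔞‖ ≤ 1) → W388.SelE (cc ψ) →
    ∀ (q : ℕ) [NeZero q] (χ : DirichletCharacter ℂ q) (F : ℂ → ℂ) (s₀ : ℂ), s₀.re = 1 →
      AnalyticAt ℂ F s₀ → (∀ s : ℂ, 1 < s.re → F s = LI (tw ψ χ) s) → F s₀ ≠ 0

end Pool.Agent.Y773
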