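import Pool.Agent.Y773.HK.Hf2

/-! # Sum over the ideal classes -/

set_option autoImplicit false
set_option linter.unusedSectionVars false

open NumberField Complex Filter Topology MeasureTheory Set
open NumberField.Units NumberField.Units.dirichletUnitTheorem

namespace Pool.Agent.Y773

section general

variable {K : Type} [Field K] [NumberField K]

lemma qt_spec {𝔟 : Ideal (𝓞 K)} {x : 𝓞 K} (h : ∃ 𝔞 : Ideal (𝓞 K), 𝔞 * 𝔟 = Ideal.span {x}) :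
    qt 𝔟 x * 𝔟 = Ideal.span {x} := by
  unfold qt
  rw [dif_pos h]
  exact h.choose_spec

lemma qt_eq {𝔟 𝔞 : Ideal (𝓞 K)} (h𝔟 : 𝔟 ≠ ⊥) {x : 𝓞 K} (h : 𝔞 * 𝔟 = Ideal.span {x}) :
    qt 𝔟 x = 𝔞 := by
  have h1 := qt_spec ⟨𝔞, h⟩
  rw [← h] at h1
  exact mul_right_cancel₀ h𝔟 h1

lemma qt_eq_bot {𝔟 : Ideal (𝓞 K)} {x : 𝓞 K} (h : ¬ ∃ 𝔞 : Ideal (𝓞 K), 𝔞 * 𝔟 = Ideal.span {x}) :
    qt 𝔟 x = ⊥ := by
  unfold qt
  rw [dif_neg h]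

/-- the ideals `𝔞` with `𝔞 𝔟` principal -/
def Sc (𝔟 : Ideal (𝓞 K)) : Set (Ideal (𝓞 K)) := {𝔞 | 𝔞 ≠ ⊥ ∧ (𝔞 * 𝔟).IsPrincipal}

/-- the sum over principal multiples of `𝔟` -/
lemma sum_PIdl {𝔟 : Ideal (𝓞 K)} (h𝔟 : 𝔟 ≠ ⊥) (η : Ideal (𝓞 K) →*₀ ℂ) (s : ℂ) :
    ((Ideal.absNorm 𝔟 : ℕ) : ℂ) ^ s * ∑' J : PIdl K, η (qt 𝔟 (gen J)) *
      ((Ideal.absNorm J.1 : ℕ) : ℂ) ^ (-s) =
      ∑' 𝔞 : Sc 𝔟, η 𝔞 * ((Ideal.absNorm (𝔞 : Ideal (𝓞 K)) : ℕ) : ℂ) ^ (-s) := by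
  have hN : Ideal.absNorm 𝔟 ≠ 0 := by rwa [Ne, Ideal.absNorm_eq_zero_iff]
  have hNc : ((Ideal.absNorm 𝔟 : ℕ) : ℂ) ≠ 0 := by exact_mod_cast hN
  let i : Sc 𝔟 → PIdl K := fun 𝔞 => ⟨𝔞.1 * 𝔟, mul_ne_zero 𝔞.2.1 h𝔟, 𝔞.2.2⟩
  have hi : Function.Injective i := by
    intro a b h
    have h1 : a.1 * 𝔟 = b.1 * 𝔟 := congrArg Subtype.val h
    exact Subtype.ext (mul_right_cancel₀ h𝔟 h1)
  rw [← hi.tsum_eq, ← tsum_mul_left]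
  · refine tsum_congr fun 𝔞 => ?_
    have h1 : 𝔞.1 * 𝔟 = Ideal.span {gen (i 𝔞)} := (span_gen (i 𝔞)).symm
    rw [qt_eq h𝔟 h1]
    have h2 : (i 𝔞).1 = 𝔞.1 * 𝔟 := rfl
    rw [h2, map_mul, Nat.cast_mul, Complex.natCast_mul_natCast_cpow]
    have h3 : ((Ideal.absNorm 𝔟 : ℕ) : ℂ) ^ s * ((Ideal.absNorm 𝔟 : ℕ) : ℂ) ^ (-s) = 1 := by
      rw [← Complex.cpow_add _ _ hNc, add_neg_cancel, Complex.cpow_zero]
    calc _ = (((Ideal.absNorm 𝔟 : ℕ) : ℂ) ^ s * ((Ideal.absNorm 𝔟 : ℕ) : ℂ) ^ (-s)) *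
          (η 𝔞.1 * ((Ideal.absNorm 𝔞.1 : ℕ) : ℂ) ^ (-s)) := by ring
      _ = _ := by rw [h3, one_mul]
  · intro J hJ
    rw [Function.mem_support] at hJ
    by_cases h : ∃ 𝔞 : Ideal (𝓞 K), 𝔞 * 𝔟 = Ideal.span {gen J}
    · obtain ⟨𝔞, h𝔞⟩ := h
      rw [span_gen] at h𝔞
      refine ⟨⟨𝔞, ?_, ?_⟩, Subtype.ext h𝔞⟩
      · rintro rfl
        apply J.2.1
        rw [← h𝔞, Ideal.bot_mul]
      · rw [h𝔞]
        exact J.2.2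
    · exfalso
      apply hJ
      rw [qt_eq_bot h]
      have : η (⊥ : Ideal (𝓞 K)) = 0 := map_zero η
      rw [this, zero_mul]

lemma summable_LI {η : Ideal (𝓞 K) →*₀ ℂ} (hη : ∀ 𝔞, ‖η 𝔞‖ ≤ 1) [IsTotallyReal K] {s : ℂ}
    (hs : 1 < s.re) : Summable fun 𝔞 : Ideal (𝓞 K) => η 𝔞 * ((Ideal.absNorm 𝔞 : ℕ) : ℂ) ^ (-s) := by
  have h1 := summable_ideals (K := K) hs
  have h2 : Summable fun I : {I : Ideal (𝓞 K) // I ≠ ⊥} =>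
      η I.1 * ((Ideal.absNorm I.1 : ℕ) : ℂ) ^ (-s) := by
    refine Summable.of_norm_bounded h1 fun I => ?_
    rw [norm_mul, norm_absNorm_cpow I.2]
    calc _ ≤ 1 * (Ideal.absNorm I.1 : ℝ) ^ (-s.re) := mul_le_mul_of_nonneg_right (hη _) (by positivity)
      _ = _ := one_mul _
  have h3 := (Subtype.val_injective (p := fun I : Ideal (𝓞 K) => I ≠ ⊥)).summable_iff
    (f := fun 𝔞 : Ideal (𝓞 K) => η 𝔞 * ((Ideal.absNorm 𝔞 : ℕ) : ℂ) ^ (-s)) (by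
      intro I hI
      have : I = ⊥ := by
        by_contra h0
        exact hI ⟨⟨I, h0⟩, rfl⟩
      rw [this]
      have : η (⊥ : Ideal (𝓞 K)) = 0 := map_zero η
      rw [this, zero_mul])
  exact h3.mp h2

/-- class representatives -/
structure Reps (𝔟 : ClassGroup (𝓞 K) → Ideal (𝓞 K)) : Prop where
  ne_bot : ∀ c, 𝔟 c ≠ ⊥
  bij : Function.Bijective fun c =>
    ClassGroup.mk0 ⟨𝔟 c, mem_nonZeroDivisors_of_ne_zero (ne_bot c)⟩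

lemma exists_unique_class {𝔟 : ClassGroup (𝓞 K) → Ideal (𝓞 K)} (h : Reps 𝔟) {𝔞 : Ideal (𝓞 K)}
    (h𝔞 : 𝔞 ≠ ⊥) : ∃! c, 𝔞 ∈ Sc (𝔟 c) := by
  have key : ∀ c, 𝔞 ∈ Sc (𝔟 c) ↔
      ClassGroup.mk0 ⟨𝔟 c, mem_nonZeroDivisors_of_ne_zero (h.ne_bot c)⟩ =
      (ClassGroup.mk0 ⟨𝔞, mem_nonZeroDivisors_of_ne_zero h𝔞⟩)⁻¹ := by
    intro c
    have hne : 𝔞 * 𝔟 c ≠ 0 := mul_ne_zero h𝔞 (h.ne_bot c)
    have h1 := ClassGroup.mk0_eq_one_iff (mem_nonZeroDivisors_of_ne_zero hne)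
    have h2 : ClassGroup.mk0 ⟨𝔞 * 𝔟 c, mem_nonZeroDivisors_of_ne_zero hne⟩ =
        ClassGroup.mk0 ⟨𝔞, mem_nonZeroDivisors_of_ne_zero h𝔞⟩ *
        ClassGroup.mk0 ⟨𝔟 c, mem_nonZeroDivisors_of_ne_zero (h.ne_bot c)⟩ := by
      rw [← map_mul]
      rfl
    unfold Sc
    simp only [mem_ofPred_eq]
    rw [← h1, h2, eq_inv_iff_mul_eq_one, mul_comm]
    exact ⟨fun h => h.2, fun h => ⟨h𝔞, h⟩⟩
  obtain ⟨c, hc⟩ := h.bij.2 (ClassGroup.mk0 ⟨𝔞, mem_nonZeroDivisors_of_ne_zero h𝔞⟩)⁻¹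
  refine ⟨c, (key c).mpr hc, fun c' hc' => ?_⟩
  have h3 := (key c').mp hc'
  exact h.bij.1 (h3.trans hc.symm)

/-- **Sum over the classes** -/
theorem sum_classes [IsTotallyReal K] {𝔟 : ClassGroup (𝓞 K) → Ideal (𝓞 K)} (h : Reps 𝔟)
    {η : Ideal (𝓞 K) →*₀ ℂ} (hη : ∀ 𝔞, ‖η 𝔞‖ ≤ 1) {s : ℂ} (hs : 1 < s.re) :
    ∑ c, ((Ideal.absNorm (𝔟 c) : ℕ) : ℂ) ^ s * ∑' J : PIdl K, η (qt (𝔟 c) (gen J)) *
      ((Ideal.absNorm J.1 : ℕ) : ℂ) ^ (-s) = LI η s := by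
  classical
  have hsum := summable_LI hη hs
  simp_rw [fun c => sum_PIdl (h.ne_bot c) η s]
  set g : Ideal (𝓞 K) → ℂ := fun 𝔞 => η 𝔞 * ((Ideal.absNorm 𝔞 : ℕ) : ℂ) ^ (-s) with hg
  have h1 : ∀ c, ∑' 𝔞 : Sc (𝔟 c), η 𝔞 * ((Ideal.absNorm (𝔞 : Ideal (𝓞 K)) : ℕ) : ℂ) ^ (-s) =
      ∑' 𝔞, (Sc (𝔟 c)).indicator g 𝔞 := fun c => tsum_subtype (Sc (𝔟 c)) g
  simp_rw [h1]
  rw [← Summable.tsum_finsetSum (fun c _ => hsum.indicator _)]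
  unfold LI
  refine tsum_congr fun 𝔞 => ?_
  by_cases h𝔞 : 𝔞 = ⊥
  · have h2 : η (⊥ : Ideal (𝓞 K)) = 0 := map_zero η
    rw [h𝔞, h2, zero_mul]
    refine Finset.sum_eq_zero fun c _ => ?_
    rw [indicator_of_notMem]
    exact fun h => h.1 rfl
  · obtain ⟨c, hc, huniq⟩ := exists_unique_class h h𝔞
    rw [Finset.sum_eq_single c]
    · rw [indicator_of_mem hc]
    · intro c' _ hc'
      rw [indicator_of_notMem]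
      exact fun hmem => hc' (huniq c' hmem)
    · exact fun h => absurd (Finset.mem_univ c) h

end general

section real

variable {K : Type} [Field K] [NumberField K] [IsTotallyReal K]

lemma AA_Ps (e : InfinitePlace K → ℕ) (η : Ideal (𝓞 K) →*₀ ℂ) (𝔟 : Ideal (𝓞 K)) (J : PIdl K) :
    AA e (Ps η e 𝔟) J = η (qt 𝔟 (gen J)) := by
  unfold AA Ps
  rw [mul_assoc, sg_sq e (RingOfIntegers.coe_ne_zero_iff.mpr (gen_ne_zero J)), mul_one]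

/-- the total function -/
noncomputable def Ftot (η : Ideal (𝓞 K) →*₀ ℂ) (e : InfinitePlace K → ℕ)
    (𝔟 : ClassGroup (𝓞 K) → Ideal (𝓞 K)) (t : ℝ) : ℂ :=
  ∑ c, hf e (Ps η e (𝔟 c)) ((Ideal.absNorm (𝔟 c) : ℝ)⁻¹ * t)

/-- Mellin transform of the total function -/
theorem mellin_Ftot (K : Type) [Field K] [NumberField K] [IsTotallyReal K] : ∃ C : ℝ, 0 < C ∧
    ∀ (𝔟 : ClassGroup (𝓞 K) → Ideal (𝓞 K)), Reps 𝔟 → ∀ (e : InfinitePlace K → ℕ)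
      (η : Ideal (𝓞 K) →*₀ ℂ), (∀ 𝔞, ‖η 𝔞‖ ≤ 1) → (∀ c, Nice e (Ps η e (𝔟 c))) →
      ∀ s : ℂ, 1 < s.re → MellinConvergent (Ftot η e 𝔟) s ∧
        mellin (Ftot η e 𝔟) s = C * ((∏ w, Complex.Gammaℝ (s + e w)) * LI η s) := by
  classical
  obtain ⟨C, hC, h⟩ := mellin_hf K
  refine ⟨C, hC, fun 𝔟 h𝔟 e η hη hN s hs => ?_⟩
  have hpos : ∀ c, (0 : ℝ) < (Ideal.absNorm (𝔟 c) : ℝ)⁻¹ := by
    intro c
    have : Ideal.absNorm (𝔟 c) ≠ 0 := by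
      rw [Ne, Ideal.absNorm_eq_zero_iff]
      exact h𝔟.ne_bot c
    have : 0 < Ideal.absNorm (𝔟 c) := Nat.pos_of_ne_zero this
    positivity
  have h1 : ∀ c, MellinConvergent (fun t => hf e (Ps η e (𝔟 c)) ((Ideal.absNorm (𝔟 c) : ℝ)⁻¹ * t)) s := by
    intro c
    rw [MellinConvergent.comp_mul_left (hpos c)]
    exact (h e _ (hN c) s hs).1
  have h2 : ∀ c, mellin (fun t => hf e (Ps η e (𝔟 c)) ((Ideal.absNorm (𝔟 c) : ℝ)⁻¹ * t)) s =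
      C * ((∏ w, Complex.Gammaℝ (s + e w)) * (((Ideal.absNorm (𝔟 c) : ℕ) : ℂ) ^ s *
        ∑' J : PIdl K, η (qt (𝔟 c) (gen J)) * ((Ideal.absNorm J.1 : ℕ) : ℂ) ^ (-s))) := by
    intro c
    rw [mellin_comp_mul_left _ _ (hpos c), (h e _ (hN c) s hs).2.2, smul_eq_mul]
    simp_rw [AA_Ps]
    have h3 : (((Ideal.absNorm (𝔟 c) : ℝ)⁻¹ : ℝ) : ℂ) ^ (-s) = ((Ideal.absNorm (𝔟 c) : ℕ) : ℂ) ^ s := by
      have h4 : (0 : ℝ) < Ideal.absNorm (𝔟 c) := inv_pos.mp (hpos c)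
      rw [Complex.cpow_def_of_ne_zero (by exact_mod_cast (hpos c).ne'),
        ← Complex.ofReal_log (hpos c).le, Real.log_inv,
        Complex.cpow_def_of_ne_zero (by exact_mod_cast h4.ne'), ← Complex.ofReal_natCast,
        ← Complex.ofReal_log h4.le]
      congr 1
      push_cast
      ring
    rw [h3]
    ring
  have h5 : ∀ S : Finset (ClassGroup (𝓞 K)), MellinConvergent
      (fun t => ∑ c ∈ S, hf e (Ps η e (𝔟 c)) ((Ideal.absNorm (𝔟 c) : ℝ)⁻¹ * t)) s ∧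
      mellin (fun t => ∑ c ∈ S, hf e (Ps η e (𝔟 c)) ((Ideal.absNorm (𝔟 c) : ℝ)⁻¹ * t)) s =
      ∑ c ∈ S, mellin (fun t => hf e (Ps η e (𝔟 c)) ((Ideal.absNorm (𝔟 c) : ℝ)⁻¹ * t)) s := by
    intro S
    induction S using Finset.induction_on with
    | empty =>
      simp only [Finset.sum_empty]
      constructor
      · unfold MellinConvergent
        simp
      · simp [mellin]
    | insert c S hc ih =>
      simp only [Finset.sum_insert hc]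
      constructor
      · exact (hasMellin_add (h1 c) ih.1).1
      · rw [← ih.2]
        exact (hasMellin_add (h1 c) ih.1).2
  refine ⟨(h5 Finset.univ).1, ?_⟩
  have h6 := (h5 Finset.univ).2
  unfold Ftot
  rw [h6]
  simp_rw [h2]
  rw [← Finset.mul_sum, ← Finset.mul_sum, sum_classes h𝔟 hη hs]

end real

end Pool.Agent.Y773
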