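import Pool.Agent.Y773.HK.FeK
import Pool.Agent.Y772.FE.Main
import Pool.Agent.Y772.SG.Sgn
import Pool.Agent.W388.TW.Final

/-! # Assembly: the family of twists -/

set_option autoImplicit false
set_option linter.unusedSectionVars false

open NumberField Complex Filter Topology Set MeasureTheory

namespace Pool.Agent.Y773

section

variable {K : Type} [Field K] [NumberField K]

lemma natCast_mem_ne_top {q : ℕ} (hq : 2 ≤ q) : Ideal.span {(q : 𝓞 K)} ≠ ⊤ := by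
  intro h
  have h1 := congrArg Ideal.absNorm h
  rw [absNorm_span_nat, ← Ideal.one_eq_top, map_one] at h1
  have h2 : 1 < q ^ Module.finrank ℚ K := Nat.one_lt_pow Module.finrank_pos.ne' (by omega)
  omega

lemma mul_span_ne_top {𝔣 : Ideal (𝓞 K)} {q : ℕ} (hq : 2 ≤ q) : 𝔣 * Ideal.span {(q : 𝓞 K)} ≠ ⊤ := by
  intro h
  have h1 : 𝔣 * Ideal.span {(q : 𝓞 K)} ≤ Ideal.span {(q : 𝓞 K)} := Ideal.mul_le_right
  rw [h] at h1
  exact natCast_mem_ne_top hq (top_le_iff.mp h1)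

variable [IsTotallyReal K]

/-- a primitive character of conductor `≠ 1` is a character modulo its conductor -/
lemma IsPrimChar.isModChar {𝔣 : Ideal (𝓞 K)} {ψ : Ideal (𝓞 K) →*₀ ℂ} (h : IsPrimChar K 𝔣 ψ)
    (htop : 𝔣 ≠ ⊤) : ∃ e : InfinitePlace K → ℕ, IsModChar 𝔣 e ψ := by
  obtain ⟨e, he, hsig⟩ := Pool.Agent.Y772.SG.t_sig K 𝔣 ψ h.ne_bot h.ray
  refine ⟨e, h.ne_bot, htop, he, fun 𝔞 => ?_, hsig⟩
  by_cases h0 : 𝔞 = ⊥
  · subst h0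
    have h1 : ψ (⊥ : Ideal (𝓞 K)) = 0 := map_zero ψ
    constructor
    · intro h2
      exact absurd h1 h2
    · intro h2
      exfalso
      rw [Ideal.isCoprime_iff_sup_eq, bot_sup_eq] at h2
      exact htop h2
  · exact h.supp 𝔞 h0

lemma norm_eq_one_of_sig {𝔣 : Ideal (𝓞 K)} {ψ : Ideal (𝓞 K) →*₀ ℂ} (hne : 𝔣 ≠ ⊥)
    {e : InfinitePlace K → ℕ} (hsig : ∀ x : 𝓞 K, x ≠ 0 → x - 1 ∈ 𝔣 →
      ψ (Ideal.span {x}) = sg e (x : K)) {𝔞 : Ideal (𝓞 K)} (h0 : 𝔞 ≠ ⊥) (hc : IsCoprime 𝔞 𝔣) :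
    ‖ψ 𝔞‖ = 1 := by
  obtain ⟨k, x, hk, hx0, hx1, hx⟩ := exists_pow hne h0 hc
  have h1 := hsig x hx0 hx1
  rw [← hx, map_pow] at h1
  have h2 := congrArg norm h1
  rw [norm_pow, norm_sg (by exact_mod_cast hx0)] at h2
  exact (pow_eq_one_iff_of_nonneg (norm_nonneg _) hk.ne').mp h2

lemma IsPrimChar.norm_eq_one {𝔣 : Ideal (𝓞 K)} {ψ : Ideal (𝓞 K) →*₀ ℂ} (h : IsPrimChar K 𝔣 ψ)
    {𝔞 : Ideal (𝓞 K)} (h0 : 𝔞 ≠ ⊥) (hc : IsCoprime 𝔞 𝔣) : ‖ψ 𝔞‖ = 1 := by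
  obtain ⟨e, he, hsig⟩ := Pool.Agent.Y772.SG.t_sig K 𝔣 ψ h.ne_bot h.ray
  exact norm_eq_one_of_sig h.ne_bot hsig h0 hc

lemma IsPrimChar.norm_le_one {𝔣 : Ideal (𝓞 K)} {ψ : Ideal (𝓞 K) →*₀ ℂ} (h : IsPrimChar K 𝔣 ψ)
    (𝔞 : Ideal (𝓞 K)) : ‖ψ 𝔞‖ ≤ 1 := by
  by_cases h0 : 𝔞 = ⊥
  · rw [h0]
    have h1 : ψ (⊥ : Ideal (𝓞 K)) = 0 := map_zero ψ
    rw [h1, norm_zero]
    norm_num
  · by_cases hc : IsCoprime 𝔞 𝔣
    · exact (h.norm_eq_one h0 hc).le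
    · have : ψ 𝔞 = 0 := by
        by_contra h1
        exact hc ((h.supp 𝔞 h0).mp h1)
      rw [this, norm_zero]
      norm_num

lemma norm_tw_le {ψ : Ideal (𝓞 K) →*₀ ℂ} (h : ∀ 𝔞, ‖ψ 𝔞‖ ≤ 1) {q : ℕ}
    (χ : DirichletCharacter ℂ q) (𝔞 : Ideal (𝓞 K)) : ‖tw ψ χ 𝔞‖ ≤ 1 := by
  change ‖ψ 𝔞 * χ ((Ideal.absNorm 𝔞 : ℕ) : ZMod q)‖ ≤ 1
  rw [norm_mul]
  exact mul_le_one₀ (h 𝔞) (norm_nonneg _) (DirichletCharacter.norm_le_one χ _)

/-- **The family of twists satisfies the analytic hypotheses** -/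
theorem twE_of {𝔣 : Ideal (𝓞 K)} {ψ : Ideal (𝓞 K) →*₀ ℂ} (h : IsPrimChar K 𝔣 ψ) (M : ℕ)
    (hTw : ∀ (q : ℕ) (χ : DirichletCharacter ℂ q), 2 ≤ q → χ.IsPrimitive → Nat.Coprime q M →
      IsPrimChar K (𝔣 * Ideal.span {(q : 𝓞 K)}) (tw ψ χ))
    (hNz : ∀ (q : ℕ) (χ : DirichletCharacter ℂ q) (F : ℂ → ℂ) (s₀ : ℂ), 2 ≤ q → s₀.re = 1 →
      AnalyticAt ℂ F s₀ → (∀ s : ℂ, 1 < s.re → F s = LI (tw ψ χ) s) → F s₀ ≠ 0) :
    ∃ (A : ℝ) (F : (q : ℕ) → DirichletCharacter ℂ q → ℂ → ℂ), 1 ≤ A ∧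
      W388.TwE (Module.finrank ℚ K : ℝ) A M (cc ψ) F ∧
      ∀ (q : ℕ) (χ : DirichletCharacter ℂ q), 2 ≤ q → Nat.Coprime q M → χ.IsPrimitive →
        Differentiable ℂ (F q χ) ∧ ∀ s : ℂ, 1 < s.re → F q χ s = LI (tw ψ χ) s := by
  classical
  obtain ⟨A₁, hA₁, hdir⟩ := Pool.Agent.Y772.DK.t_dirK K
  have hdirψ := hdir ψ h.norm_le_one
  have h𝔡 : differentIdeal ℤ (𝓞 K) ≠ ⊥ := differentIdeal_ne_bot
  set N : ℝ := ((Ideal.absNorm 𝔣 * Ideal.absNorm (differentIdeal ℤ (𝓞 K)) : ℕ) : ℝ) with hN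
  have hN1 : 1 ≤ N := by
    rw [hN]
    have h4 : Ideal.absNorm 𝔣 * Ideal.absNorm (differentIdeal ℤ (𝓞 K)) ≠ 0 :=
      mul_ne_zero (fun h1 => h.ne_bot (Ideal.absNorm_eq_zero_iff.mp h1))
        (fun h1 => h𝔡 (Ideal.absNorm_eq_zero_iff.mp h1))
    exact_mod_cast Nat.one_le_iff_ne_zero.mpr h4
  obtain ⟨A₂, hA₂, hfe⟩ := Pool.Agent.Y772.FE.t_fed (InfinitePlace K) N hN1 A₁ hA₁
  -- the L-functions
  have hex : ∀ (q : ℕ) (χ : DirichletCharacter ℂ q), ∃ F : ℂ → ℂ,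
      (2 ≤ q → Nat.Coprime q M → χ.IsPrimitive → ∃ e : InfinitePlace K → ℕ,
        FEd (N * (q : ℝ) ^ Fintype.card (InfinitePlace K)) e F ∧
        ∀ s : ℂ, 1 < s.re → F s = LI (tw ψ χ) s) := by
    intro q χ
    by_cases hc : 2 ≤ q ∧ Nat.Coprime q M ∧ χ.IsPrimitive
    · obtain ⟨hq, hqM, hχ⟩ := hc
      have hp := hTw q χ hq hχ hqM
      obtain ⟨e, he⟩ := hp.isModChar (mul_span_ne_top hq)
      obtain ⟨F, hF, hF2⟩ := fe_prim hp he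
      refine ⟨F, fun _ _ _ => ⟨e, ?_, hF2⟩⟩
      have h5 : (((Ideal.absNorm (𝔣 * Ideal.span {(q : 𝓞 K)}) *
          Ideal.absNorm (differentIdeal ℤ (𝓞 K)) : ℕ) : ℝ)) =
          N * (q : ℝ) ^ Fintype.card (InfinitePlace K) := by
        rw [map_mul, absNorm_span_nat, hN, card_place]
        push_cast
        ring
      rw [← h5]
      exact hF
    · exact ⟨0, fun h1 h2 h3 => absurd ⟨h1, h2, h3⟩ hc⟩
  choose F hF using hex
  refine ⟨max A₁ A₂, F, le_max_of_le_left hA₁, ?_, ?_⟩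
  swap
  · intro q χ hq hqM hχ
    obtain ⟨e, h1, h2⟩ := hF q χ hq hqM hχ
    exact ⟨h1.diff, h2⟩
  intro q χ hq hqM hχ
  obtain ⟨e, hfed, hFL⟩ := hF q χ hq hqM hχ
  have hq0 : NeZero q := ⟨by omega⟩
  obtain ⟨-, hd2, hd3, hd4, hd5, hd6, -, -, -, -, hd11⟩ := hdir (tw ψ χ) (norm_tw_le h.norm_le_one χ)
  obtain ⟨-, -, -, -, -, -, -, -, hs9, hs10, hs11⟩ := hdirψ
  have hnz : ∀ s : ℂ, 1 ≤ s.re → F q χ s ≠ 0 := by
    intro s hs
    rcases hs.lt_or_eq with h1 | h1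
    · rw [hFL s h1]
      exact hd3 s h1
    · exact hNz q χ (F q χ) s hq h1.symm (hfed.diff.analyticAt s) hFL
  have hbd : ∀ s : ℂ, 3 / 2 ≤ s.re → ‖F q χ s‖ ≤ A₁ := by
    intro s hs
    rw [hFL s (by linarith)]
    exact hd5 s hs
  have hqR : (1 : ℝ) ≤ (q : ℝ) := by
    have : 1 ≤ q := by omega
    exact_mod_cast this
  obtain ⟨g1, g2, g3, g4⟩ := hfe (q : ℝ) hqR e (F q χ) hfed hbd (fun s h1 _ => hnz s h1)
  have hcard : (Fintype.card (InfinitePlace K) : ℝ) = (Module.finrank ℚ K : ℝ) := by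
    rw [card_place]
  have hnorm : ∀ n : ℕ, ‖χ (n : ZMod q) * cc ψ n * (ArithmeticFunction.vonMangoldt n : ℂ)‖ ≤
      ArithmeticFunction.vonMangoldt n * ‖cc ψ n‖ := by
    intro n
    rw [norm_mul, norm_mul, Complex.norm_real, Real.norm_of_nonneg ArithmeticFunction.vonMangoldt_nonneg]
    have h1 := DirichletCharacter.norm_le_one χ (n : ZMod q)
    have h2 : (0 : ℝ) ≤ ArithmeticFunction.vonMangoldt n := ArithmeticFunction.vonMangoldt_nonneg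
    calc ‖χ (n : ZMod q)‖ * ‖cc ψ n‖ * ArithmeticFunction.vonMangoldt n ≤
        1 * ‖cc ψ n‖ * ArithmeticFunction.vonMangoldt n := by gcongr
      _ = _ := by ring
  have hnorm' : ∀ n : ℕ, ‖χ (n : ZMod q) * cc ψ n * (ArithmeticFunction.vonMangoldt n : ℂ)‖ *
      (n : ℝ) ^ (-(3 / 2) : ℝ) ≤
      ArithmeticFunction.vonMangoldt n * ‖cc ψ n‖ * (n : ℝ) ^ (-(3 / 2) : ℝ) := fun n =>
    mul_le_mul_of_nonneg_right (hnorm n) (by positivity)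
  have hsum : Summable fun n : ℕ => ‖χ (n : ZMod q) * cc ψ n *
      (ArithmeticFunction.vonMangoldt n : ℂ)‖ * (n : ℝ) ^ (-(3 / 2) : ℝ) :=
    Summable.of_nonneg_of_le (fun n => by positivity) hnorm' hs9
  refine
    { an := fun s _ => hfed.diff.analyticAt s
      growth := ?_
      lower := ?_
      nzr := fun s h1 _ => hnz s h1
      nzl := g2
      symm := g3
      ha1 := ?_
      has := hsum
      ha := ?_
      ld := ?_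
      left := ?_ }
  · intro s h1 h2 h3
    refine (g1 s h1 h2 h3).trans ?_
    have h4 : 1 ≤ (q : ℝ) * s.im := by nlinarith
    have h5 : A₂ ≤ max A₁ A₂ := le_max_right _ _
    gcongr
  · intro t ht
    have h1 : (1 : ℝ) < ((⟨2, t⟩ : ℂ)).re := by norm_num
    rw [hFL _ h1]
    refine le_trans ?_ (hd6 (⟨2, t⟩ : ℂ) le_rfl)
    have h5 : A₁ ≤ max A₁ A₂ := le_max_left _ _
    gcongr
  · intro n hn
    interval_cases n
    · simp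
    · simp
  · refine le_trans ?_ (hs10.trans (le_max_left _ _))
    exact hsum.tsum_le_tsum hnorm' hs9
  · intro s hs _
    have h1 : F q χ =ᶠ[𝓝 s] LI (tw ψ χ) := by
      have : {s : ℂ | 1 < s.re} ∈ 𝓝 s :=
        (isOpen_lt continuous_const Complex.continuous_re).mem_nhds hs
      filter_upwards [this] with z hz using hFL z hz
    rw [h1.deriv_eq, hFL s hs, hd4 s hs]
    congr 1
    refine tsum_congr fun n => ?_
    rw [hs11 q χ n]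
  · intro s h1 h2 h3 h4
    have := g4 s h1 h2 h3 h4
    rw [hcard] at this
    exact this.trans (le_max_right _ _)

end

end Pool.Agent.Y773
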