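import Pool.Agent.Y773.HK.Asm

/-! # Continuation near `s = 1` of the L-functions of nontrivial ray class characters -/

set_option autoImplicit false
set_option linter.unusedSectionVars false

open NumberField Complex Filter Topology Set MeasureTheory

namespace Pool.Agent.Y773

section general

variable {K : Type} [Field K] [NumberField K]

open Classical in
/-- remove the Euler factor at `𝔭` -/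
noncomputable def rmv (𝔭 : Ideal (𝓞 K)) (h𝔭 : Prime 𝔭) (η : Ideal (𝓞 K) →*₀ ℂ) :
    Ideal (𝓞 K) →*₀ ℂ where
  toFun 𝔞 := if 𝔭 ∣ 𝔞 then 0 else η 𝔞
  map_zero' := by rw [if_pos (dvd_zero _)]
  map_one' := by
    rw [if_neg, map_one]
    intro h
    exact h𝔭.not_isUnit (isUnit_of_dvd_one h)
  map_mul' 𝔞 𝔟 := by
    by_cases h1 : 𝔭 ∣ 𝔞
    · rw [if_pos (h1.mul_right _), if_pos h1, zero_mul]
    · by_cases h2 : 𝔭 ∣ 𝔟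
      · rw [if_pos (h2.mul_left _), if_pos h2, mul_zero]
      · rw [if_neg h1, if_neg h2, if_neg, map_mul]
        intro h3
        rcases h𝔭.dvd_or_dvd h3 with h4 | h4
        · exact h1 h4
        · exact h2 h4

lemma rmv_of_dvd {𝔭 : Ideal (𝓞 K)} (h𝔭 : Prime 𝔭) (η : Ideal (𝓞 K) →*₀ ℂ) {𝔞 : Ideal (𝓞 K)}
    (h : 𝔭 ∣ 𝔞) : rmv 𝔭 h𝔭 η 𝔞 = 0 := if_pos h

lemma rmv_of_not_dvd {𝔭 : Ideal (𝓞 K)} (h𝔭 : Prime 𝔭) (η : Ideal (𝓞 K) →*₀ ℂ) {𝔞 : Ideal (𝓞 K)}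
    (h : ¬ 𝔭 ∣ 𝔞) : rmv 𝔭 h𝔭 η 𝔞 = η 𝔞 := if_neg h

lemma coprime_prime_iff {𝔭 : Ideal (𝓞 K)} (h𝔭 : Prime 𝔭) (𝔞 : Ideal (𝓞 K)) :
    IsCoprime 𝔞 𝔭 ↔ ¬ 𝔭 ∣ 𝔞 := by
  have hmax : 𝔭.IsMaximal := (Ideal.isPrime_of_prime h𝔭).isMaximal h𝔭.ne_zero
  rw [Ideal.isCoprime_iff_sup_eq, Ideal.dvd_iff_le]
  constructor
  · intro h1 h2
    rw [sup_eq_right.mpr h2] at h1
    exact hmax.ne_top h1
  · intro h1
    rcases (hmax.out.le_iff).mp (le_sup_right : 𝔭 ≤ 𝔞 ⊔ 𝔭) with h2 | h2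
    · exact h2
    · exact absurd (by rw [← h2]; exact le_sup_left) h1

/-- a prime ideal which does not divide a given ideal -/
lemma exists_prime_not_dvd [IsTotallyReal K] {𝔞 : Ideal (𝓞 K)} (h𝔞 : 𝔞 ≠ ⊥) : ∃ 𝔭 : Ideal (𝓞 K), Prime 𝔭 ∧ ¬ 𝔭 ∣ 𝔞 := by
  obtain ⟨p, hp, hpp⟩ := Nat.exists_infinite_primes (Ideal.absNorm 𝔞 + 1)
  have hspan : Ideal.span {(p : 𝓞 K)} ≠ ⊤ := natCast_mem_ne_top hpp.two_le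
  obtain ⟨𝔭, h𝔭max, h𝔭le⟩ := Ideal.exists_le_maximal _ hspan
  have h𝔭0 : 𝔭 ≠ ⊥ := by
    rintro rfl
    have : Ideal.span {(p : 𝓞 K)} = ⊥ := le_bot_iff.mp h𝔭le
    exact span_m_ne_bot hpp.pos this
  have hprime : Prime 𝔭 := Ideal.prime_of_isPrime h𝔭0 h𝔭max.isPrime
  refine ⟨𝔭, hprime, fun hdvd => ?_⟩
  -- `p ∈ 𝔭`, and `absNorm 𝔞 ∈ 𝔞 ⊆ 𝔭`, coprime
  have h1 : ((Ideal.absNorm 𝔞 : ℕ) : 𝓞 K) ∈ 𝔭 := (Ideal.dvd_iff_le.mp hdvd) (Ideal.absNorm_mem 𝔞)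
  have h2 : (p : 𝓞 K) ∈ 𝔭 := h𝔭le (Ideal.mem_span_singleton_self _)
  have hpos : 0 < Ideal.absNorm 𝔞 := Nat.pos_of_ne_zero (fun h => h𝔞 (Ideal.absNorm_eq_zero_iff.mp h))
  have hcop : Nat.Coprime p (Ideal.absNorm 𝔞) := by
    rw [hpp.coprime_iff_not_dvd]
    intro h3
    have := Nat.le_of_dvd hpos h3
    omega
  have h3 : IsCoprime (p : ℤ) (Ideal.absNorm 𝔞 : ℤ) := Nat.isCoprime_iff_coprime.mpr hcop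
  obtain ⟨u, v, huv⟩ := h3
  have h4 : (1 : 𝓞 K) ∈ 𝔭 := by
    have h5 : ((u * p + v * Ideal.absNorm 𝔞 : ℤ) : 𝓞 K) = 1 := by rw [huv]; simp
    rw [← h5]
    push_cast
    exact 𝔭.add_mem (Ideal.mul_mem_left _ _ h2) (Ideal.mul_mem_left _ _ h1)
  exact h𝔭max.ne_top ((Ideal.eq_top_iff_one _).mpr h4)

end general

section real

variable {K : Type} [Field K] [NumberField K] [IsTotallyReal K]

lemma LI_rmv {𝔭 : Ideal (𝓞 K)} (h𝔭 : Prime 𝔭) {η : Ideal (𝓞 K) →*₀ ℂ} (hη : ∀ 𝔞, ‖η 𝔞‖ ≤ 1)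
    {s : ℂ} (hs : 1 < s.re) :
    LI η s * (1 - η 𝔭 * ((Ideal.absNorm 𝔭 : ℕ) : ℂ) ^ (-s)) = LI (rmv 𝔭 h𝔭 η) s := by
  classical
  have hη' : ∀ 𝔞, ‖rmv 𝔭 h𝔭 η 𝔞‖ ≤ 1 := by
    intro 𝔞
    by_cases h : 𝔭 ∣ 𝔞
    · rw [rmv_of_dvd h𝔭 η h, norm_zero]; norm_num
    · rw [rmv_of_not_dvd h𝔭 η h]; exact hη 𝔞
  have h1 := summable_LI hη hs
  have h2 := summable_LI hη' hs
  have h3 : LI η s - LI (rmv 𝔭 h𝔭 η) s = (η 𝔭 * ((Ideal.absNorm 𝔭 : ℕ) : ℂ) ^ (-s)) * LI η s := by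
    unfold LI
    rw [← h1.tsum_sub h2, ← tsum_mul_left]
    have hinj : Function.Injective (fun 𝔟 : Ideal (𝓞 K) => 𝔭 * 𝔟) :=
      fun a b h => mul_left_cancel₀ h𝔭.ne_zero h
    rw [← hinj.tsum_eq]
    · refine tsum_congr fun 𝔟 => ?_
      rw [rmv_of_dvd h𝔭 η (dvd_mul_right _ _), zero_mul, sub_zero, map_mul, map_mul, Nat.cast_mul,
        Complex.natCast_mul_natCast_cpow]
      ring
    · intro 𝔞 h𝔞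
      rw [Function.mem_support] at h𝔞
      by_contra hcon
      apply h𝔞
      have hnd : ¬ 𝔭 ∣ 𝔞 := by
        rintro ⟨𝔟, rfl⟩
        exact hcon ⟨𝔟, rfl⟩
      rw [rmv_of_not_dvd h𝔭 η hnd, sub_self]
  linear_combination h3

/-- **Continuation to a neighbourhood of `1`** -/
theorem LI_cont {𝔪 : Ideal (𝓞 K)} {η : Ideal (𝓞 K) →*₀ ℂ} (hne : 𝔪 ≠ ⊥)
    (hsupp : ∀ 𝔞 : Ideal (𝓞 K), 𝔞 ≠ ⊥ → (η 𝔞 ≠ 0 ↔ IsCoprime 𝔞 𝔪))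
    (hray : ∀ x : 𝓞 K, x - 1 ∈ 𝔪 → TPos K x → η (Ideal.span {x}) = 1)
    (hn : ∃ 𝔞 : Ideal (𝓞 K), 𝔞 ≠ ⊥ ∧ IsCoprime 𝔞 𝔪 ∧ η 𝔞 ≠ 1) :
    ∃ g : ℂ → ℂ, AnalyticAt ℂ g 1 ∧ ∀ s : ℂ, 1 < s.re → LI η s = g s := by
  classical
  obtain ⟨𝔞, h𝔞0, h𝔞c, h𝔞1⟩ := hn
  obtain ⟨𝔭, h𝔭, h𝔭𝔞⟩ := exists_prime_not_dvd h𝔞0
  have h𝔭0 : 𝔭 ≠ ⊥ := h𝔭.ne_zero
  have h𝔭top : 𝔭 ≠ ⊤ := (Ideal.isPrime_of_prime h𝔭).ne_top
  have hbot : η (⊥ : Ideal (𝓞 K)) = 0 := map_zero η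
  -- norms
  obtain ⟨e₀, he₀, hsig₀⟩ := Pool.Agent.Y772.SG.t_sig K 𝔪 η hne hray
  have hη : ∀ 𝔞, ‖η 𝔞‖ ≤ 1 := by
    intro 𝔟
    by_cases h0 : 𝔟 = ⊥
    · rw [h0, hbot, norm_zero]; norm_num
    · by_cases hc : IsCoprime 𝔟 𝔪
      · exact (norm_eq_one_of_sig hne hsig₀ h0 hc).le
      · have : η 𝔟 = 0 := by
          by_contra h1
          exact hc ((hsupp 𝔟 h0).mp h1)
        rw [this, norm_zero]; norm_num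
  set η' := rmv 𝔭 h𝔭 η with hη'
  have hne' : 𝔪 * 𝔭 ≠ ⊥ := mul_ne_zero hne h𝔭0
  have htop' : 𝔪 * 𝔭 ≠ ⊤ := by
    intro h
    have h1 : 𝔪 * 𝔭 ≤ 𝔭 := Ideal.mul_le_right
    rw [h] at h1
    exact h𝔭top (top_le_iff.mp h1)
  have hray' : ∀ x : 𝓞 K, x - 1 ∈ 𝔪 * 𝔭 → TPos K x → η' (Ideal.span {x}) = 1 := by
    intro x hx hpos
    have h1 : ¬ 𝔭 ∣ Ideal.span {x} := by
      intro h2
      rw [Ideal.dvd_span_singleton] at h2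
      have h3 : x - 1 ∈ 𝔭 := (Ideal.mul_le_right : 𝔪 * 𝔭 ≤ 𝔭) hx
      have h4 : (1 : 𝓞 K) ∈ 𝔭 := by
        have : (1 : 𝓞 K) = x - (x - 1) := by ring
        rw [this]
        exact 𝔭.sub_mem h2 h3
      exact h𝔭top ((Ideal.eq_top_iff_one _).mpr h4)
    rw [hη', rmv_of_not_dvd h𝔭 η h1]
    exact hray x (Ideal.mul_le_left (I := 𝔪) (J := 𝔭) hx) hpos
  obtain ⟨e, he, hsig⟩ := Pool.Agent.Y772.SG.t_sig K (𝔪 * 𝔭) η' hne' hray'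
  have hmod : IsModChar (𝔪 * 𝔭) e η' := by
    refine ⟨hne', htop', he, fun 𝔟 => ?_, hsig⟩
    by_cases h0 : 𝔟 = ⊥
    · subst h0
      constructor
      · intro h2
        exact absurd (map_zero η') h2
      · intro h2
        exfalso
        rw [Ideal.isCoprime_iff_sup_eq, bot_sup_eq] at h2
        exact htop' h2
    · rw [IsCoprime.mul_right_iff, coprime_prime_iff h𝔭]
      constructor
      · intro h1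
        have h2 : ¬ 𝔭 ∣ 𝔟 := by
          intro h3
          exact h1 (rmv_of_dvd h𝔭 η h3)
        rw [hη', rmv_of_not_dvd h𝔭 η h2] at h1
        exact ⟨(hsupp 𝔟 h0).mp h1, h2⟩
      · rintro ⟨h1, h2⟩
        rw [hη', rmv_of_not_dvd h𝔭 η h2]
        exact (hsupp 𝔟 h0).mpr h1
  have hn' : ∃ 𝔟, IsCoprime 𝔟 (𝔪 * 𝔭) ∧ η' 𝔟 ≠ 1 := by
    refine ⟨𝔞, ?_, ?_⟩
    · rw [IsCoprime.mul_right_iff, coprime_prime_iff h𝔭]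
      exact ⟨h𝔞c, h𝔭𝔞⟩
    · rw [hη', rmv_of_not_dvd h𝔭 η h𝔭𝔞]
      exact h𝔞1
  obtain ⟨F, hF, hFL⟩ := LI_entire hmod hn'
  have hNp : 2 ≤ Ideal.absNorm 𝔭 := by
    have h1 : Ideal.absNorm 𝔭 ≠ 0 := fun h => h𝔭0 (Ideal.absNorm_eq_zero_iff.mp h)
    have h2 : Ideal.absNorm 𝔭 ≠ 1 := fun h => h𝔭top (Ideal.absNorm_eq_one_iff.mp h)
    omega
  have hden : ∀ s : ℂ, 0 < s.re → 1 - η 𝔭 * ((Ideal.absNorm 𝔭 : ℕ) : ℂ) ^ (-s) ≠ 0 := by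
    intro s hs h1
    have h2 : ‖η 𝔭 * ((Ideal.absNorm 𝔭 : ℕ) : ℂ) ^ (-s)‖ < 1 := by
      rw [norm_mul, Complex.norm_natCast_cpow_of_pos (by omega)]
      have h3 : ((Ideal.absNorm 𝔭 : ℕ) : ℝ) ^ (-s).re < 1 := by
        refine Real.rpow_lt_one_of_one_lt_of_neg (by exact_mod_cast (by omega : 1 < Ideal.absNorm 𝔭)) ?_
        simpa using hs
      calc _ ≤ 1 * ((Ideal.absNorm 𝔭 : ℕ) : ℝ) ^ (-s).re :=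
            mul_le_mul_of_nonneg_right (hη 𝔭) (by positivity)
        _ < 1 := by rw [one_mul]; exact h3
    have h4 : η 𝔭 * ((Ideal.absNorm 𝔭 : ℕ) : ℂ) ^ (-s) = 1 := (sub_eq_zero.mp h1).symm
    rw [h4, norm_one] at h2
    exact lt_irrefl _ h2
  refine ⟨fun s => F s / (1 - η 𝔭 * ((Ideal.absNorm 𝔭 : ℕ) : ℂ) ^ (-s)), ?_, ?_⟩
  · refine (hF.analyticAt 1).div ?_ (hden 1 (by norm_num))
    have h1 : Differentiable ℂ fun s : ℂ => 1 - η 𝔭 * ((Ideal.absNorm 𝔭 : ℕ) : ℂ) ^ (-s) := by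
      have h2 : ((Ideal.absNorm 𝔭 : ℕ) : ℂ) ≠ 0 := by
        exact_mod_cast (by omega : Ideal.absNorm 𝔭 ≠ 0)
      intro s
      exact (differentiableAt_const _).sub ((differentiableAt_const _).mul
        ((differentiableAt_id.neg).const_cpow (Or.inl h2)))
    exact h1.analyticAt 1
  · intro s hs
    simp only
    rw [eq_div_iff (hden s (by linarith)), LI_rmv h𝔭 hη hs, hFL s hs]

/-- the product `ψ conj(ψ^σ)` -/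
theorem rs_cont {𝔣 : Ideal (𝓞 K)} {ψ : Ideal (𝓞 K) →*₀ ℂ} (h : IsPrimChar K 𝔣 ψ) (σ : K ≃+* K)
    (hσ : ∃ 𝔞 : Ideal (𝓞 K), ψ 𝔞 ≠ 0 ∧ gal σ ψ 𝔞 ≠ 0 ∧ gal σ ψ 𝔞 ≠ ψ 𝔞) :
    ∃ g : ℂ → ℂ, AnalyticAt ℂ g 1 ∧ ∀ s : ℂ, 1 < s.re → LI (rs σ ψ) s = g s := by
  classical
  set φ : 𝓞 K ≃+* 𝓞 K := RingOfIntegers.mapRingEquiv σ with hφ
  have hgal : ∀ 𝔞, gal σ ψ 𝔞 = ψ (𝔞.map (φ : 𝓞 K →+* 𝓞 K)) := fun 𝔞 => rfl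
  set 𝔣' : Ideal (𝓞 K) := 𝔣.map (φ.symm : 𝓞 K →+* 𝓞 K) with h𝔣'
  have hmm : ∀ 𝔞 : Ideal (𝓞 K), (𝔞.map (φ.symm : 𝓞 K →+* 𝓞 K)).map (φ : 𝓞 K →+* 𝓞 K) = 𝔞 := by
    intro 𝔞
    rw [Ideal.map_map]
    have : (φ : 𝓞 K →+* 𝓞 K).comp (φ.symm : 𝓞 K →+* 𝓞 K) = RingHom.id _ := by
      ext x; simp
    rw [this, Ideal.map_id]
  have hmm' : ∀ 𝔞 : Ideal (𝓞 K), (𝔞.map (φ : 𝓞 K →+* 𝓞 K)).map (φ.symm : 𝓞 K →+* 𝓞 K) = 𝔞 := by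
    intro 𝔞
    rw [Ideal.map_map]
    have : (φ.symm : 𝓞 K →+* 𝓞 K).comp (φ : 𝓞 K →+* 𝓞 K) = RingHom.id _ := by
      ext x; simp
    rw [this, Ideal.map_id]
  have hcop : ∀ 𝔞 : Ideal (𝓞 K), IsCoprime (𝔞.map (φ : 𝓞 K →+* 𝓞 K)) 𝔣 ↔ IsCoprime 𝔞 𝔣' := by
    intro 𝔞
    rw [Ideal.isCoprime_iff_sup_eq, Ideal.isCoprime_iff_sup_eq]
    constructor
    · intro h1
      have h2 := congrArg (Ideal.map (φ.symm : 𝓞 K →+* 𝓞 K)) h1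
      rw [Ideal.map_sup, hmm', Ideal.map_top] at h2
      exact h2
    · intro h1
      have h2 := congrArg (Ideal.map (φ : 𝓞 K →+* 𝓞 K)) h1
      rw [Ideal.map_sup, hmm, Ideal.map_top] at h2
      exact h2
  have hne' : 𝔣' ≠ ⊥ := by
    intro h1
    have h2 := hmm 𝔣
    rw [← h𝔣', h1, Ideal.map_bot] at h2
    exact h.ne_bot h2.symm
  have hmapne : ∀ 𝔞 : Ideal (𝓞 K), 𝔞 ≠ ⊥ → 𝔞.map (φ : 𝓞 K →+* 𝓞 K) ≠ ⊥ := by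
    intro 𝔞 h0 h1
    have h2 := hmm' 𝔞
    rw [h1, Ideal.map_bot] at h2
    exact h0 h2.symm
  refine LI_cont (𝔪 := 𝔣 * 𝔣') (mul_ne_zero h.ne_bot hne') ?_ ?_ ?_
  · intro 𝔞 h0
    have h1 : rs σ ψ 𝔞 = ψ 𝔞 * (starRingEnd ℂ) (gal σ ψ 𝔞) := rfl
    rw [h1, IsCoprime.mul_right_iff, mul_ne_zero_iff, h.supp 𝔞 h0, ← hcop,
      ← h.supp _ (hmapne 𝔞 h0), hgal]
    simp
  · intro x hx hpos
    have h1 : rs σ ψ (Ideal.span {x}) = ψ (Ideal.span {x}) *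
      (starRingEnd ℂ) (gal σ ψ (Ideal.span {x})) := rfl
    have h2 : ψ (Ideal.span {x}) = 1 := h.ray x (Ideal.mul_le_left (I := 𝔣) (J := 𝔣') hx) hpos
    have h3 : gal σ ψ (Ideal.span {x}) = 1 := by
      rw [hgal, Ideal.map_span, Set.image_singleton]
      refine h.ray _ ?_ ?_
      · have h4 : x - 1 ∈ 𝔣' := (Ideal.mul_le_right : 𝔣 * 𝔣' ≤ 𝔣') hx
        have h5 := Ideal.mem_map_of_mem (φ : 𝓞 K →+* 𝓞 K) h4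
        rw [h𝔣', hmm, map_sub, map_one] at h5
        exact h5
      · intro τ
        have h6 := hpos (τ.comp (σ : K →+* K))
        exact h6
    rw [h1, h2, h3]
    simp
  · obtain ⟨𝔞, h1, h2, h3⟩ := hσ
    have h0 : 𝔞 ≠ ⊥ := by
      rintro rfl
      exact h1 (map_zero ψ)
    have hc1 : IsCoprime 𝔞 𝔣 := (h.supp 𝔞 h0).mp h1
    have hc2 : IsCoprime (𝔞.map (φ : 𝓞 K →+* 𝓞 K)) 𝔣 := (h.supp _ (hmapne 𝔞 h0)).mp h2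
    refine ⟨𝔞, h0, IsCoprime.mul_right_iff.mpr ⟨hc1, (hcop 𝔞).mp hc2⟩, fun h4 => h3 ?_⟩
    have h5 : ψ 𝔞 * (starRingEnd ℂ) (gal σ ψ 𝔞) = 1 := h4
    have h6 : ‖gal σ ψ 𝔞‖ = 1 := by
      rw [hgal]
      exact h.norm_eq_one (hmapne 𝔞 h0) hc2
    have h7 : (starRingEnd ℂ) (gal σ ψ 𝔞) * gal σ ψ 𝔞 = 1 := by
      rw [mul_comm, Complex.mul_conj, Complex.normSq_eq_norm_sq, h6]
      simp
    calc gal σ ψ 𝔞 = (ψ 𝔞 * (starRingEnd ℂ) (gal σ ψ 𝔞)) * gal σ ψ 𝔞 := by rw [h5, one_mul]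
      _ = ψ 𝔞 * ((starRingEnd ℂ) (gal σ ψ 𝔞) * gal σ ψ 𝔞) := by ring
      _ = ψ 𝔞 := by rw [h7, mul_one]

end real

end Pool.Agent.Y773
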