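import Pool.Agent.Y773.HK.Unf1

/-! # Continuity and decay of the theta series -/

set_option autoImplicit false
set_option linter.unusedSectionVars false

open NumberField Complex Filter Topology MeasureTheory Set
open NumberField.Units NumberField.Units.dirichletUnitTheorem

namespace Pool.Agent.Y773

variable {K : Type} [Field K] [NumberField K] [IsTotallyReal K]

lemma gd_exp {ι : Type} [Fintype ι] {c : ℝ} (hc : 0 < c) :
    GD (fun u : ι → ℝ => ((Real.exp (-c * ∑ w, u w ^ 2) : ℝ) : ℂ)) := by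
  refine ⟨1, c, hc, fun z => ?_⟩
  rw [Complex.norm_real, Real.norm_eq_abs, abs_of_pos (Real.exp_pos _), one_mul]
  apply Real.exp_le_exp.mpr
  have := norm_sq_le_sum z
  nlinarith

lemma summable_gauss {c : ℝ} (hc : 0 < c) :
    Summable fun x : 𝓞 K => Real.exp (-c * ∑ w, (rl w (x : K)) ^ 2) := by
  have h := ((gd_exp hc).comp_linear (emb K) emb_injective).summable_lp
  have h2 : Summable fun k : Idx K → ℤ => Real.exp (-c * ∑ w, (emb K (lp k) w) ^ 2) := by
    exact_mod_cast h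
  rw [← (coE K).symm.summable_iff]
  refine h2.congr fun k => ?_
  simp only [Function.comp_apply]
  have h1 := rl_eq_emb ((coE K).symm k)
  rw [← coE_apply, Equiv.apply_symm_apply] at h1
  congr 2
  refine Finset.sum_congr rfl fun w _ => ?_
  rw [← congrFun h1 w]

lemma one_le_sumsq {x : 𝓞 K} (hx : x ≠ 0) : 1 ≤ ∑ w, (rl w (x : K)) ^ 2 := by
  have hN : 1 ≤ |Algebra.norm ℤ x| := by
    have : Algebra.norm ℤ x ≠ 0 := Algebra.norm_ne_zero_iff.mpr hx
    exact Int.one_le_abs this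
  have h1 : ((Algebra.norm ℤ x : ℤ) : ℝ) = ∏ w : InfinitePlace K, rl w (x : K) := by
    rw [← norm_eq_prod]
    have := Algebra.coe_norm_int x
    rw [← this]
    norm_cast
  have h2 : (1 : ℝ) ≤ ∏ w : InfinitePlace K, |rl w (x : K)| := by
    rw [← Finset.abs_prod, ← h1]
    exact_mod_cast hN
  obtain ⟨w, hw⟩ : ∃ w : InfinitePlace K, 1 ≤ |rl w (x : K)| := by
    classical
    by_contra hcon
    push Not at hcon
    have : ∏ w : InfinitePlace K, |rl w (x : K)| < 1 := by
      obtain ⟨w₁⟩ : Nonempty (InfinitePlace K) := inferInstance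
      rw [← Finset.mul_prod_erase _ _ (Finset.mem_univ w₁)]
      have h3 : ∏ w ∈ Finset.univ.erase w₁, |rl w (x : K)| ≤ 1 :=
        Finset.prod_le_one (fun _ _ => abs_nonneg _) (fun w _ => (hcon w).le)
      calc _ ≤ |rl w₁ (x : K)| * 1 := mul_le_mul_of_nonneg_left h3 (abs_nonneg _)
        _ < 1 := by rw [mul_one]; exact hcon w₁
    linarith
  calc (1 : ℝ) ≤ |rl w (x : K)| ^ 2 := by nlinarith
    _ = (rl w (x : K)) ^ 2 := sq_abs _
    _ ≤ _ := Finset.single_le_sum (f := fun w => (rl w (x : K)) ^ 2)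
      (fun _ _ => sq_nonneg _) (Finset.mem_univ w)

lemma abs_term_le {e : InfinitePlace K → ℕ} (he : ∀ w, e w ≤ 1) {y : InfinitePlace K → ℝ} {c : ℝ}
    (hc : ∀ w, c ≤ y w) (x : K) :
    |G0 e (fun w => Real.exp (y w / 2) * rl w x)| ≤
      Real.exp (-(2 * Real.exp c) * ∑ w, (rl w x) ^ 2) := by
  refine (abs_G0_le he _).trans (Real.exp_le_exp.mpr ?_)
  have h1 : Real.exp c * ∑ w, (rl w x) ^ 2 ≤ ∑ w, (Real.exp (y w / 2) * rl w x) ^ 2 := by
    rw [Finset.mul_sum]
    refine Finset.sum_le_sum fun w _ => ?_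
    rw [mul_pow, ← Real.exp_nat_mul]
    have h2 : ((2 : ℕ) : ℝ) * (y w / 2) = y w := by push_cast; ring
    rw [h2]
    exact mul_le_mul_of_nonneg_right (Real.exp_le_exp.mpr (hc w)) (sq_nonneg _)
  nlinarith

lemma continuous_th {e : InfinitePlace K → ℕ} (he : ∀ w, e w ≤ 1) {Ψ : 𝓞 K → ℂ} {B : ℝ}
    (hΨ : ∀ x, ‖Ψ x‖ ≤ B) : Continuous (th e Ψ) := by
  rw [continuous_iff_continuousAt]
  intro y0
  have hB : 0 ≤ B := (norm_nonneg _).trans (hΨ 0)
  set R : ℝ := ‖y0‖ + 1 with hR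
  have h1 : ContinuousOn (th e Ψ) (Metric.ball 0 R) := by
    unfold th
    refine continuousOn_tsum (u := fun x : 𝓞 K => B * Real.exp (-(2 * Real.exp (-R)) *
      ∑ w, (rl w (x : K)) ^ 2)) (fun x => ?_)
      ((summable_gauss (by have := Real.exp_pos (-R); positivity)).mul_left B) ?_
    · refine (Continuous.continuousOn ?_)
      refine continuous_const.mul (Complex.continuous_ofReal.comp ((continuous_G0 e).comp ?_))
      fun_prop
    · intro x y hy
      rw [norm_mul, Complex.norm_real, Real.norm_eq_abs]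
      refine mul_le_mul (hΨ x) (abs_term_le he (fun w => ?_) _) (abs_nonneg _) hB
      have h2 : ‖y‖ < R := by simpa using hy
      have h3 : |y w| ≤ ‖y‖ := norm_le_pi_norm y w
      have h4 := neg_abs_le (y w)
      linarith
  exact h1.continuousAt (Metric.isOpen_ball.mem_nhds (by simp [hR]))

variable (K) in
/-- the constant in the decay estimate -/
noncomputable def C0 : ℝ := ∑' x : 𝓞 K, Real.exp (-1 * ∑ w, (rl w (x : K)) ^ 2)

lemma C0_nonneg : 0 ≤ C0 K := tsum_nonneg fun _ => (Real.exp_pos _).le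

lemma norm_th_le {e : InfinitePlace K → ℕ} (he : ∀ w, e w ≤ 1) {Ψ : 𝓞 K → ℂ} {B : ℝ}
    (hΨ : ∀ x, ‖Ψ x‖ ≤ B) (h0 : Ψ 0 = 0) {y : InfinitePlace K → ℝ} {c : ℝ} (hc0 : 0 ≤ c)
    (hc : ∀ w, c ≤ y w) : ‖th e Ψ y‖ ≤ B * C0 K * Real.exp (-Real.exp c) := by
  have hB : 0 ≤ B := (norm_nonneg _).trans (hΨ 0)
  have h1 : ∀ x : 𝓞 K, ‖Ψ x * ((G0 e (fun w => Real.exp (y w / 2) * rl w (x : K)) : ℝ) : ℂ)‖ ≤
      B * Real.exp (-Real.exp c) * Real.exp (-1 * ∑ w, (rl w (x : K)) ^ 2) := by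
    intro x
    rcases eq_or_ne x 0 with rfl | hx
    · rw [h0, zero_mul, norm_zero]
      positivity
    · rw [norm_mul, Complex.norm_real, Real.norm_eq_abs, mul_assoc]
      refine mul_le_mul (hΨ x) ((abs_term_le he hc _).trans ?_) (abs_nonneg _) hB
      rw [← Real.exp_add]
      apply Real.exp_le_exp.mpr
      have h2 := one_le_sumsq hx
      have h3 := Real.one_le_exp hc0
      nlinarith [mul_le_mul h3 h2 (by norm_num) (by positivity)]
  have hs : Summable fun x : 𝓞 K => B * Real.exp (-Real.exp c) *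
      Real.exp (-1 * ∑ w, (rl w (x : K)) ^ 2) := (summable_gauss one_pos).mul_left _
  unfold th
  refine (norm_tsum_le_tsum_norm (Summable.of_nonneg_of_le (fun _ => norm_nonneg _) h1 hs)).trans ?_
  refine (Summable.tsum_le_tsum h1 (Summable.of_nonneg_of_le (fun _ => norm_nonneg _) h1 hs) hs).trans ?_
  rw [tsum_mul_left]
  unfold C0
  apply le_of_eq
  ring

/-- a bound for the coordinates -/
lemma exists_el_bound (K : Type) [Field K] [NumberField K] [IsTotallyReal K] :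
    ∃ b : ℝ, 0 ≤ b ∧ ∀ p : ℝ × (Fin (rank K) → ℝ), (∀ i, |p.2 i| ≤ 1) → ∀ w, p.1 - b ≤ el K p w := by
  classical
  set b : ℝ := ∑ w : InfinitePlace K, ∑ i,
    |2 * Real.log (w ((fundSystem K i : (𝓞 K)ˣ) : K))| with hb
  refine ⟨b, Finset.sum_nonneg fun w _ => Finset.sum_nonneg fun i _ => abs_nonneg _, ?_⟩
  intro p hp w
  simp only [el, LinearMap.coe_mk, AddHom.coe_mk]
  have h1 : -b ≤ ∑ i, p.2 i * (2 * Real.log (w ((fundSystem K i : (𝓞 K)ˣ) : K))) := by
    have h2 : -(∑ i, |2 * Real.log (w ((fundSystem K i : (𝓞 K)ˣ) : K))|) ≤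
        ∑ i, p.2 i * (2 * Real.log (w ((fundSystem K i : (𝓞 K)ˣ) : K))) := by
      rw [← Finset.sum_neg_distrib]
      refine Finset.sum_le_sum fun i _ => ?_
      have h3 := neg_abs_le (p.2 i * (2 * Real.log (w ((fundSystem K i : (𝓞 K)ˣ) : K))))
      rw [abs_mul] at h3
      have h4 := mul_le_mul_of_nonneg_right (hp i)
        (abs_nonneg (2 * Real.log (w ((fundSystem K i : (𝓞 K)ˣ) : K))))
      linarith
    have h5 : ∑ i, |2 * Real.log (w ((fundSystem K i : (𝓞 K)ˣ) : K))| ≤ b :=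
      Finset.single_le_sum (f := fun w : InfinitePlace K => ∑ i,
        |2 * Real.log (w ((fundSystem K i : (𝓞 K)ˣ) : K))|)
        (fun w _ => Finset.sum_nonneg fun i _ => abs_nonneg _) (Finset.mem_univ w)
    linarith
  linarith

end Pool.Agent.Y773
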