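import Pool.Agent.Y773.HK.Cls

/-! # The functional equation, general form -/

set_option autoImplicit false
set_option linter.unusedSectionVars false

open NumberField Complex Filter Topology MeasureTheory Set
open NumberField.Units NumberField.Units.dirichletUnitTheorem

namespace Pool.Agent.Y773

variable {K : Type} [Field K] [NumberField K] [IsTotallyReal K]

open Classical in
/-- remove the value at zero -/
noncomputable def rz (Φ : 𝓞 K → ℂ) (x : 𝓞 K) : ℂ := if x = 0 then 0 else Φ x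

lemma rz_nice {e : InfinitePlace K → ℕ} (he : ∀ w, e w ≤ 1) {Φ : 𝓞 K → ℂ} {B : ℝ}
    (hB : ∀ x, ‖Φ x‖ ≤ B) (hE : Eqv e Φ) : Nice e (rz Φ) where
  he := he
  bdd := ⟨B, fun x => by
    unfold rz
    split_ifs
    · rw [norm_zero]
      exact (norm_nonneg _).trans (hB 0)
    · exact hB x⟩
  zero := by simp [rz]
  unit u x := by
    unfold rz
    by_cases hx : x = 0
    · simp [hx]
    · have : (u : 𝓞 K) * x ≠ 0 := mul_ne_zero u.ne_zero hx
      rw [if_neg hx, if_neg this, hE]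

lemma th_rz {e : InfinitePlace K → ℕ} (he : ∀ w, e w ≤ 1) {Φ : 𝓞 K → ℂ} {B : ℝ}
    (hB : ∀ x, ‖Φ x‖ ≤ B) (y : InfinitePlace K → ℝ) :
    th e Φ y = Φ 0 * ((G0 e (fun _ => 0) : ℝ) : ℂ) + th e (rz Φ) y := by
  classical
  have ha : ∀ w, 0 < Real.exp (y w / 2) := fun w => Real.exp_pos _
  have hs := summable_th he hB ha
  unfold th
  rw [hs.tsum_eq_add_tsum_ite 0]
  congr 1
  · simp
  · refine tsum_congr fun x => ?_
    unfold rz
    by_cases hx : x = 0
    · simp [hx]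
    · simp [hx]

lemma hf_rz {e : InfinitePlace K → ℕ} (he : ∀ w, e w ≤ 1) {Φ : 𝓞 K → ℂ} {B : ℝ}
    (hB : ∀ x, ‖Φ x‖ ≤ B) (hB' : ∀ x, ‖rz Φ x‖ ≤ B) (t : ℝ) :
    hf e Φ t = Φ 0 * ((G0 e (fun _ => 0) : ℝ) : ℂ) + hf e (rz Φ) t := by
  rw [hf_eq, hf_eq]
  simp_rw [th_rz he hB]
  have hc : Continuous fun θ : Fin (rank K) → ℝ =>
      th e (rz Φ) (el K ((2 / Module.finrank ℚ K) * Real.log t, θ)) := by
    have h1 : Continuous (el K) := (el K).continuous_of_finiteDimensional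
    exact (continuous_th he hB').comp (h1.comp (by fun_prop))
  rw [integral_add continuous_const.integrableOn_Icc hc.integrableOn_Icc]
  congr 1
  rw [setIntegral_const, Measure.real, volume_cube]
  simp

/-- the dual function -/
noncomputable def Gtot (η : Ideal (𝓞 K) →*₀ ℂ) (e : InfinitePlace K → ℕ)
    (𝔟 : ClassGroup (𝓞 K) → Ideal (𝓞 K)) (m D : ℕ) (t : ℝ) : ℂ :=
  ∑ c, (Ideal.absNorm (𝔟 c) : ℂ) * hf e (rz (FT D m (Ps η e (𝔟 c))))
    (t * Ideal.absNorm (𝔟 c) / ((m * D : ℕ) : ℝ) ^ (Module.finrank ℚ K))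

lemma locInt_hf {e : InfinitePlace K → ℕ} {Ψ : 𝓞 K → ℂ} (h : Nice e Ψ) {a : ℝ} (ha : 0 < a) :
    ContinuousOn (fun t => hf e Ψ (a * t)) (Ioi 0) := by
  obtain ⟨B, hB⟩ := h.bdd
  refine (continuousOn_hf h.he hB).comp (by fun_prop) ?_
  intro t ht
  exact mul_pos ha ht

lemma hf_decay' {e : InfinitePlace K → ℕ} {Ψ : 𝓞 K → ℂ} (h : Nice e Ψ) {a : ℝ} (ha : 0 < a)
    (r : ℝ) : (fun t => hf e Ψ (a * t)) =O[atTop] (fun t => t ^ r) := by
  have h1 := (hf_decay h r).comp_tendsto (tendsto_id.const_mul_atTop ha)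
  refine h1.trans ?_
  refine Asymptotics.IsBigO.of_bound (a ^ r) ?_
  filter_upwards [eventually_gt_atTop 0] with t ht
  simp only [Function.comp_apply, id]
  rw [Real.mul_rpow ha.le ht.le, norm_mul, Real.norm_of_nonneg (Real.rpow_nonneg ha.le r)]

/-- **The functional equation, general form** -/
theorem fam_fe (K : Type) [Field K] [NumberField K] [IsTotallyReal K] : ∃ V : ℝ, 0 < V ∧
    ∀ (𝔟 : ClassGroup (𝓞 K) → Ideal (𝓞 K)), Reps 𝔟 → ∀ (e : InfinitePlace K → ℕ)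
      (η : Ideal (𝓞 K) →*₀ ℂ), (∀ c, Nice e (Ps η e (𝔟 c))) → ∀ m D : ℕ, 0 < m → 0 < D →
      (D : 𝓞 K) ∈ differentIdeal ℤ (𝓞 K) →
      (∀ c (x z : 𝓞 K), Ps η e (𝔟 c) (x + m * z) = Ps η e (𝔟 c) x) →
      ((G0 e (fun _ => 0) : ℝ) : ℂ) *
        (∑ c, (Ideal.absNorm (𝔟 c) : ℂ) * FT D m (Ps η e (𝔟 c)) 0) = 0 →
      (∀ s, MellinConvergent (Ftot η e 𝔟) s) ∧ Differentiable ℂ (mellin (Ftot η e 𝔟)) ∧
      ∀ s, mellin (Ftot η e 𝔟) (1 - s) =
        (((V⁻¹ : ℝ) : ℂ) * ((m : ℂ) ^ (Module.finrank ℚ K))⁻¹ * (-I) ^ (∑ w, e w)) *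
          mellin (Gtot η e 𝔟 m D) s := by
  classical
  obtain ⟨V, hV0, hV⟩ := hf_fe K
  refine ⟨V, hV0, fun 𝔟 h𝔟 e η hN m D hm hD hDD hper hzero => ?_⟩
  have he : ∀ w, e w ≤ 1 := (hN (Classical.arbitrary _)).he
  have hNpos : ∀ c, (0 : ℝ) < (Ideal.absNorm (𝔟 c) : ℝ) := by
    intro c
    have : Ideal.absNorm (𝔟 c) ≠ 0 := by
      rw [Ne, Ideal.absNorm_eq_zero_iff]
      exact h𝔟.ne_bot c
    exact_mod_cast Nat.pos_of_ne_zero this
  have hmD : (0 : ℝ) < ((m * D : ℕ) : ℝ) := by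
    have : 0 < m * D := Nat.mul_pos hm hD
    exact_mod_cast this
  choose B hB using fun c => (hN c).bdd
  have hBn : ∀ c, 0 ≤ B c := fun c => (norm_nonneg _).trans (hB c 0)
  have hE : ∀ c, Eqv e (Ps η e (𝔟 c)) := fun c => (hN c).unit
  have hE' : ∀ c, Eqv e (FT D m (Ps η e (𝔟 c))) := fun c => FT_eqv (hE c) hm hD (hper c)
  have hBF := fun c => norm_FT_le (D := D) hm (hBn c) (hB c)
  have hN' : ∀ c, Nice e (rz (FT D m (Ps η e (𝔟 c)))) := fun c => rz_nice he (hBF c) (hE' c)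
  have hBF' : ∀ c x, ‖rz (FT D m (Ps η e (𝔟 c))) x‖ ≤
      Nat.card (𝓞 K ⧸ Ideal.span {(m : 𝓞 K)}) * B c := by
    intro c x
    unfold rz
    split_ifs
    · rw [norm_zero]
      have := hBn c
      positivity
    · exact hBF c x
  set κ : ℂ := ((V⁻¹ : ℝ) : ℂ) * ((m : ℂ) ^ (Module.finrank ℚ K))⁻¹ * (-I) ^ (∑ w, e w) with hκ
  have hκ0 : κ ≠ 0 := by
    rw [hκ]
    refine mul_ne_zero (mul_ne_zero ?_ ?_) ?_
    · exact_mod_cast (inv_pos.mpr hV0).ne'
    · refine inv_ne_zero (pow_ne_zero _ ?_)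
      exact_mod_cast hm.ne'
    · exact pow_ne_zero _ (neg_ne_zero.mpr Complex.I_ne_zero)
  set M : ℝ := ((m * D : ℕ) : ℝ) ^ (Module.finrank ℚ K) with hM
  have hM0 : 0 < M := by positivity
  have hfg : ∀ t : ℝ, 0 < t → Ftot η e 𝔟 (1 / t) = (κ * ((t ^ (1 : ℝ) : ℝ) : ℂ)) • Gtot η e 𝔟 m D t := by
    intro t ht
    rw [Real.rpow_one, smul_eq_mul]
    unfold Ftot Gtot
    have h1 : ∀ c, hf e (Ps η e (𝔟 c)) ((Ideal.absNorm (𝔟 c) : ℝ)⁻¹ * (1 / t)) =
        κ * t * ((Ideal.absNorm (𝔟 c) : ℂ) * (FT D m (Ps η e (𝔟 c)) 0 *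
          ((G0 e (fun _ => 0) : ℝ) : ℂ))) +
        κ * t * ((Ideal.absNorm (𝔟 c) : ℂ) * hf e (rz (FT D m (Ps η e (𝔟 c))))
          (t * Ideal.absNorm (𝔟 c) / M)) := by
      intro c
      have h2 : (Ideal.absNorm (𝔟 c) : ℝ)⁻¹ * (1 / t) = 1 / (t * Ideal.absNorm (𝔟 c)) := by
        have := (hNpos c).ne'
        field_simp
      rw [h2, hV e he _ (B c) (hB c) (hE c) m D hm hD hDD (hper c) _ (mul_pos ht (hNpos c)),
        hf_rz he (hBF c) (hBF' c), ← hκ, ← hM]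
      push_cast
      ring
    simp_rw [h1]
    rw [Finset.sum_add_distrib, ← Finset.mul_sum, ← Finset.mul_sum]
    have h3 : ∑ c, (Ideal.absNorm (𝔟 c) : ℂ) * (FT D m (Ps η e (𝔟 c)) 0 *
          ((G0 e (fun _ => 0) : ℝ) : ℂ)) = 0 := by
      rw [← hzero, Finset.mul_sum]
      exact Finset.sum_congr rfl fun c _ => by ring
    rw [h3, mul_zero, zero_add]
  let P : WeakFEPair ℂ :=
    { f := Ftot η e 𝔟
      g := Gtot η e 𝔟 m D
      k := 1
      ε := κ
      f₀ := 0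
      g₀ := 0
      hf_int := by
        refine ContinuousOn.locallyIntegrableOn ?_ measurableSet_Ioi
        unfold Ftot
        exact continuousOn_finsetSum _ fun c _ => locInt_hf (hN c) (inv_pos.mpr (hNpos c))
      hg_int := by
        refine ContinuousOn.locallyIntegrableOn ?_ measurableSet_Ioi
        unfold Gtot
        refine continuousOn_finsetSum _ fun c _ => continuousOn_const.mul ?_
        have := locInt_hf (hN' c) (a := Ideal.absNorm (𝔟 c) / M) (div_pos (hNpos c) hM0)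
        refine this.congr fun t _ => ?_
        simp only
        congr 1
        ring
      hk := one_pos
      hε := hκ0
      h_feq := fun x hx => hfg x hx
      hf_top := fun r => by
        simp only [sub_zero]
        unfold Ftot
        refine (Asymptotics.IsBigO.sum (s := Finset.univ)
          (A := fun c t => hf e (Ps η e (𝔟 c)) ((Ideal.absNorm (𝔟 c) : ℝ)⁻¹ * t))
          fun c _ => hf_decay' (hN c) (inv_pos.mpr (hNpos c)) r).congr_left fun t => ?_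
        rw [Finset.sum_apply]
      hg_top := fun r => by
        simp only [sub_zero]
        unfold Gtot
        refine (Asymptotics.IsBigO.sum (s := Finset.univ)
          (A := fun c t => (Ideal.absNorm (𝔟 c) : ℂ) * hf e (rz (FT D m (Ps η e (𝔟 c))))
            (t * Ideal.absNorm (𝔟 c) / M)) fun c _ => Asymptotics.IsBigO.const_mul_left ?_ _).congr_left
              fun t => by rw [Finset.sum_apply]
        have := hf_decay' (hN' c) (a := Ideal.absNorm (𝔟 c) / M) (div_pos (hNpos c) hM0) r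
        refine this.congr_left fun t => ?_
        congr 1
        ring }
  have hP : IsStrongFEPair P := ⟨rfl, rfl⟩
  refine ⟨fun s => (hP.hasMellin s).1, ?_, ?_⟩
  · have := hP.differentiable_Λ
    rw [hP.Λ_eq] at this
    exact this
  · intro s
    have h1 := P.functional_equation s
    rw [hP.Λ_eq, hP.symm_Λ_eq] at h1
    have h2 : ((P.k : ℝ) : ℂ) = 1 := by
      change ((1 : ℝ) : ℂ) = 1
      simp
    rw [h2] at h1
    exact h1

end Pool.Agent.Y773
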