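import Pool.Agent.Y773.HK.Defs
import Pool.Agent.Y773.Pois

/-! # Totally real fields: trace, norm, lattice -/

set_option autoImplicit false
set_option linter.unusedSectionVars false

open NumberField Complex Filter Topology MeasureTheory

namespace Pool.Agent.Y773

variable {K : Type} [Field K] [NumberField K] [IsTotallyReal K]

lemma rl_cast (w : InfinitePlace K) (x : K) : ((rl w x : ℝ) : ℂ) = w.embedding x :=
  InfinitePlace.embedding_of_isReal_apply _ x

lemma abs_rl (w : InfinitePlace K) (x : K) : |rl w x| = w x :=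
  InfinitePlace.norm_embedding_of_isReal _ x

variable (K) in
/-- places and embeddings -/
noncomputable def embEquiv : InfinitePlace K ≃ (K →+* ℂ) where
  toFun w := w.embedding
  invFun φ := InfinitePlace.mk φ
  left_inv w := InfinitePlace.mk_embedding w
  right_inv φ := InfinitePlace.embedding_mk_eq_of_isReal (IsTotallyReal.complexEmbedding_isReal φ)

variable (K) in
/-- algebra homomorphisms and places -/
noncomputable def algEquiv : (K →ₐ[ℚ] ℂ) ≃ InfinitePlace K :=
  (RingHom.equivRatAlgHom (R := K) (S := ℂ)).symm.trans (embEquiv K).symm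

lemma algEquiv_apply (φ : K →ₐ[ℚ] ℂ) (x : K) : ((rl (algEquiv K φ) x : ℝ) : ℂ) = φ x := by
  rw [rl_cast]
  have := (embEquiv K).apply_symm_apply ((RingHom.equivRatAlgHom (R := K) (S := ℂ)).symm φ)
  change ((embEquiv K) ((embEquiv K).symm ((RingHom.equivRatAlgHom (R := K) (S := ℂ)).symm φ))) x = _
  rw [this]
  rfl

theorem trace_eq_sum (x : K) : ((Algebra.trace ℚ K x : ℚ) : ℝ) = ∑ w : InfinitePlace K, rl w x := by
  have h := trace_eq_sum_embeddings ℂ (K := ℚ) (L := K) (x := x)
  have h2 : ∑ σ : K →ₐ[ℚ] ℂ, σ x = ∑ w : InfinitePlace K, ((rl w x : ℝ) : ℂ) := by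
    rw [← (algEquiv K).sum_comp]
    exact Finset.sum_congr rfl fun φ _ => (algEquiv_apply φ x).symm
  rw [h2] at h
  have h3 : (((Algebra.trace ℚ K x : ℚ) : ℝ) : ℂ) = ((∑ w : InfinitePlace K, rl w x : ℝ) : ℂ) := by
    push_cast
    rw [← h]
    simp
  exact_mod_cast h3

theorem norm_eq_prod (x : K) : ((Algebra.norm ℚ x : ℚ) : ℝ) = ∏ w : InfinitePlace K, rl w x := by
  have h := Algebra.norm_eq_prod_embeddings ℚ ℂ x
  have h2 : ∏ σ : K →ₐ[ℚ] ℂ, σ x = ∏ w : InfinitePlace K, ((rl w x : ℝ) : ℂ) := by
    rw [← (algEquiv K).prod_comp]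
    exact Finset.prod_congr rfl fun φ _ => (algEquiv_apply φ x).symm
  rw [h2] at h
  have h3 : (((Algebra.norm ℚ x : ℚ) : ℝ) : ℂ) = ((∏ w : InfinitePlace K, rl w x : ℝ) : ℂ) := by
    push_cast
    rw [← h]
    simp
  exact_mod_cast h3

lemma card_place : Fintype.card (InfinitePlace K) = Module.finrank ℚ K := by
  rw [← AlgHom.card ℚ K ℂ]
  exact Fintype.card_congr (algEquiv K).symm

/-! ### the lattice -/

/-- index type of the integral basis -/
abbrev Idx (K : Type) [Field K] [NumberField K] := Module.Free.ChooseBasisIndex ℤ (𝓞 K)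

lemma card_Idx : Fintype.card (Idx K) = Fintype.card (InfinitePlace K) := by
  rw [card_place, ← Module.finrank_eq_card_chooseBasisIndex, RingOfIntegers.rank]

/-- the dual basis -/
noncomputable def db (K : Type) [Field K] [NumberField K] (i : Idx K) : K :=
  (integralBasis K).traceDual i

lemma db_trace (i j : Idx K) :
    Algebra.trace ℚ K (db K i * integralBasis K j) = if i = j then 1 else 0 := by
  classical
  have := (integralBasis K).trace_traceDual_mul i j
  unfold db
  rw [this]
  by_cases h : i = j
  · simp [h]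
  · simp [h, Ne.symm h]

/-- the embedding of the coordinates -/
noncomputable def emb (K : Type) [Field K] [NumberField K] [IsTotallyReal K] :
    (Idx K → ℝ) →ₗ[ℝ] (InfinitePlace K → ℝ) where
  toFun v w := ∑ j, v j * rl w (integralBasis K j)
  map_add' u v := by
    funext w
    simp only [Pi.add_apply, add_mul, Finset.sum_add_distrib]
  map_smul' c v := by
    funext w
    simp only [Pi.smul_apply, smul_eq_mul, RingHom.id_apply, Finset.mul_sum, mul_assoc]

/-- the dual embedding -/
noncomputable def embD (K : Type) [Field K] [NumberField K] [IsTotallyReal K] :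
    (InfinitePlace K → ℝ) →ₗ[ℝ] (Idx K → ℝ) where
  toFun u i := ∑ w, u w * rl w (db K i)
  map_add' u v := by
    funext w
    simp only [Pi.add_apply, add_mul, Finset.sum_add_distrib]
  map_smul' c v := by
    funext w
    simp only [Pi.smul_apply, smul_eq_mul, RingHom.id_apply, Finset.mul_sum, mul_assoc]

lemma embD_emb (v : Idx K → ℝ) : embD K (emb K v) = v := by
  classical
  funext i
  simp only [embD, emb, LinearMap.coe_mk, AddHom.coe_mk]
  have h : ∀ j, ∑ w : InfinitePlace K, rl w (db K i) * rl w (integralBasis K j) =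
      if i = j then 1 else 0 := by
    intro j
    have h1 := trace_eq_sum (db K i * integralBasis K j)
    rw [db_trace] at h1
    simp only [map_mul] at h1
    rw [← h1]
    split_ifs <;> simp
  calc ∑ w, (∑ j, v j * rl w (integralBasis K j)) * rl w (db K i)
      = ∑ j, v j * ∑ w, rl w (db K i) * rl w (integralBasis K j) := by
        simp only [Finset.sum_mul, Finset.mul_sum]
        rw [Finset.sum_comm]
        refine Finset.sum_congr rfl fun j _ => Finset.sum_congr rfl fun w _ => by ring
    _ = v i := by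
        simp only [h, mul_ite, mul_one, mul_zero]
        rw [Finset.sum_ite_eq Finset.univ i v]
        simp

/-- `emb` is an isomorphism -/
noncomputable def embE (K : Type) [Field K] [NumberField K] [IsTotallyReal K] :
    (Idx K → ℝ) ≃ₗ[ℝ] (InfinitePlace K → ℝ) :=
  LinearEquiv.ofInjectiveOfFinrankEq (emb K)
    (Function.LeftInverse.injective (g := embD K) embD_emb) (by
      rw [Module.finrank_pi, Module.finrank_pi, card_Idx])

lemma embE_apply (v : Idx K → ℝ) : embE K v = emb K v := rfl

lemma embE_symm (u : InfinitePlace K → ℝ) : (embE K).symm u = embD K u := by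
  have h := embD_emb ((embE K).symm u)
  rw [← embE_apply, LinearEquiv.apply_symm_apply] at h
  exact h.symm

/-- change of variables -/
lemma exists_vol (K : Type) [Field K] [NumberField K] [IsTotallyReal K] :
    ∃ V : ℝ, 0 < V ∧ ∀ f : (InfinitePlace K → ℝ) → ℂ,
      ∫ v : Idx K → ℝ, f (embE K v) = ((V⁻¹ : ℝ) : ℂ) * ∫ u, f u := by
  classical
  set L : (Idx K → ℝ) ≃L[ℝ] (InfinitePlace K → ℝ) := (embE K).toContinuousLinearEquiv with hL
  have h1 : (Measure.map L (volume : Measure (Idx K → ℝ))).IsAddHaarMeasure := by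
    exact L.toContinuousAddEquiv.isAddHaarMeasure_map _
  obtain ⟨c, hc⟩ : ∃ c : NNReal, Measure.map L (volume : Measure (Idx K → ℝ)) =
      c • (volume : Measure (InfinitePlace K → ℝ)) := by
    refine ⟨_, Measure.isAddLeftInvariant_eq_smul _ _⟩
  have hc0 : c ≠ 0 := by
    rintro rfl
    rw [zero_smul] at hc
    have := h1.toIsOpenPosMeasure.open_pos Set.univ isOpen_univ Set.univ_nonempty
    rw [hc] at this
    simp at this
  refine ⟨(c : ℝ)⁻¹, by positivity, fun f => ?_⟩
  have h2 : ∫ v : Idx K → ℝ, f (embE K v) = ∫ u, f u ∂(Measure.map L volume) :=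
    (L.toHomeomorph.toMeasurableEquiv.measurableEmbedding.integral_map (μ := volume) f).symm
  rw [h2, hc, integral_smul_nnreal_measure, inv_inv]
  rfl

end Pool.Agent.Y773
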