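import Pool.Agent.Y773.HK.Sq

/-! # The finite Fourier transform of a primitive ray class character -/

set_option autoImplicit false
set_option linter.unusedSectionVars false

open NumberField Complex Filter Topology Set

namespace Pool.Agent.Y773

section

variable {K : Type} [Field K] [NumberField K]

/-- the additive character `e(Tr u / k)` -/
noncomputable def ee (k : ℕ) (u : 𝓞 K) : ℂ :=
  cexp (2 * Real.pi * I * ((Algebra.trace ℤ (𝓞 K) u : ℤ) : ℂ) / (k : ℂ))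

lemma ee_add (k : ℕ) (u v : 𝓞 K) : ee k (u + v) = ee k u * ee k v := by
  unfold ee
  rw [← Complex.exp_add, map_add]
  congr 1
  push_cast
  ring

lemma ee_eq_one_iff {k : ℕ} (hk : 0 < k) (u : 𝓞 K) :
    ee k u = 1 ↔ (k : ℤ) ∣ Algebra.trace ℤ (𝓞 K) u := by
  unfold ee
  have hk1 : (k : ℂ) ≠ 0 := by exact_mod_cast hk.ne'
  have hpi : (Real.pi : ℂ) ≠ 0 := by exact_mod_cast Real.pi_ne_zero
  rw [Complex.exp_eq_one_iff]
  constructor
  · rintro ⟨n, hn⟩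
    refine ⟨n, ?_⟩
    have h1 : ((Algebra.trace ℤ (𝓞 K) u : ℤ) : ℂ) = ((k * n : ℤ) : ℂ) := by
      rw [div_eq_iff hk1] at hn
      have h2 : (2 * Real.pi * I) * ((Algebra.trace ℤ (𝓞 K) u : ℤ) : ℂ) =
          (2 * Real.pi * I) * ((k * n : ℤ) : ℂ) := by
        push_cast
        linear_combination hn
      exact mul_left_cancel₀ (by simp [hpi]) h2
    exact_mod_cast h1
  · rintro ⟨n, hn⟩
    refine ⟨n, ?_⟩
    rw [hn]
    push_cast
    field_simp

lemma ee_sub_eq {k : ℕ} (hk : 0 < k) {u v : 𝓞 K} (h : (k : ℤ) ∣ Algebra.trace ℤ (𝓞 K) (u - v)) :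
    ee k u = ee k v := by
  have h1 : u = v + (u - v) := by ring
  conv_lhs => rw [h1]
  rw [ee_add, (ee_eq_one_iff hk (u - v)).mpr h, mul_one]

lemma trace_dvd {k : ℕ} {u : 𝓞 K}
    (h : ∀ δ ∈ differentIdeal ℤ (𝓞 K), u * δ ∈ Ideal.span {(k : 𝓞 K)}) :
    (k : ℤ) ∣ Algebra.trace ℤ (𝓞 K) u := by
  set dl := FractionalIdeal.dual ℤ ℚ (1 : FractionalIdeal (nonZeroDivisors (𝓞 K)) K) with hdl
  have hdl0 : dl ≠ 0 := FractionalIdeal.dual_ne_zero _ _ one_ne_zero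
  have h1 : Ideal.span {u} * differentIdeal ℤ (𝓞 K) ≤ Ideal.span {(k : 𝓞 K)} := by
    rw [Ideal.span_singleton_mul_le_iff]
    exact h
  have h2 : FractionalIdeal.spanSingleton (nonZeroDivisors (𝓞 K)) (u : K) * dl⁻¹ ≤
      FractionalIdeal.spanSingleton (nonZeroDivisors (𝓞 K)) (((k : 𝓞 K)) : K) := by
    have h3 := (FractionalIdeal.coeIdeal_le_coeIdeal K).mpr h1
    rw [FractionalIdeal.coeIdeal_mul, FractionalIdeal.coeIdeal_span_singleton,
      FractionalIdeal.coeIdeal_span_singleton, coeIdeal_differentIdeal ℤ ℚ K (𝓞 K)] at h3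
    exact h3
  have h4 : FractionalIdeal.spanSingleton (nonZeroDivisors (𝓞 K)) (u : K) ≤
      FractionalIdeal.spanSingleton (nonZeroDivisors (𝓞 K)) (((k : 𝓞 K)) : K) * dl := by
    calc FractionalIdeal.spanSingleton (nonZeroDivisors (𝓞 K)) (u : K) =
        (FractionalIdeal.spanSingleton (nonZeroDivisors (𝓞 K)) (u : K) * dl⁻¹) * dl := by
          rw [mul_assoc, inv_mul_cancel₀ hdl0, mul_one]
      _ ≤ _ := mul_le_mul_left h2 dl
  have h5 : (u : K) ∈ FractionalIdeal.spanSingleton (nonZeroDivisors (𝓞 K)) (((k : 𝓞 K)) : K) * dl :=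
    h4 (FractionalIdeal.mem_spanSingleton_self _ _)
  rw [FractionalIdeal.mem_singleton_mul] at h5
  obtain ⟨ξ, hξ, hu⟩ := h5
  have h10 : (1 : FractionalIdeal (nonZeroDivisors (𝓞 K)) K) ≠ 0 := one_ne_zero
  rw [hdl, FractionalIdeal.mem_dual h10] at hξ
  obtain ⟨n, hn⟩ := hξ 1 (FractionalIdeal.one_mem_one _)
  rw [Algebra.traceForm_apply, mul_one] at hn
  refine ⟨n, ?_⟩
  have h6 : ((Algebra.trace ℤ (𝓞 K) u : ℤ) : ℚ) = ((k * n : ℤ) : ℚ) := by
    rw [Algebra.coe_trace_int, hu]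
    have h7 : (((k : 𝓞 K)) : K) * ξ = (k : ℚ) • ξ := by
      rw [Algebra.smul_def]
      simp
    rw [h7, map_smul, ← hn]
    simp
  exact_mod_cast h6

lemma trace_dvd_conv [IsTotallyReal K] {k : ℕ} (hk : 0 < k) {u : 𝓞 K}
    (h : ∀ o : 𝓞 K, (k : ℤ) ∣ Algebra.trace ℤ (𝓞 K) (u * o)) {δ : 𝓞 K}
    (hδ : δ ∈ differentIdeal ℤ (𝓞 K)) : u * δ ∈ Ideal.span {(k : 𝓞 K)} := by
  have hk1 : (k : K) ≠ 0 := by exact_mod_cast hk.ne'
  have h1 : ∀ a : 𝓞 K, ∃ n : ℤ, Algebra.trace ℚ K ((u : K) / k * a) = n := by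
    intro a
    obtain ⟨n, hn⟩ := h a
    refine ⟨n, ?_⟩
    have h2 : ((Algebra.trace ℤ (𝓞 K) (u * a) : ℤ) : ℚ) = ((k * n : ℤ) : ℚ) := by rw [hn]
    rw [Algebra.coe_trace_int] at h2
    have h3 : (((u * a : 𝓞 K)) : K) = (k : ℚ) • ((u : K) / k * a) := by
      rw [Algebra.smul_def, map_natCast]
      refine (map_mul (algebraMap (𝓞 K) K) u a).trans ?_
      field_simp
    rw [h3, map_smul] at h2
    have hk2 : (k : ℚ) ≠ 0 := by exact_mod_cast hk.ne'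
    rw [smul_eq_mul] at h2
    push_cast at h2
    exact mul_left_cancel₀ hk2 h2
  obtain ⟨x, hx⟩ := dual_int hδ _ h1
  rw [Ideal.mem_span_singleton']
  refine ⟨x, ?_⟩
  have h4 : ((x * (k : 𝓞 K) : 𝓞 K) : K) = ((u * δ : 𝓞 K) : K) := by
    refine (map_mul (algebraMap (𝓞 K) K) x (k : 𝓞 K)).trans ?_
    refine Eq.trans ?_ (map_mul (algebraMap (𝓞 K) K) u δ).symm
    refine (congrArg (· * algebraMap (𝓞 K) K (k : 𝓞 K)) hx).trans ?_
    rw [map_natCast]
    field_simp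
  exact_mod_cast h4

end

end Pool.Agent.Y773
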