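import Pool.Agent.Y773.HK.Unf3

/-! # The Mellin transform of the theta series -/

set_option autoImplicit false
set_option linter.unusedSectionVars false

open NumberField Complex Filter Topology MeasureTheory Set
open NumberField.Units NumberField.Units.dirichletUnitTheorem

namespace Pool.Agent.Y773

variable {K : Type} [Field K] [NumberField K] [IsTotallyReal K]

lemma sg_mul (e : InfinitePlace K → ℕ) (x y : K) : sg e (x * y) = sg e x * sg e y := by
  unfold sg
  rw [← Finset.prod_mul_distrib]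
  refine Finset.prod_congr rfl fun w _ => ?_
  rw [map_mul, sign_mul, ← mul_pow]
  congr 1
  push_cast
  rfl

lemma sg_sq (e : InfinitePlace K → ℕ) {x : K} (hx : x ≠ 0) : sg e x * sg e x = 1 := by
  unfold sg
  rw [← Finset.prod_mul_distrib]
  refine Finset.prod_eq_one fun w _ => ?_
  have h1 : rl w x ≠ 0 := (map_ne_zero (rl w)).mpr hx
  rw [← mul_pow]
  rcases lt_or_gt_of_ne h1 with h | h
  · rw [sign_neg h]; simp
  · rw [sign_pos h]; simp

lemma g0_sign {e : ℕ} (he : e ≤ 1) {a : ℝ} (x : ℝ) (hx : x ≠ 0) :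
    ((g0 e (a * x) : ℝ) : ℂ) = (((SignType.sign x : SignType) : ℤ) : ℂ) ^ e *
      ((g0 e (a * |x|) : ℝ) : ℂ) := by
  unfold g0
  have h2 : (a * |x|) ^ 2 = (a * x) ^ 2 := by rw [mul_pow, sq_abs, mul_pow]
  rw [h2]
  interval_cases e
  · simp
  · rcases lt_or_gt_of_ne hx with h | h
    · rw [sign_neg h, abs_of_neg h]
      push_cast
      simp
    · rw [sign_pos h, abs_of_pos h]
      push_cast
      simp

lemma G0_sign {e : InfinitePlace K → ℕ} (he : ∀ w, e w ≤ 1) (a : InfinitePlace K → ℝ) {x : 𝓞 K}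
    (hx : x ≠ 0) : ((G0 e (fun w => a w * rl w (x : K)) : ℝ) : ℂ) =
      sg e (x : K) * ((G0 e (fun w => a w * av x w) : ℝ) : ℂ) := by
  unfold G0 sg
  rw [Complex.ofReal_prod, Complex.ofReal_prod, ← Finset.prod_mul_distrib]
  refine Finset.prod_congr rfl fun w _ => ?_
  have h1 : rl w (x : K) ≠ 0 := (map_ne_zero (rl w)).mpr (RingOfIntegers.coe_ne_zero_iff.mpr hx)
  rw [g0_sign (he w) _ h1, abs_rl]
  rfl

/-- the functions `Ψ` under consideration -/
structure Nice (e : InfinitePlace K → ℕ) (Ψ : 𝓞 K → ℂ) : Prop where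
  he : ∀ w, e w ≤ 1
  bdd : ∃ B : ℝ, ∀ x, ‖Ψ x‖ ≤ B
  zero : Ψ 0 = 0
  unit : ∀ (u : (𝓞 K)ˣ) (x : 𝓞 K), Ψ (u * x) = sg e ((u : 𝓞 K) : K) * Ψ x

/-- the function on the principal ideals -/
noncomputable def AA (e : InfinitePlace K → ℕ) (Ψ : 𝓞 K → ℂ) (J : PIdl K) : ℂ :=
  Ψ (gen J) * sg e (gen J : K)

lemma norm_sg_le (e : InfinitePlace K → ℕ) (x : K) : ‖sg e x‖ ≤ 1 := by
  unfold sg
  rw [norm_prod]
  refine Finset.prod_le_one (fun _ _ => norm_nonneg _) fun w _ => ?_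
  rw [norm_pow]
  refine pow_le_one₀ (norm_nonneg _) ?_
  rcases SignType.trichotomy (SignType.sign (rl w x)) with h | h | h <;> rw [h] <;> simp

lemma norm_AA_le {e : InfinitePlace K → ℕ} {Ψ : 𝓞 K → ℂ} {B : ℝ} (hB : ∀ x, ‖Ψ x‖ ≤ B)
    (J : PIdl K) : ‖AA e Ψ J‖ ≤ B := by
  unfold AA
  rw [norm_mul]
  calc _ ≤ B * 1 := mul_le_mul (hB _) (norm_sg_le _ _) (norm_nonneg _)
        ((norm_nonneg _).trans (hB 0))
    _ = B := mul_one B

lemma AA_toP {e : InfinitePlace K → ℕ} {Ψ : 𝓞 K → ℂ} (h : Nice e Ψ) (x : {x : 𝓞 K // x ≠ 0}) :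
    Ψ x.1 * sg e ((x.1 : 𝓞 K) : K) = AA e Ψ (toP x) := by
  obtain ⟨⟨J, z⟩, rfl⟩ := (xE K).surjective x
  rw [toP_xE]
  have h1 : (xE K (J, z)).1 = (unE K z : 𝓞 K) * gen J := rfl
  have h2 : (((unE K z : (𝓞 K)ˣ) * gen J : 𝓞 K) : K) =
      ((unE K z : (𝓞 K)ˣ) : K) * (gen J : K) := map_mul (algebraMap (𝓞 K) K) _ _
  rw [h1, h.unit, h2, sg_mul]
  unfold AA
  have h3 := sg_sq e (x := ((unE K z : (𝓞 K)ˣ) : K)) (by simp)
  calc _ = (sg e ((unE K z : (𝓞 K)ˣ) : K) * sg e ((unE K z : (𝓞 K)ˣ) : K)) *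
        (Ψ (gen J) * sg e (gen J : K)) := by ring
    _ = _ := by rw [h3, one_mul]

/-- the theta series as a sum over the non-zero integers -/
lemma th_eq {e : InfinitePlace K → ℕ} {Ψ : 𝓞 K → ℂ} (h : Nice e Ψ) (s : ℂ) (p : PP K) :
    th e Ψ (el K p) * cexp (Module.finrank ℚ K * s * p.1 / 2) =
      ∑' x : {x : 𝓞 K // x ≠ 0}, AA e Ψ (toP x) * Fx e s (av x.1) p := by
  unfold th
  rw [← tsum_mul_right]
  have hsupp : Function.support (fun x : 𝓞 K =>
      Ψ x * ((G0 e (fun w => Real.exp (el K p w / 2) * rl w (x : K)) : ℝ) : ℂ) *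
      cexp (Module.finrank ℚ K * s * p.1 / 2)) ⊆ {x | x ≠ 0} := by
    intro x hx h0
    apply hx
    change x = 0 at h0
    simp only
    rw [h0, h.zero, zero_mul, zero_mul]
  rw [← tsum_subtype_eq_of_support_subset hsupp]
  refine tsum_congr fun x => ?_
  rw [← AA_toP h x]
  unfold Fx
  rw [G0_sign h.he _ x.2]
  ring

/-- Integrability of the sum -/
lemma integrable_tsum {α ι : Type} [MeasurableSpace α] [Countable ι] {μ : Measure α} {F : ι → α → ℂ}
    (hF_int : ∀ i : ι, Integrable (F i) μ) (hF_sum : Summable fun i ↦ ∫ a, ‖F i a‖ ∂μ)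
    (hm : AEStronglyMeasurable (fun a => ∑' i, F i a) μ) : Integrable (fun a => ∑' i, F i a) μ := by
  refine ⟨hm, ?_⟩
  rw [hasFiniteIntegral_iff_enorm]
  calc ∫⁻ a, ‖∑' i, F i a‖ₑ ∂μ ≤ ∫⁻ a, ∑' i, ‖F i a‖ₑ ∂μ :=
        lintegral_mono fun a => enorm_tsum_le_tsum_enorm
    _ = ∑' i, ∫⁻ a, ‖F i a‖ₑ ∂μ := lintegral_tsum fun i => (hF_int i).1.enorm
    _ = ∑' i, ENNReal.ofReal (∫ a, ‖F i a‖ ∂μ) := by
        refine tsum_congr fun i => ?_
        rw [ofReal_integral_norm_eq_lintegral_enorm (hF_int i)]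
    _ = ENNReal.ofReal (∑' i, ∫ a, ‖F i a‖ ∂μ) :=
        (ENNReal.ofReal_tsum_of_nonneg (fun i => integral_nonneg fun a => norm_nonneg _) hF_sum).symm
    _ < ⊤ := ENNReal.ofReal_lt_top

/-- the cube -/
def cube (K : Type) [Field K] [NumberField K] : Set (Fin (rank K) → ℝ) := {θ | ∀ i, ⌊θ i⌋ = 0}

lemma S0_eq (K : Type) [Field K] [NumberField K] : S0 K = univ ×ˢ cube K := by
  ext p
  simp [S0, cube]

/-- the function whose Mellin transform is the completed Dirichlet series -/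
noncomputable def hf (e : InfinitePlace K → ℕ) (Ψ : 𝓞 K → ℂ) (t : ℝ) : ℂ :=
  ∫ θ in cube K, th e Ψ (el K ((2 / Module.finrank ℚ K) * Real.log t, θ))

theorem mellin_hf (K : Type) [Field K] [NumberField K] [IsTotallyReal K] : ∃ C : ℝ, 0 < C ∧
    ∀ (e : InfinitePlace K → ℕ) (Ψ : 𝓞 K → ℂ), Nice e Ψ → ∀ s : ℂ, 1 < s.re →
      MellinConvergent (hf e Ψ) s ∧ (Summable fun J : PIdl K =>
        AA e Ψ J * ((Ideal.absNorm J.1 : ℕ) : ℂ) ^ (-s)) ∧
      mellin (hf e Ψ) s = C * ((∏ w, Complex.Gammaℝ (s + e w)) *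
          ∑' J : PIdl K, AA e Ψ J * ((Ideal.absNorm J.1 : ℕ) : ℂ) ^ (-s)) := by
  classical
  obtain ⟨C, hC, hunf⟩ := unf K
  have hn : (0 : ℝ) < Module.finrank ℚ K := by exact_mod_cast Module.finrank_pos
  set n : ℝ := ((Module.finrank ℚ K : ℕ) : ℝ) with hn'
  refine ⟨n / 2 * C, by positivity, fun e Ψ h s hs => ?_⟩
  obtain ⟨B, hB⟩ := h.bdd
  obtain ⟨h1, h2, h3⟩ := hunf e (AA e Ψ) B (norm_AA_le hB) s hs
  have hcount : Countable (𝓞 K) := (coE K).countable_iff.mpr inferInstance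
  have hth := th_eq h s
  have hcont : Continuous fun p : PP K => th e Ψ (el K p) * cexp (Module.finrank ℚ K * s * p.1 / 2) := by
    have h4 : Continuous (el K) := (el K).continuous_of_finiteDimensional
    exact ((continuous_th h.he hB).comp h4).mul (by fun_prop)
  have hint : Integrable (fun p : PP K => th e Ψ (el K p) *
      cexp (Module.finrank ℚ K * s * p.1 / 2)) (volume.restrict (S0 K)) := by
    have h5 := integrable_tsum h1 h2 (by
      simp_rw [← hth]
      exact hcont.aestronglyMeasurable)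
    simp_rw [← hth] at h5
    exact h5
  simp_rw [← hth] at h3
  -- Fubini
  have hrestr : (volume : Measure (PP K)).restrict (S0 K) =
      (volume : Measure ℝ).prod (volume.restrict (cube K)) := by
    rw [S0_eq, Measure.volume_eq_prod, ← Measure.prod_restrict, Measure.restrict_univ]
  rw [hrestr] at hint h3
  rw [integral_prod _ hint] at h3
  have h9 := hint.integral_prod_left
  -- the substitution
  have h6 : ∀ v : ℝ, (Real.exp v : ℂ) * (((Real.exp v : ℝ) : ℂ) ^ (s - 1) • hf e Ψ (Real.exp v)) =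
      (fun τ : ℝ => ∫ θ in cube K, th e Ψ (el K (τ, θ)) *
        cexp (Module.finrank ℚ K * s * ((τ, θ) : PP K).1 / 2)) (2 / n * v) := by
    intro v
    simp only
    rw [integral_mul_const]
    unfold hf
    rw [Real.log_exp, smul_eq_mul]
    have hev : ((Real.exp v : ℝ) : ℂ) ≠ 0 := by exact_mod_cast (Real.exp_pos v).ne'
    have h7 : (Real.exp v : ℂ) * (((Real.exp v : ℝ) : ℂ) ^ (s - 1)) =
        cexp (Module.finrank ℚ K * s * ((2 / n * v : ℝ) : ℂ) / 2) := by
      rw [Complex.cpow_def_of_ne_zero hev, ← Complex.ofReal_log (Real.exp_pos v).le, Real.log_exp,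
        Complex.ofReal_exp, ← Complex.exp_add]
      congr 1
      have hnc : (n : ℂ) ≠ 0 := by exact_mod_cast hn.ne'
      have hnn : (Module.finrank ℚ K : ℂ) = (n : ℂ) := by rw [hn']; push_cast; rfl
      rw [hnn]
      push_cast
      field_simp
      ring
    rw [← mul_assoc, h7]
    ring
  have hsumJ : Summable fun J : PIdl K => AA e Ψ J * ((Ideal.absNorm J.1 : ℕ) : ℂ) ^ (-s) := by
    refine Summable.of_norm_bounded ((summable_PIdl (K := K) hs).mul_left B) fun J => ?_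
    rw [norm_mul, norm_absNorm_cpow J.2.1]
    exact mul_le_mul_of_nonneg_right (norm_AA_le hB J) (by positivity)
  have hconv : MellinConvergent (hf e Ψ) s := by
    unfold MellinConvergent
    rw [← integrable_exp_sub]
    refine (h9.comp_mul_left' (R := 2 / n) (by positivity)).congr (Eventually.of_forall fun v => ?_)
    exact (h6 v).symm
  refine ⟨hconv, hsumJ, ?_⟩
  unfold mellin
  rw [← integral_exp_sub]
  rw [integral_congr_ae (Eventually.of_forall h6)]
  have h8 := Measure.integral_comp_mul_left (fun τ : ℝ => ∫ θ in cube K, th e Ψ (el K (τ, θ)) *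
        cexp (Module.finrank ℚ K * s * ((τ, θ) : PP K).1 / 2)) (2 / n)
  refine h8.trans ?_
  rw [h3, abs_of_pos (by positivity), Complex.real_smul]
  push_cast
  have hnc : (n : ℂ) ≠ 0 := by exact_mod_cast hn.ne'
  field_simp

end Pool.Agent.Y773
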