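import Pool.Agent.Y773.Pois

/-! # The Gaussian factors `u^e exp(-π u²)` and their Fourier transforms -/

set_option autoImplicit false
set_option linter.unusedSectionVars false

open Complex Filter Topology MeasureTheory

namespace Pool.Agent.Y773

/-- `u^e exp(-π u²)` -/
noncomputable def g0 (e : ℕ) (u : ℝ) : ℝ := u ^ e * Real.exp (-Real.pi * u ^ 2)

lemma continuous_g0 (e : ℕ) : Continuous (g0 e) := by unfold g0; fun_prop

lemma abs_g0_le {e : ℕ} (he : e ≤ 1) (u : ℝ) : |g0 e u| ≤ Real.exp (-2 * u ^ 2) := by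
  have hpi := Real.pi_gt_three
  unfold g0
  rw [abs_mul, abs_of_pos (Real.exp_pos _), abs_pow]
  have h1 : |u| ^ e ≤ Real.exp (u ^ 2) := by
    interval_cases e
    · simp [sq_nonneg]
    · rw [pow_one]
      have := Real.add_one_le_exp (u ^ 2)
      nlinarith [sq_abs u, sq_nonneg (|u| - 1), abs_nonneg u]
  calc |u| ^ e * Real.exp (-Real.pi * u ^ 2) ≤ Real.exp (u ^ 2) * Real.exp (-Real.pi * u ^ 2) := by
        gcongr
    _ = Real.exp (u ^ 2 - Real.pi * u ^ 2) := by rw [← Real.exp_add]; ring_nf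
    _ ≤ _ := by
        apply Real.exp_le_exp.mpr
        nlinarith [sq_nonneg u]

lemma ft_g0_zero (ξ : ℝ) : ∫ x : ℝ, cexp (-(2 * Real.pi * I * (ξ * x))) * (g0 0 x : ℂ) = g0 0 ξ := by
  have h := fourierIntegral_gaussian (b := (Real.pi : ℂ)) (by simpa using Real.pi_pos)
    (-(2 * Real.pi * ξ))
  have hpi : (Real.pi : ℂ) ≠ 0 := by exact_mod_cast Real.pi_ne_zero
  rw [div_self hpi, Complex.one_cpow, one_mul] at h
  have e1 : ∀ x : ℝ, cexp (-(2 * Real.pi * I * (ξ * x))) * (g0 0 x : ℂ) =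
      cexp (I * (-(2 * Real.pi * ξ)) * x) * cexp (-Real.pi * x ^ 2) := by
    intro x
    unfold g0
    push_cast
    rw [pow_zero, one_mul]
    congr 2
    ring
  simp_rw [e1]
  rw [h]
  unfold g0
  push_cast
  rw [pow_zero, one_mul]
  congr 1
  field_simp
  ring

lemma integrable_ft0 (ξ : ℝ) :
    Integrable fun x : ℝ => cexp (-(2 * Real.pi * I * (ξ * x))) * cexp (-Real.pi * x ^ 2) := by
  have := integrable_cexp_quadratic (b := (Real.pi : ℂ)) (by simpa using Real.pi_pos)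
    (-(2 * Real.pi * I * ξ)) 0
  refine this.congr (Eventually.of_forall fun x => ?_)
  simp only
  rw [← Complex.exp_add]
  congr 1
  ring

lemma integrable_ft1 (ξ : ℝ) :
    Integrable fun x : ℝ => (x : ℂ) * (cexp (-(2 * Real.pi * I * (ξ * x))) * cexp (-Real.pi * x ^ 2)) := by
  have h := (integrable_mul_exp_neg_mul_sq (b := Real.pi) Real.pi_pos).norm
  refine Integrable.mono' h ?_ (Eventually.of_forall fun x => ?_)
  · exact (by fun_prop : Continuous fun x : ℝ => (x : ℂ) *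
      (cexp (-(2 * Real.pi * I * (ξ * x))) * cexp (-Real.pi * x ^ 2))).aestronglyMeasurable
  · rw [norm_mul, norm_mul, norm_mul, Complex.norm_exp, Complex.norm_exp, Complex.norm_real]
    have e1 : (-(2 * Real.pi * I * (ξ * x)) : ℂ).re = 0 := by simp
    have e2 : (-Real.pi * x ^ 2 : ℂ).re = -Real.pi * x ^ 2 := by
      rw [show (-Real.pi * x ^ 2 : ℂ) = ((-Real.pi * x ^ 2 : ℝ) : ℂ) by push_cast; ring]
      exact Complex.ofReal_re _
    rw [e1, e2, Real.exp_zero, one_mul, Real.norm_eq_abs (Real.exp _), abs_of_pos (Real.exp_pos _)]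

lemma ft_g0_one (ξ : ℝ) : ∫ x : ℝ, cexp (-(2 * Real.pi * I * (ξ * x))) * (g0 1 x : ℂ) =
    (-I) * g0 1 ξ := by
  have hpi : (Real.pi : ℂ) ≠ 0 := by exact_mod_cast Real.pi_ne_zero
  set E : ℝ → ℂ := fun x => cexp (-(2 * Real.pi * I * (ξ * x))) * cexp (-Real.pi * x ^ 2) with hE
  have hd : ∀ x : ℝ, HasDerivAt E (-(2 * Real.pi * I * ξ) * E x - 2 * Real.pi * (x * E x)) x := by
    intro x
    have hx : HasDerivAt (fun x : ℝ => (x : ℂ)) 1 x := Complex.ofRealCLM.hasDerivAt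
    have h1 : HasDerivAt (fun x : ℝ => cexp (-(2 * Real.pi * I * (ξ * x))))
        (cexp (-(2 * Real.pi * I * (ξ * x))) * (-(2 * Real.pi * I * (ξ * 1)))) x :=
      ((hx.const_mul (ξ : ℂ)).const_mul (2 * Real.pi * I)).neg.cexp
    have h2 : HasDerivAt (fun x : ℝ => cexp (-Real.pi * (x : ℂ) ^ 2))
        (cexp (-Real.pi * (x : ℂ) ^ 2) * (-Real.pi * (((2 : ℕ) : ℂ) * (x : ℂ) ^ (2 - 1) * 1))) x :=
      ((hx.pow 2).const_mul (-Real.pi : ℂ)).cexp
    refine (h1.mul h2).congr_deriv ?_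
    simp only [hE]
    push_cast
    ring
  have hi0 := integrable_ft0 ξ
  have hi1 := integrable_ft1 ξ
  have h0 := integral_eq_zero_of_hasDerivAt_of_integrable hd
    ((hi0.const_mul _).sub (hi1.const_mul _)) hi0
  rw [integral_sub (hi0.const_mul _) (hi1.const_mul _), integral_const_mul, integral_const_mul] at h0
  have h00 : ∫ x, E x = g0 0 ξ := by
    rw [← ft_g0_zero ξ]
    refine integral_congr_ae (Eventually.of_forall fun x => ?_)
    simp only [hE, g0]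
    push_cast
    ring_nf
  rw [h00] at h0
  have h3 : ∫ x : ℝ, cexp (-(2 * Real.pi * I * (ξ * x))) * (g0 1 x : ℂ) = ∫ x : ℝ, (x : ℂ) * E x := by
    refine integral_congr_ae (Eventually.of_forall fun x => ?_)
    simp only [hE, g0]
    push_cast
    ring_nf
  rw [h3]
  have h4 : (2 * Real.pi : ℂ) * ∫ x : ℝ, (x : ℂ) * E x = -(2 * Real.pi * I * ξ) * g0 0 ξ := by
    have h0' := sub_eq_zero.mp h0
    exact h0'.symm
  have h5 : (2 * Real.pi : ℂ) ≠ 0 := mul_ne_zero two_ne_zero hpi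
  apply mul_left_cancel₀ h5
  rw [h4]
  unfold g0
  push_cast
  ring

lemma ft_g0 {e : ℕ} (he : e ≤ 1) (ξ : ℝ) :
    ∫ x : ℝ, cexp (-(2 * Real.pi * I * (ξ * x))) * (g0 e x : ℂ) = (-I) ^ e * g0 e ξ := by
  interval_cases e
  · rw [ft_g0_zero, pow_zero, one_mul]
  · rw [ft_g0_one, pow_one]

lemma ft_g0_scale {e : ℕ} (he : e ≤ 1) {a : ℝ} (ha : 0 < a) (ξ : ℝ) :
    ∫ x : ℝ, cexp (-(2 * Real.pi * I * (ξ * x))) * (g0 e (a * x) : ℂ) =
      (a : ℂ)⁻¹ * ((-I) ^ e * g0 e (ξ / a)) := by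
  have h := Measure.integral_comp_mul_left
    (fun x : ℝ => cexp (-(2 * Real.pi * I * (((ξ / a : ℝ) : ℂ) * x))) * (g0 e x : ℂ)) a
  rw [ft_g0 he] at h
  rw [abs_of_pos (inv_pos.mpr ha)] at h
  have hac : (a : ℂ) ≠ 0 := by exact_mod_cast ha.ne'
  have e1 : ∀ x : ℝ, cexp (-(2 * Real.pi * I * (((ξ / a : ℝ) : ℂ) * ((a * x : ℝ) : ℂ)))) *
      (g0 e (a * x) : ℂ) = cexp (-(2 * Real.pi * I * (ξ * x))) * (g0 e (a * x) : ℂ) := by
    intro x
    congr 3
    push_cast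
    field_simp
  simp_rw [e1] at h
  rw [h]
  rw [Complex.real_smul]
  push_cast
  rfl

section prod

variable {ι : Type} [Fintype ι]

/-- the product of the `g0 (e w) (u w)` -/
noncomputable def G0 (e : ι → ℕ) (u : ι → ℝ) : ℝ := ∏ w, g0 (e w) (u w)

lemma continuous_G0 (e : ι → ℕ) : Continuous (G0 e) := by
  unfold G0
  exact continuous_finsetProd _ fun w _ => (continuous_g0 _).comp (continuous_apply w)

lemma abs_G0_le {e : ι → ℕ} (he : ∀ w, e w ≤ 1) (u : ι → ℝ) :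
    |G0 e u| ≤ Real.exp (-2 * ∑ w, u w ^ 2) := by
  unfold G0
  rw [Finset.abs_prod, Finset.mul_sum, Real.exp_sum]
  exact Finset.prod_le_prod (fun _ _ => abs_nonneg _) fun w _ => abs_g0_le (he w) _

lemma norm_sq_le_sum (u : ι → ℝ) : ‖u‖ ^ 2 ≤ ∑ w, u w ^ 2 := by
  have h0 : 0 ≤ ∑ w, u w ^ 2 := Finset.sum_nonneg fun _ _ => sq_nonneg _
  have h1 : ‖u‖ ≤ Real.sqrt (∑ w, u w ^ 2) := by
    rw [pi_norm_le_iff_of_nonneg (Real.sqrt_nonneg _)]
    intro i
    rw [Real.norm_eq_abs, ← Real.sqrt_sq_eq_abs]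
    exact Real.sqrt_le_sqrt
      (Finset.single_le_sum (f := fun w => u w ^ 2) (fun _ _ => sq_nonneg _) (Finset.mem_univ i))
  calc ‖u‖ ^ 2 ≤ (Real.sqrt (∑ w, u w ^ 2)) ^ 2 := by gcongr
    _ = _ := Real.sq_sqrt h0

lemma gd_G0 {e : ι → ℕ} (he : ∀ w, e w ≤ 1) {a : ι → ℝ} (ha : ∀ w, 0 < a w) :
    GD (fun x : ι → ℝ => ((G0 e (fun w => a w * x w) : ℝ) : ℂ)) := by
  classical
  obtain ⟨c, hc, hca⟩ : ∃ c : ℝ, 0 < c ∧ ∀ w, c ≤ a w ^ 2 := by
    rcases isEmpty_or_nonempty ι with hι | hι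
    · exact ⟨1, one_pos, fun w => (IsEmpty.false w).elim⟩
    · obtain ⟨i, hi⟩ := Finite.exists_min (fun w => a w ^ 2)
      exact ⟨a i ^ 2, by have := ha i; positivity, hi⟩
  refine ⟨1, 2 * c, by positivity, fun z => ?_⟩
  rw [Complex.norm_real, Real.norm_eq_abs, one_mul]
  refine (abs_G0_le he _).trans (Real.exp_le_exp.mpr ?_)
  have h1 := norm_sq_le_sum z
  have h2 : c * ∑ w, z w ^ 2 ≤ ∑ w, (a w * z w) ^ 2 := by
    rw [Finset.mul_sum]
    refine Finset.sum_le_sum fun w _ => ?_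
    rw [mul_pow]
    exact mul_le_mul_of_nonneg_right (hca w) (sq_nonneg _)
  nlinarith

lemma ft_G0 {e : ι → ℕ} (he : ∀ w, e w ≤ 1) {a : ι → ℝ} (ha : ∀ w, 0 < a w) (ξ : ι → ℝ) :
    ∫ x : ι → ℝ, cexp (-(2 * Real.pi * I * ((∑ w, ξ w * x w : ℝ) : ℂ))) *
      ((G0 e (fun w => a w * x w) : ℝ) : ℂ) =
      (∏ w, ((a w : ℝ) : ℂ)⁻¹) * ((-I) ^ (∑ w, e w) * ((G0 e (fun w => ξ w / a w) : ℝ) : ℂ)) := by
  have h1 : ∀ x : ι → ℝ, cexp (-(2 * Real.pi * I * ((∑ w, ξ w * x w : ℝ) : ℂ))) *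
      ((G0 e (fun w => a w * x w) : ℝ) : ℂ) =
      ∏ w, (cexp (-(2 * Real.pi * I * (ξ w * x w))) * (g0 (e w) (a w * x w) : ℂ)) := by
    intro x
    rw [Finset.prod_mul_distrib, ← Complex.exp_sum]
    unfold G0
    push_cast
    congr 2
    rw [Finset.mul_sum, ← Finset.sum_neg_distrib]
  simp_rw [h1]
  rw [integral_fintype_prod_volume_eq_prod
    (fun w (x : ℝ) => cexp (-(2 * Real.pi * I * (ξ w * x))) * (g0 (e w) (a w * x) : ℂ))]
  simp_rw [fun w => ft_g0_scale (he w) (ha w) (ξ w)]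
  rw [Finset.prod_mul_distrib, Finset.prod_mul_distrib, Finset.prod_pow_eq_pow_sum]
  unfold G0
  push_cast
  rfl

end prod

end Pool.Agent.Y773
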