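import Pool.Agent.Y773.HK.Poi

/-! # Theta series of functions on the ring of integers of a totally real field -/

set_option autoImplicit false
set_option linter.unusedSectionVars false

open NumberField Complex Filter Topology MeasureTheory

namespace Pool.Agent.Y773

/-- Gaussian decay is inherited by compositions with injective linear maps -/
lemma GD.comp_linear {α β : Type} [Fintype α] [Fintype β] {g : (β → ℝ) → ℂ} (hg : GD g)
    (L : (α → ℝ) →ₗ[ℝ] (β → ℝ)) (hL : Function.Injective L) : GD fun v => g (L v) := by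
  obtain ⟨C, c, hc, h⟩ := hg
  obtain ⟨κ, hκ, hκ2⟩ := L.injective_iff_antilipschitz.mp hL
  refine ⟨|C|, c / κ ^ 2, by positivity, fun v => ?_⟩
  have h1 : ‖v‖ ≤ κ * ‖L v‖ := by
    have := hκ2.le_mul_dist v 0
    simpa [dist_zero_right] using this
  have h2 : (‖v‖ / κ) ^ 2 ≤ ‖L v‖ ^ 2 := by
    have hκ' : (0 : ℝ) < κ := hκ
    have : ‖v‖ / κ ≤ ‖L v‖ := by
      rw [div_le_iff₀ hκ']
      linarith
    gcongr
  calc ‖g (L v)‖ ≤ C * Real.exp (-c * ‖L v‖ ^ 2) := h _
    _ ≤ |C| * Real.exp (-c * ‖L v‖ ^ 2) := by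
        gcongr
        exact le_abs_self C
    _ ≤ _ := by
        refine mul_le_mul_of_nonneg_left (Real.exp_le_exp.mpr ?_) (abs_nonneg _)
        have e : -(c / (κ : ℝ) ^ 2) * ‖v‖ ^ 2 = -c * (‖v‖ / κ) ^ 2 := by ring
        rw [e]
        nlinarith

lemma GD.summable_lp {α : Type} [Fintype α] {g : (α → ℝ) → ℂ} (hg : GD g) :
    Summable fun k : α → ℤ => g (lp k) := by
  have := summable_gd hg 0
  simp only [zero_add] at this
  exact this.of_norm

variable {K : Type} [Field K] [NumberField K] [IsTotallyReal K]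

lemma emb_injective : Function.Injective (emb K) :=
  Function.LeftInverse.injective (g := embD K) embD_emb

/-- the embedding of the dual lattice -/
noncomputable def embT (K : Type) [Field K] [NumberField K] [IsTotallyReal K] :
    (Idx K → ℝ) →ₗ[ℝ] (InfinitePlace K → ℝ) where
  toFun v w := ∑ j, v j * rl w (db K j)
  map_add' u v := by
    funext w
    simp only [Pi.add_apply, add_mul, Finset.sum_add_distrib]
  map_smul' c v := by
    funext w
    simp only [Pi.smul_apply, smul_eq_mul, RingHom.id_apply, Finset.mul_sum, mul_assoc]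

lemma embT_lp (k : Idx K → ℤ) : embT K (lp k) = fun w => rl w (xi k) := by
  funext w
  simp only [embT, LinearMap.coe_mk, AddHom.coe_mk, lp, xi, map_sum, map_mul, map_intCast]

lemma embT_injective : Function.Injective (embT K) := by
  classical
  rw [injective_iff_map_eq_zero]
  intro v hv
  funext j
  -- pair with the basis vector
  have h1 : ∑ w : InfinitePlace K, embT K v w * emb K (Pi.single j 1) w = v j := by
    have h2 : ∀ i, ∑ w : InfinitePlace K, rl w (db K i) * emb K (Pi.single j 1) w =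
        (Pi.single j (1 : ℝ) : Idx K → ℝ) i := by
      intro i
      have h3 := congrFun (embD_emb (Pi.single j (1 : ℝ) : Idx K → ℝ)) i
      rw [← h3]
      simp only [embD, LinearMap.coe_mk, AddHom.coe_mk]
      exact Finset.sum_congr rfl fun w _ => mul_comm _ _
    calc ∑ w : InfinitePlace K, embT K v w * emb K (Pi.single j 1) w
        = ∑ i, v i * ∑ w : InfinitePlace K, rl w (db K i) * emb K (Pi.single j 1) w := by
          simp only [embT, LinearMap.coe_mk, AddHom.coe_mk, Finset.sum_mul, Finset.mul_sum]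
          rw [Finset.sum_comm]
          refine Finset.sum_congr rfl fun j _ => Finset.sum_congr rfl fun w _ => by ring
      _ = v j := by simp [h2, Pi.single_apply]
  rw [← h1, hv]
  simp

/-- the theta series of `Ψ` with the sign vector `e`, in logarithmic coordinates -/
noncomputable def th (e : InfinitePlace K → ℕ) (Ψ : 𝓞 K → ℂ) (y : InfinitePlace K → ℝ) : ℂ :=
  ∑' x : 𝓞 K, Ψ x * ((G0 e (fun w => Real.exp (y w / 2) * rl w (x : K)) : ℝ) : ℂ)

lemma summable_G0 {e : InfinitePlace K → ℕ} (he : ∀ w, e w ≤ 1) {a : InfinitePlace K → ℝ}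
    (ha : ∀ w, 0 < a w) :
    Summable fun x : 𝓞 K => ((G0 e (fun w => a w * rl w (x : K)) : ℝ) : ℂ) := by
  have h := ((gd_G0 he ha).comp_linear (emb K) emb_injective).summable_lp
  rw [← (coE K).symm.summable_iff]
  refine h.congr fun k => ?_
  simp only [Function.comp_apply]
  have h1 := rl_eq_emb ((coE K).symm k)
  rw [← coE_apply, Equiv.apply_symm_apply] at h1
  congr 3
  funext w
  rw [← congrFun h1 w]

lemma summable_th {e : InfinitePlace K → ℕ} (he : ∀ w, e w ≤ 1) {Ψ : 𝓞 K → ℂ} {B : ℝ}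
    (hΨ : ∀ x, ‖Ψ x‖ ≤ B) {a : InfinitePlace K → ℝ} (ha : ∀ w, 0 < a w) :
    Summable fun x : 𝓞 K => Ψ x * ((G0 e (fun w => a w * rl w (x : K)) : ℝ) : ℂ) := by
  refine Summable.of_norm_bounded ((summable_G0 he ha).norm.mul_left B) fun x => ?_
  rw [norm_mul]
  exact mul_le_mul_of_nonneg_right (hΨ x) (norm_nonneg _)

/-- Poisson summation for one residue class -/
lemma poisson_class {V : ℝ} (hV0 : 0 < V) (hV : ∀ f : (InfinitePlace K → ℝ) → ℂ,
      ∫ v : Idx K → ℝ, f (embE K v) = ((V⁻¹ : ℝ) : ℂ) * ∫ u, f u)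
    {e : InfinitePlace K → ℕ} (he : ∀ w, e w ≤ 1) {a : InfinitePlace K → ℝ}
    (ha : ∀ w, 0 < a w) {m : ℕ} (hm : 0 < m) (r : 𝓞 K) :
    (Summable fun k : Idx K → ℤ => ((G0 e (fun w => rl w (xi k) / (a w * m)) : ℝ) : ℂ)) ∧
    ∑' z : 𝓞 K, ((G0 e (fun w => a w * rl w ((r + m * z : 𝓞 K) : K)) : ℝ) : ℂ) =
      ((V⁻¹ : ℝ) : ℂ) * ((∏ w, ((a w * m : ℝ) : ℂ)⁻¹) * (-I) ^ (∑ w, e w)) *
      ∑' k : Idx K → ℤ, ((G0 e (fun w => rl w (xi k) / (a w * m)) : ℝ) : ℂ) *
        cexp (2 * Real.pi * I * ((∑ j, k j * co r j : ℤ) : ℂ) / m) := by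
  classical
  have hm' : (0 : ℝ) < m := by exact_mod_cast hm
  have ham : ∀ w, 0 < a w * m := fun w => mul_pos (ha w) hm'
  have hgd := gd_G0 he ham
  set h : (Idx K → ℝ) → ℂ := fun v => ((G0 e (fun w => a w * m * emb K v w) : ℝ) : ℂ) with hh
  have hGD : GD h := hgd.comp_linear (emb K) emb_injective
  have hcont : Continuous h := by
    have h1 : Continuous (emb K) := (emb K).continuous_of_finiteDimensional
    exact Complex.continuous_ofReal.comp ((continuous_G0 e).comp (continuous_pi fun w =>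
      continuous_const.mul ((continuous_apply w).comp h1)))
  have hhat : ∀ k : Idx K → ℤ, ghat h k = ((V⁻¹ : ℝ) : ℂ) * ((∏ w, ((a w * m : ℝ) : ℂ)⁻¹) *
      ((-I) ^ (∑ w, e w) * ((G0 e (fun w => rl w (xi k) / (a w * m)) : ℝ) : ℂ))) := by
    intro k
    rw [← ft_G0 he ham (fun w => rl w (xi k)), ← hV]
    unfold ghat
    refine integral_congr_ae (Eventually.of_forall fun v => ?_)
    simp only [hh]
    rw [embE_apply, rl_xi]
    congr 1
    unfold ech
    congr 1
    push_cast
    simp only [Pi.neg_apply, Int.cast_neg, neg_mul, Finset.sum_neg_distrib]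
    ring
  have hGT : Summable fun k : Idx K → ℤ =>
      ((G0 e (fun w => rl w (xi k) / (a w * m)) : ℝ) : ℂ) := by
    have h1 := ((gd_G0 he (a := fun w => (a w * m)⁻¹) (fun w => inv_pos.mpr (ham w))).comp_linear
      (embT K) embT_injective).summable_lp
    refine h1.congr fun k => ?_
    rw [embT_lp]
    congr 3
    funext w
    rw [div_eq_inv_mul]
  refine ⟨hGT, ?_⟩
  have hhat' : ghat h = fun k : Idx K → ℤ => ((V⁻¹ : ℝ) : ℂ) * ((∏ w, ((a w * m : ℝ) : ℂ)⁻¹) *
      ((-I) ^ (∑ w, e w) * ((G0 e (fun w => rl w (xi k) / (a w * m)) : ℝ) : ℂ))) := funext hhat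
  have hsum : Summable (ghat h) := by
    rw [hhat']
    exact ((hGT.mul_left _).mul_left _).mul_left _
  have hP := poisson hGD hcont hsum ((m : ℝ)⁻¹ • lp (co r))
  have hl : ∑' z : 𝓞 K, ((G0 e (fun w => a w * rl w ((r + m * z : 𝓞 K) : K)) : ℝ) : ℂ) =
      ∑' k : Idx K → ℤ, h ((m : ℝ)⁻¹ • lp (co r) + lp k) := by
    rw [← (coE K).symm.tsum_eq]
    refine tsum_congr fun k => ?_
    simp only [hh]
    congr 3
    funext w
    have h1 := congrFun (rl_eq_emb ((coE K).symm k)) w
    rw [← coE_apply, Equiv.apply_symm_apply] at h1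
    have h2 := congrFun (rl_eq_emb r) w
    rw [map_add, map_smul, Pi.add_apply, Pi.smul_apply, ← h1, ← h2, smul_eq_mul]
    have h3 : ((r + m * (coE K).symm k : 𝓞 K) : K) = (r : K) + m * ((coE K).symm k : 𝓞 K) := by
      push_cast
      rfl
    rw [h3, map_add, map_mul, map_natCast]
    field_simp
  rw [hl, hP, hhat', ← tsum_mul_left]
  refine tsum_congr fun k => ?_
  have hec : ech k ((m : ℝ)⁻¹ • lp (co r)) =
      cexp (2 * Real.pi * I * ((∑ j, k j * co r j : ℤ) : ℂ) / m) := by
    unfold ech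
    congr 1
    change 2 * Real.pi * I * ((∑ i, (k i : ℝ) * ((m : ℝ)⁻¹ * (co r i : ℝ)) : ℝ) : ℂ) = _
    push_cast
    rw [mul_div_assoc, Finset.sum_div]
    congr 1
    refine Finset.sum_congr rfl fun j _ => ?_
    field_simp
  rw [hec]
  ring

end Pool.Agent.Y773
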