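import Pool.Agent.Y773.HK.Per

/-! # Sums over quotients by ideals, and the orthogonality relation -/

set_option autoImplicit false
set_option linter.unusedSectionVars false

open NumberField Complex Filter Topology Set

namespace Pool.Agent.Y773

section

variable {K : Type} [Field K] [NumberField K]

/-- periodic modulo the ideal -/
def PerI (𝔠 : Ideal (𝓞 K)) (f : 𝓞 K → ℂ) : Prop := ∀ x y : 𝓞 K, x - y ∈ 𝔠 → f x = f y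

/-- the sum over the residue classes -/
noncomputable def SQ (𝔠 : Ideal (𝓞 K)) (f : 𝓞 K → ℂ) : ℂ := ∑ᶠ r : 𝓞 K ⧸ 𝔠, f (Quotient.out r)

lemma mk_out {𝔠 : Ideal (𝓞 K)} (r : 𝓞 K ⧸ 𝔠) : Ideal.Quotient.mk 𝔠 (Quotient.out r) = r :=
  Quotient.out_eq' r

lemma out_mk {𝔠 : Ideal (𝓞 K)} (x : 𝓞 K) : (Quotient.out (Ideal.Quotient.mk 𝔠 x)) - x ∈ 𝔠 := by
  rw [← Ideal.Quotient.eq, mk_out]

lemma PerI.out {𝔠 : Ideal (𝓞 K)} {f : 𝓞 K → ℂ} (h : PerI 𝔠 f) (x : 𝓞 K) :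
    f (Quotient.out (Ideal.Quotient.mk 𝔠 x)) = f x := h _ _ (out_mk x)

/-- **Change of variables** -/
lemma SQ_bij {𝔠₁ 𝔠₂ : Ideal (𝓞 K)} {f₁ f₂ : 𝓞 K → ℂ} (h₁ : PerI 𝔠₁ f₁) (h₂ : PerI 𝔠₂ f₂)
    (j : 𝓞 K → 𝓞 K) (H1 : ∀ x, f₁ x ≠ 0 → f₂ (j x) = f₁ x)
    (H2 : ∀ x x', f₁ x ≠ 0 → f₁ x' ≠ 0 → (x - x' ∈ 𝔠₁ ↔ j x - j x' ∈ 𝔠₂))
    (H3 : ∀ y, f₂ y ≠ 0 → ∃ x, f₁ x ≠ 0 ∧ j x - y ∈ 𝔠₂) : SQ 𝔠₁ f₁ = SQ 𝔠₂ f₂ := by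
  unfold SQ
  rw [← finsum_mem_support (fun r : 𝓞 K ⧸ 𝔠₁ => f₁ (Quotient.out r)),
    ← finsum_mem_support (fun r : 𝓞 K ⧸ 𝔠₂ => f₂ (Quotient.out r))]
  refine finsum_mem_eq_of_bijOn (fun r => Ideal.Quotient.mk 𝔠₂ (j (Quotient.out r))) ⟨?_, ?_, ?_⟩ ?_
  · intro r hr
    rw [Function.mem_support] at hr ⊢
    rw [h₂.out, H1 _ hr]
    exact hr
  · intro r hr r' hr' hrr
    rw [Function.mem_support] at hr hr'
    have h3 := (H2 _ _ hr hr').mpr (Ideal.Quotient.eq.mp hrr)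
    rw [← Ideal.Quotient.eq, mk_out, mk_out] at h3
    exact h3
  · intro s hs
    rw [Function.mem_support] at hs
    obtain ⟨x, hx, hx2⟩ := H3 _ hs
    refine ⟨Ideal.Quotient.mk 𝔠₁ x, ?_, ?_⟩
    · rw [Function.mem_support, h₁.out]; exact hx
    · have h4 : f₁ (Quotient.out (Ideal.Quotient.mk 𝔠₁ x)) ≠ 0 := by rw [h₁.out]; exact hx
      have h3 := (H2 _ _ h4 hx).mp (out_mk x)
      have h5 : j (Quotient.out (Ideal.Quotient.mk 𝔠₁ x)) - Quotient.out s ∈ 𝔠₂ := by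
        have : j (Quotient.out (Ideal.Quotient.mk 𝔠₁ x)) - Quotient.out s =
          (j (Quotient.out (Ideal.Quotient.mk 𝔠₁ x)) - j x) + (j x - Quotient.out s) := by ring
        rw [this]
        exact 𝔠₂.add_mem h3 hx2
      rw [← Ideal.Quotient.eq, mk_out] at h5
      exact h5
  · intro r hr
    rw [Function.mem_support] at hr
    rw [h₂.out, H1 _ hr]

/-- change of modulus -/
lemma SQ_mono {𝔠 𝔠' : Ideal (𝓞 K)} (h0 : 𝔠' ≠ ⊥) (hle : 𝔠' ≤ 𝔠) {f : 𝓞 K → ℂ} (hf : PerI 𝔠 f) :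
    (Ideal.absNorm 𝔠 : ℂ) * SQ 𝔠' f = (Ideal.absNorm 𝔠' : ℂ) * SQ 𝔠 f := by
  classical
  have hc0 : 𝔠 ≠ ⊥ := fun h => h0 (by rw [h] at hle; exact le_bot_iff.mp hle)
  have : Finite (𝓞 K ⧸ 𝔠) := Ideal.finiteQuotientOfFreeOfNeBot 𝔠 hc0
  have : Finite (𝓞 K ⧸ 𝔠') := Ideal.finiteQuotientOfFreeOfNeBot 𝔠' h0
  have := Fintype.ofFinite (𝓞 K ⧸ 𝔠)
  have := Fintype.ofFinite (𝓞 K ⧸ 𝔠')
  have hN : (Ideal.absNorm 𝔠 : ℂ) = (Fintype.card (𝓞 K ⧸ 𝔠) : ℂ) := by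
    rw [Ideal.absNorm_apply, Submodule.cardQuot_apply, Nat.card_eq_fintype_card]
  have hN' : (Ideal.absNorm 𝔠' : ℂ) = (Fintype.card (𝓞 K ⧸ 𝔠') : ℂ) := by
    rw [Ideal.absNorm_apply, Submodule.cardQuot_apply, Nat.card_eq_fintype_card]
  set π : 𝓞 K ⧸ 𝔠' →+* 𝓞 K ⧸ 𝔠 := Ideal.Quotient.factor hle with hπ
  have hsurj : Function.Surjective π := Ideal.Quotient.factor_surjective hle
  have hmk : ∀ x : 𝓞 K, π (Ideal.Quotient.mk 𝔠' x) = Ideal.Quotient.mk 𝔠 x := fun x => rfl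
  have hcard : ∀ s : 𝓞 K ⧸ 𝔠, (Finset.univ.filter fun r => π r = s).card =
      (Finset.univ.filter fun r => π r = 0).card := fun s =>
    AddMonoidHom.card_fiber_eq_of_mem_range π.toAddMonoidHom (hsurj s) (hsurj 0)
  set k := (Finset.univ.filter fun r => π r = 0).card with hk
  have h1 : SQ 𝔠' f = (k : ℂ) * SQ 𝔠 f := by
    unfold SQ
    rw [finsum_eq_sum_of_fintype, finsum_eq_sum_of_fintype,
      ← Finset.sum_fiberwise Finset.univ π, Finset.mul_sum]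
    refine Finset.sum_congr rfl fun s _ => ?_
    have h2 : ∀ r ∈ Finset.univ.filter (fun r => π r = s), f (Quotient.out r) =
        f (Quotient.out s) := by
      intro r hr
      rw [Finset.mem_filter] at hr
      apply hf
      rw [← Ideal.Quotient.eq, mk_out, ← hr.2, ← hmk, mk_out]
    rw [Finset.sum_congr rfl h2, Finset.sum_const, hcard, nsmul_eq_mul]
  have h3 : Fintype.card (𝓞 K ⧸ 𝔠') = k * Fintype.card (𝓞 K ⧸ 𝔠) := by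
    have h4 := Finset.card_eq_sum_card_fiberwise (f := π) (s := Finset.univ) (t := Finset.univ)
      (fun _ _ => Finset.mem_coe.mpr (Finset.mem_univ _))
    rw [Finset.card_univ] at h4
    rw [h4, Finset.sum_congr rfl (fun s _ => hcard s), Finset.sum_const, Finset.card_univ,
      smul_eq_mul, mul_comm]
  rw [h1, hN, hN', h3]
  push_cast
  ring

/-- restriction to a coprime sublattice -/
lemma SQ_inter {𝔟 𝔪 𝔤 : Ideal (𝓞 K)} (h : IsCoprime 𝔤 𝔪) {f g : 𝓞 K → ℂ} (hf : PerI (𝔟 * 𝔪) f)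
    (hs : ∀ x, x ∉ 𝔟 → f x = 0) (hg : ∀ x ∈ 𝔟 * 𝔤, g x = f x) (hgs : ∀ x, x ∉ 𝔟 * 𝔤 → g x = 0) :
    SQ (𝔟 * 𝔤 * 𝔪) g = SQ (𝔟 * 𝔪) f := by
  obtain ⟨u, hu, v, hv, huv⟩ := Ideal.isCoprime_iff_exists.mp h
  have hle1 : 𝔟 * 𝔤 * 𝔪 ≤ 𝔟 * 𝔪 := by
    have : 𝔟 * 𝔤 * 𝔪 = 𝔤 * (𝔟 * 𝔪) := by ring
    rw [this]
    exact Ideal.mul_le_right
  have hle2 : 𝔟 * 𝔤 * 𝔪 ≤ 𝔟 * 𝔤 := Ideal.mul_le_left (I := 𝔟 * 𝔤) (J := 𝔪)
  have hmem : ∀ x, g x ≠ 0 → x ∈ 𝔟 * 𝔤 := fun x hx => by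
    by_contra h1
    exact hx (hgs x h1)
  have hgp : PerI (𝔟 * 𝔤 * 𝔪) g := by
    intro x y hxy
    by_cases hx : x ∈ 𝔟 * 𝔤
    · have hy : y ∈ 𝔟 * 𝔤 := by
        have : y = x - (x - y) := by ring
        rw [this]
        exact Submodule.sub_mem _ hx (hle2 hxy)
      rw [hg x hx, hg y hy]
      exact hf x y (hle1 hxy)
    · have hy : y ∉ 𝔟 * 𝔤 := fun hy => hx (by
        have : x = y + (x - y) := by ring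
        rw [this]
        exact Submodule.add_mem _ hy (hle2 hxy))
      rw [hgs x hx, hgs y hy]
  refine SQ_bij hgp hf id (fun x hx => (hg x (hmem x hx)).symm) ?_ ?_
  · intro x x' hx hx'
    refine ⟨fun h1 => hle1 h1, fun h1 => ?_⟩
    have h2 : x - x' ∈ 𝔟 * 𝔤 := Submodule.sub_mem _ (hmem x hx) (hmem x' hx')
    have h3 : x - x' = (x - x') * u + (x - x') * v := by rw [← mul_add, huv, mul_one]
    rw [h3]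
    refine Submodule.add_mem _ ?_ (Ideal.mul_mem_mul h2 hv)
    have h4 : (x - x') * u ∈ 𝔟 * 𝔪 * 𝔤 := Ideal.mul_mem_mul h1 hu
    have h5 : 𝔟 * 𝔤 * 𝔪 = 𝔟 * 𝔪 * 𝔤 := by ring
    rw [h5]
    exact h4
  · intro y hy
    have hyb : y ∈ 𝔟 := by
      by_contra h1
      exact hy (hs y h1)
    have h1 : y * u ∈ 𝔟 * 𝔤 := Ideal.mul_mem_mul hyb hu
    have h2 : y * v ∈ 𝔟 * 𝔪 := Ideal.mul_mem_mul hyb hv
    have h3 : y * u - y ∈ 𝔟 * 𝔪 := by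
      have : y * u - y = -(y * v) := by linear_combination y * huv
      rw [this]
      exact Submodule.neg_mem _ h2
    refine ⟨y * u, ?_, h3⟩
    rw [hg _ h1, hf _ _ h3]
    exact hy

/-- scaling -/
lemma SQ_scale {𝔟₁ 𝔟₂ 𝔪 : Ideal (𝓞 K)} {a b : 𝓞 K} (ha : a ≠ 0) (hb : b ≠ 0)
    (hab : Ideal.span {a} * 𝔟₁ = Ideal.span {b} * 𝔟₂) {f₁ f₂ : 𝓞 K → ℂ}
    (h₁ : PerI (𝔟₁ * 𝔪) f₁) (h₂ : PerI (𝔟₂ * 𝔪) f₂)
    (hs₁ : ∀ x, x ∉ 𝔟₁ → f₁ x = 0) (hs₂ : ∀ x, x ∉ 𝔟₂ → f₂ x = 0)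
    (H : ∀ x ∈ 𝔟₁, ∀ y ∈ 𝔟₂, a * x = b * y → f₁ x = f₂ y) :
    SQ (𝔟₁ * 𝔪) f₁ = SQ (𝔟₂ * 𝔪) f₂ := by
  classical
  have hex : ∀ x : 𝓞 K, x ∈ 𝔟₁ → ∃ y ∈ 𝔟₂, b * y = a * x := by
    intro x hx
    have h1 : a * x ∈ Ideal.span {a} * 𝔟₁ :=
      Ideal.mem_span_singleton_mul.mpr ⟨x, hx, rfl⟩
    rw [hab, Ideal.mem_span_singleton_mul] at h1
    exact h1
  have hex' : ∀ y : 𝓞 K, y ∈ 𝔟₂ → ∃ x ∈ 𝔟₁, a * x = b * y := by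
    intro x hx
    have h1 : b * x ∈ Ideal.span {b} * 𝔟₂ :=
      Ideal.mem_span_singleton_mul.mpr ⟨x, hx, rfl⟩
    rw [← hab, Ideal.mem_span_singleton_mul] at h1
    exact h1
  have habm : Ideal.span {a} * (𝔟₁ * 𝔪) = Ideal.span {b} * (𝔟₂ * 𝔪) := by
    rw [← mul_assoc, hab, mul_assoc]
  let j : 𝓞 K → 𝓞 K := fun x => if h : ∃ y ∈ 𝔟₂, b * y = a * x then h.choose else 0
  have hj : ∀ x ∈ 𝔟₁, j x ∈ 𝔟₂ ∧ b * j x = a * x := by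
    intro x hx
    have h := hex x hx
    have : j x = h.choose := dif_pos h
    rw [this]
    exact h.choose_spec
  have hm₁ : ∀ x, f₁ x ≠ 0 → x ∈ 𝔟₁ := fun x hx => by
    by_contra h1
    exact hx (hs₁ x h1)
  have hm₂ : ∀ x, f₂ x ≠ 0 → x ∈ 𝔟₂ := fun x hx => by
    by_contra h1
    exact hx (hs₂ x h1)
  refine SQ_bij h₁ h₂ j ?_ ?_ ?_
  · intro x hx
    obtain ⟨e1, e2⟩ := hj x (hm₁ x hx)
    exact (H x (hm₁ x hx) _ e1 e2.symm).symm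
  · intro x x' hx hx'
    obtain ⟨e1, e2⟩ := hj x (hm₁ x hx)
    obtain ⟨e1', e2'⟩ := hj x' (hm₁ x' hx')
    have e3 : b * (j x - j x') = a * (x - x') := by rw [mul_sub, e2, e2']; ring
    constructor
    · intro h1
      have h2 : a * (x - x') ∈ Ideal.span {a} * (𝔟₁ * 𝔪) :=
        Ideal.mem_span_singleton_mul.mpr ⟨_, h1, rfl⟩
      rw [habm, Ideal.mem_span_singleton_mul] at h2
      obtain ⟨z, hz, hz2⟩ := h2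
      rw [← e3] at hz2
      rw [← mul_left_cancel₀ hb hz2]
      exact hz
    · intro h1
      have h2 : b * (j x - j x') ∈ Ideal.span {b} * (𝔟₂ * 𝔪) :=
        Ideal.mem_span_singleton_mul.mpr ⟨_, h1, rfl⟩
      rw [← habm, Ideal.mem_span_singleton_mul] at h2
      obtain ⟨z, hz, hz2⟩ := h2
      rw [e3] at hz2
      rw [← mul_left_cancel₀ ha hz2]
      exact hz
  · intro y hy
    obtain ⟨x, hx, hxy⟩ := hex' y (hm₂ y hy)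
    have e1 := H x hx y (hm₂ y hy) hxy
    refine ⟨x, by rw [e1]; exact hy, ?_⟩
    obtain ⟨e2, e3⟩ := hj x hx
    have : j x = y := mul_left_cancel₀ hb (e3.trans hxy)
    rw [this, sub_self]
    exact Submodule.zero_mem _

variable [IsTotallyReal K]
variable {𝔪 : Ideal (𝓞 K)} {e : InfinitePlace K → ℕ} {η : Ideal (𝓞 K) →*₀ ℂ}

lemma Ps_scale {𝔟₁ 𝔟₂ : Ideal (𝓞 K)} {a b : 𝓞 K} (hb : b ≠ 0) (h1 : 𝔟₁ ≠ ⊥)
    (h2 : 𝔟₂ ≠ ⊥) (hab : Ideal.span {a} * 𝔟₁ = Ideal.span {b} * 𝔟₂) {x y : 𝓞 K} (hx : x ∈ 𝔟₁)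
    (hy : y ∈ 𝔟₂) (hxy : a * x = b * y) :
    Ps η e 𝔟₁ x * sg e (a : K) = Ps η e 𝔟₂ y * sg e (b : K) := by
  obtain ⟨𝔞, h𝔞⟩ := mem_iff_exists_mul.mp hx
  obtain ⟨𝔞', h𝔞'⟩ := mem_iff_exists_mul.mp hy
  rw [Ps_of_eq h1 h𝔞, Ps_of_eq h2 h𝔞']
  have h3 : 𝔞 = 𝔞' := by
    have h4 : 𝔞 * (Ideal.span {b} * 𝔟₂) = 𝔞' * (Ideal.span {b} * 𝔟₂) := by
      calc _ = Ideal.span {a} * (𝔞 * 𝔟₁) := by rw [← hab]; ring
        _ = Ideal.span {b} * (𝔞' * 𝔟₂) := by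
          rw [h𝔞, h𝔞', Ideal.span_singleton_mul_span_singleton,
            Ideal.span_singleton_mul_span_singleton, hxy]
        _ = _ := by ring
    refine mul_right_cancel₀ (mul_ne_zero ?_ h2) h4
    rw [Ne, Ideal.zero_eq_bot, Ideal.span_singleton_eq_bot]; exact hb
  rw [h3, mul_assoc, mul_assoc, ← sg_mul, ← sg_mul]
  congr 2
  have := congrArg (algebraMap (𝓞 K) K) hxy
  push_cast at this
  rw [mul_comm, mul_comm (y : K)]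
  exact_mod_cast this

lemma Ps_mul {𝔟 𝔤 : Ideal (𝓞 K)} (h1 : 𝔟 ≠ ⊥) (h2 : 𝔤 ≠ ⊥) {x : 𝓞 K} (hx : x ∈ 𝔟 * 𝔤) :
    Ps η e 𝔟 x = η 𝔤 * Ps η e (𝔟 * 𝔤) x := by
  obtain ⟨𝔞, h𝔞⟩ := mem_iff_exists_mul.mp hx
  have h3 : (𝔞 * 𝔤) * 𝔟 = Ideal.span {x} := by rw [← h𝔞]; ring
  rw [Ps_of_eq h1 h3, Ps_of_eq (mul_ne_zero h1 h2) h𝔞, map_mul]
  ring

lemma IsModChar.perI (h : IsModChar 𝔪 e η) {𝔟 : Ideal (𝓞 K)} (h𝔟 : 𝔟 ≠ ⊥) :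
    PerI (𝔟 * 𝔪) (Ps η e 𝔟) := fun _ _ hxy => h.per h𝔟 hxy

/-- multiplication by an ideal prime to the modulus -/
lemma IsModChar.SQ_mul (h : IsModChar 𝔪 e η) {𝔟 𝔤 : Ideal (𝓞 K)} (h1 : 𝔟 ≠ ⊥) (h2 : IsCoprime 𝔤 𝔪)
    {φ : 𝓞 K → ℂ} (hφ : PerI (𝔟 * 𝔪) φ) :
    SQ (𝔟 * 𝔪) (fun x => Ps η e 𝔟 x * φ x) =
      η 𝔤 * SQ (𝔟 * 𝔤 * 𝔪) (fun x => Ps η e (𝔟 * 𝔤) x * φ x) := by
  have h𝔤 := h.ne_bot_of_coprime h2
  rw [← SQ_inter (𝔟 := 𝔟) (𝔪 := 𝔪) (𝔤 := 𝔤) h2 (f := fun x => Ps η e 𝔟 x * φ x)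
    (g := fun x => η 𝔤 * (Ps η e (𝔟 * 𝔤) x * φ x))]
  · unfold SQ
    have hne : 𝔟 * 𝔤 * 𝔪 ≠ ⊥ := mul_ne_zero (mul_ne_zero h1 h𝔤) h.ne_bot
    have : Finite (𝓞 K ⧸ (𝔟 * 𝔤 * 𝔪)) := Ideal.finiteQuotientOfFreeOfNeBot _ hne
    rw [mul_finsum]
  · intro x y hxy
    change Ps η e 𝔟 x * φ x = Ps η e 𝔟 y * φ y
    rw [h.perI h1 x y hxy, hφ x y hxy]
  · intro x hx
    change Ps η e 𝔟 x * φ x = 0
    rw [Ps_of_notMem hx, zero_mul]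
  · intro x hx
    change η 𝔤 * (Ps η e (𝔟 * 𝔤) x * φ x) = Ps η e 𝔟 x * φ x
    rw [Ps_mul h1 h𝔤 hx]
    ring
  · intro x hx
    change η 𝔤 * (Ps η e (𝔟 * 𝔤) x * φ x) = 0
    rw [Ps_of_notMem hx, zero_mul, mul_zero]

end

theorem t_orth : StOrth := by
  intro K _ _ _ 𝔪 η h ⟨𝔤, h𝔤, hη𝔤⟩ 𝔟 h0 hmk m hm hm𝔟
  classical
  have h𝔤0 := h.ne_bot_of_coprime h𝔤
  set U : Ideal (𝓞 K) → ℂ := fun 𝔟 => SQ (𝔟 * 𝔪) (Ps η (fun _ => 0) 𝔟) with hU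
  have hmne : Ideal.span {(m : 𝓞 K)} ≠ ⊥ := span_m_ne_bot hm
  have hN𝔪 : (Ideal.absNorm 𝔪 : ℂ) ≠ 0 := by
    exact_mod_cast (fun h1 => h.ne_bot (Ideal.absNorm_eq_zero_iff.mp h1))
  have hsg : ∀ x : K, sg (fun _ : InfinitePlace K => 0) x = 1 := by
    intro x
    unfold sg
    simp
  -- step 1
  have s1 : ∀ c, (Ideal.absNorm (𝔟 c) : ℂ) *
      ∑ᶠ r : 𝓞 K ⧸ Ideal.span {(m : 𝓞 K)}, Ps η (fun _ => 0) (𝔟 c) (Quotient.out r) =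
      (Ideal.absNorm (Ideal.span {(m : 𝓞 K)}) : ℂ) / (Ideal.absNorm 𝔪 : ℂ) * U (𝔟 c) := by
    intro c
    have hle : Ideal.span {(m : 𝓞 K)} ≤ 𝔟 c * 𝔪 :=
      (Ideal.span_singleton_le_iff_mem _).mpr (hm𝔟 c)
    have h2 := SQ_mono hmne hle (h.perI (h0 c))
    rw [map_mul, Nat.cast_mul] at h2
    have h3 : SQ (Ideal.span {(m : 𝓞 K)}) (Ps η (fun _ => 0) (𝔟 c)) =
      ∑ᶠ r : 𝓞 K ⧸ Ideal.span {(m : 𝓞 K)}, Ps η (fun _ => 0) (𝔟 c) (Quotient.out r) := rfl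
    rw [← h3, div_mul_eq_mul_div, eq_div_iff hN𝔪]
    rw [hU]
    linear_combination h2
  rw [Finset.sum_congr rfl fun c _ => s1 c, ← Finset.mul_sum]
  -- step 2
  set g : ClassGroup (𝓞 K) := ClassGroup.mk0 ⟨𝔤, mem_nonZeroDivisors_of_ne_zero h𝔤0⟩ with hg
  have s2 : ∀ c, U (𝔟 c) = η 𝔤 * U (𝔟 (c * g)) := by
    intro c
    have hne : 𝔟 c * 𝔤 ≠ ⊥ := mul_ne_zero (h0 c) h𝔤0
    have e1 : ClassGroup.mk0 ⟨𝔟 c * 𝔤, mem_nonZeroDivisors_of_ne_zero hne⟩ =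
        ClassGroup.mk0 ⟨𝔟 (c * g), mem_nonZeroDivisors_of_ne_zero (h0 (c * g))⟩ := by
      rw [hmk (c * g)]
      have : (⟨𝔟 c * 𝔤, mem_nonZeroDivisors_of_ne_zero hne⟩ : nonZeroDivisors (Ideal (𝓞 K))) =
        ⟨𝔟 c, mem_nonZeroDivisors_of_ne_zero (h0 c)⟩ * ⟨𝔤, mem_nonZeroDivisors_of_ne_zero h𝔤0⟩ := rfl
      rw [this, map_mul, hmk c, hg]
    rw [ClassGroup.mk0_eq_mk0_iff] at e1
    obtain ⟨a, b, ha, hb, hab⟩ := e1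
    have hab' : Ideal.span {a} * (𝔟 c * 𝔤) = Ideal.span {b} * 𝔟 (c * g) := hab
    have e2 := h.SQ_mul (h0 c) h𝔤 (φ := fun _ => 1) (fun _ _ _ => rfl)
    simp only [mul_one] at e2
    have e3 : SQ (𝔟 c * 𝔤 * 𝔪) (Ps η (fun _ => 0) (𝔟 c * 𝔤)) =
        SQ (𝔟 (c * g) * 𝔪) (Ps η (fun _ => 0) (𝔟 (c * g))) := by
      refine SQ_scale ha hb hab' (h.perI hne) (h.perI (h0 _)) (fun x hx => Ps_of_notMem hx)
        (fun x hx => Ps_of_notMem hx) ?_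
      intro x hx y hy hxy
      have := Ps_scale (η := η) (e := fun _ => 0) hb hne (h0 (c * g)) hab' hx hy hxy
      rwa [hsg, hsg, mul_one, mul_one] at this
    rw [hU]
    simp only
    rw [e2, ← e3]
  have s3 : ∑ c, U (𝔟 c) = η 𝔤 * ∑ c, U (𝔟 c) := by
    calc ∑ c, U (𝔟 c) = ∑ c, η 𝔤 * U (𝔟 (c * g)) := Finset.sum_congr rfl fun c _ => s2 c
      _ = η 𝔤 * ∑ c, U (𝔟 (c * g)) := by rw [Finset.mul_sum]
      _ = _ := by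
        congr 1
        exact Equiv.sum_comp (Equiv.mulRight g) (fun c => U (𝔟 c))
  have s4 : ∑ c, U (𝔟 c) = 0 := by
    have : (1 - η 𝔤) * ∑ c, U (𝔟 c) = 0 := by linear_combination s3
    rcases mul_eq_zero.mp this with h5 | h5
    · exact absurd (sub_eq_zero.mp h5).symm hη𝔤
    · exact h5
  rw [s4, mul_zero]

end Pool.Agent.Y773
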