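import Pool.Agent.Y773.HK.Cty
import Pool.Agent.H484R2.Zeta

/-! # The Mellin transform of the theta series: unfolding -/

set_option autoImplicit false
set_option linter.unusedSectionVars false

open NumberField Complex Filter Topology MeasureTheory Set
open NumberField.Units NumberField.Units.dirichletUnitTheorem

namespace Pool.Agent.Y773

/-- the coordinate space -/
abbrev PP (K : Type) [Field K] [NumberField K] := ℝ × (Fin (rank K) → ℝ)

/-- the domain of integration -/
def S0 (K : Type) [Field K] [NumberField K] : Set (PP K) := {p | ∀ i, ⌊p.2 i⌋ = 0}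

lemma isHaar_PP (K : Type) [Field K] [NumberField K] :
    (volume : Measure (PP K)).IsAddHaarMeasure := by
  rw [Measure.volume_eq_prod]
  infer_instance

/-- the integrand -/
noncomputable def Fx {K : Type} [Field K] [NumberField K] (e : InfinitePlace K → ℕ) (s : ℂ)
    (b : InfinitePlace K → ℝ) (p : PP K) : ℂ :=
  ((G0 e (fun w => Real.exp (el K p w / 2) * b w) : ℝ) : ℂ) *
    cexp (Module.finrank ℚ K * s * p.1 / 2)

variable {K : Type} [Field K] [NumberField K] [IsTotallyReal K]

lemma continuous_Fx (e : InfinitePlace K → ℕ) (s : ℂ) (b : InfinitePlace K → ℝ) :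
    Continuous (Fx e s b) := by
  unfold Fx
  have h1 : Continuous (el K) := (el K).continuous_of_finiteDimensional
  refine (Complex.continuous_ofReal.comp ((continuous_G0 e).comp (continuous_pi fun w => ?_))).mul
    (by fun_prop)
  exact (Real.continuous_exp.comp (((continuous_apply w).comp h1).div_const 2)).mul continuous_const

lemma norm_Fx (e : InfinitePlace K → ℕ) (s : ℂ) {b : InfinitePlace K → ℝ} (hb : ∀ w, 0 < b w)
    (p : PP K) : (‖Fx e s b p‖ : ℂ) = Fx e (s.re : ℂ) b p := by
  unfold Fx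
  rw [norm_mul, Complex.norm_real, Real.norm_eq_abs, abs_of_nonneg, Complex.norm_exp]
  · push_cast
    congr 2
    have : (Module.finrank ℚ K * s * p.1 / 2 : ℂ).re = Module.finrank ℚ K * s.re * p.1 / 2 := by
      simp
    rw [this]
    push_cast
    rfl
  · unfold G0 g0
    exact Finset.prod_nonneg fun w _ => mul_nonneg
      (pow_nonneg (mul_nonneg (Real.exp_pos _).le (hb w).le) _) (Real.exp_pos _).le

/-- the total integral -/
lemma int_Fx (K : Type) [Field K] [NumberField K] [IsTotallyReal K] : ∃ c : ℝ, 0 < c ∧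
    ∀ (e : InfinitePlace K → ℕ) (s : ℂ), 0 < s.re → ∀ b : InfinitePlace K → ℝ, (∀ w, 0 < b w) →
      Integrable (Fx e s b) ∧
      ∫ p, Fx e s b p = c * ((∏ w, (b w : ℂ) ^ (-s)) * ∏ w, Complex.Gammaℝ (s + e w)) := by
  have := isHaar_PP K
  obtain ⟨c, hc, h1, -, h3⟩ := exists_vol_gen (volume : Measure (PP K))
    (volume : Measure (InfinitePlace K → ℝ)) (elE K)
  refine ⟨c, hc, fun e s hs b hb => ?_⟩
  set f : (InfinitePlace K → ℝ) → ℂ := fun y =>
    ∏ w, (((g0 (e w) (Real.exp (y w / 2) * b w) : ℝ) : ℂ) * cexp (s * y w / 2)) with hf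
  have hF : Fx e s b = fun p => f (elE K p) := by
    funext p
    simp only [hf, Fx]
    rw [Finset.prod_mul_distrib, ← Complex.exp_sum, elE_apply]
    unfold G0
    push_cast
    congr 2
    have h4 := sum_el K p
    rw [← Finset.sum_div, ← Finset.mul_sum]
    have h5 : (∑ w : InfinitePlace K, (el K p w : ℂ)) = ((Module.finrank ℚ K * p.1 : ℝ) : ℂ) := by
      rw [← h4]
      push_cast
      rfl
    rw [h5]
    push_cast
    ring
  have hint : Integrable f := by
    apply Integrable.fintype_prod (f := fun w (v : ℝ) =>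
      ((g0 (e w) (Real.exp (v / 2) * b w) : ℝ) : ℂ) * cexp (s * v / 2))
    intro w
    exact (local_int hs (hb w)).1
  rw [hF]
  refine ⟨h3 f hint, ?_⟩
  rw [h1 f, hf, integral_fintype_prod_volume_eq_prod (fun w (v : ℝ) =>
      ((g0 (e w) (Real.exp (v / 2) * b w) : ℝ) : ℂ) * cexp (s * v / 2)), ← Finset.prod_mul_distrib]
  congr 1
  exact Finset.prod_congr rfl fun w _ => (local_int hs (hb w)).2

/-! ### principal ideals and units -/

/-- the non-zero principal ideals -/
abbrev PIdl (K : Type) [Field K] [NumberField K] := {J : Ideal (𝓞 K) // J ≠ ⊥ ∧ J.IsPrincipal}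

/-- a generator -/
noncomputable def gen {K : Type} [Field K] [NumberField K] (J : PIdl K) : 𝓞 K := J.2.2.principal.choose

lemma span_gen {K : Type} [Field K] [NumberField K] (J : PIdl K) : Ideal.span {gen J} = J.1 :=
  J.2.2.principal.choose_spec.symm

lemma gen_ne_zero {K : Type} [Field K] [NumberField K] (J : PIdl K) : gen J ≠ 0 := by
  intro h
  have := span_gen J
  rw [h] at this
  apply J.2.1
  rw [← this]
  simp

/-- the principal ideal generated by a non-zero element -/
def toP {K : Type} [Field K] [NumberField K] (x : {x : 𝓞 K // x ≠ 0}) : PIdl K :=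
  ⟨Ideal.span {x.1}, by rw [Ne, Ideal.span_singleton_eq_bot]; exact x.2, ⟨⟨x.1, rfl⟩⟩⟩

/-- non-zero elements as generators times units -/
noncomputable def xE (K : Type) [Field K] [NumberField K] :
    PIdl K × (torsion K × (Fin (rank K) → ℤ)) ≃ {x : 𝓞 K // x ≠ 0} :=
  (Equiv.prodCongr (Equiv.refl _) (unE K)).trans (Equiv.ofBijective
    (fun p => ⟨(p.2 : 𝓞 K) * gen p.1, mul_ne_zero p.2.ne_zero (gen_ne_zero p.1)⟩) (by
      have hsp : ∀ p : PIdl K × (𝓞 K)ˣ, Ideal.span {(p.2 : 𝓞 K) * gen p.1} = p.1.1 := by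
        intro p
        rw [← span_gen p.1, Ideal.span_singleton_eq_span_singleton]
        exact associated_unit_mul_left _ _ p.2.isUnit
      constructor
      · intro p q h
        have h1 : (p.2 : 𝓞 K) * gen p.1 = (q.2 : 𝓞 K) * gen q.1 := congrArg Subtype.val h
        have h2 : p.1 = q.1 := Subtype.ext (by rw [← hsp p, h1, hsp q])
        refine Prod.ext h2 (Units.ext ?_)
        rw [h2] at h1
        exact mul_right_cancel₀ (gen_ne_zero q.1) h1
      · rintro ⟨x, hx⟩
        have h1 := span_gen (toP ⟨x, hx⟩)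
        change Ideal.span {gen (toP ⟨x, hx⟩)} = Ideal.span {x} at h1
        rw [Ideal.span_singleton_eq_span_singleton] at h1
        obtain ⟨u, hu⟩ := h1
        exact ⟨(toP ⟨x, hx⟩, u), Subtype.ext (by simp only; rw [mul_comm]; exact hu)⟩))

lemma xE_apply (J : PIdl K) (ζ : torsion K) (m : Fin (rank K) → ℤ) :
    (xE K (J, (ζ, m))).1 = (unE K (ζ, m) : 𝓞 K) * gen J := rfl

lemma toP_xE (J : PIdl K) (z : torsion K × (Fin (rank K) → ℤ)) : toP (xE K (J, z)) = J := by
  apply Subtype.ext
  change Ideal.span {(unE K z : 𝓞 K) * gen J} = J.1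
  rw [← span_gen J, Ideal.span_singleton_eq_span_singleton]
  exact associated_unit_mul_left _ _ (unE K z).isUnit

/-- absolute values of an integer -/
noncomputable def av (x : 𝓞 K) (w : InfinitePlace K) : ℝ := w (x : K)

lemma av_pos {x : 𝓞 K} (hx : x ≠ 0) (w : InfinitePlace K) : 0 < av x w := by
  unfold av
  rw [InfinitePlace.pos_iff]
  exact RingOfIntegers.coe_ne_zero_iff.mpr hx

lemma Fx_unit (e : InfinitePlace K → ℕ) (s : ℂ) (J : PIdl K) (ζ : torsion K)
    (m : Fin (rank K) → ℤ) (p : PP K) :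
    Fx e s (av (xE K (J, (ζ, m))).1) p = Fx e s (av (gen J)) (p.1, p.2 + lp m) := by
  unfold Fx
  congr 4
  funext w
  have h1 : av (xE K (J, (ζ, m))).1 w =
      Real.exp (∑ i, (m i : ℝ) * Real.log (w ((fundSystem K i : (𝓞 K)ˣ) : K))) * av (gen J) w := by
    unfold av
    rw [xE_apply]
    have : (((unE K (ζ, m) : (𝓞 K)ˣ) * gen J : 𝓞 K) : K) =
      ((unE K (ζ, m) : (𝓞 K)ˣ) : K) * (gen J : K) := map_mul (algebraMap (𝓞 K) K) _ _
    rw [this, map_mul, place_unE]
  rw [h1, ← mul_assoc, ← Real.exp_add]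
  congr 2
  simp only [el, LinearMap.coe_mk, AddHom.coe_mk, Pi.add_apply, lp, add_mul,
    Finset.sum_add_distrib]
  have h2 : ∑ i, (m i : ℝ) * (2 * Real.log (w ((fundSystem K i : (𝓞 K)ˣ) : K))) =
      2 * ∑ i, (m i : ℝ) * Real.log (w ((fundSystem K i : (𝓞 K)ˣ) : K)) := by
    rw [Finset.mul_sum]
    exact Finset.sum_congr rfl fun i _ => by ring
  rw [h2]
  ring

lemma prod_av {x : 𝓞 K} (hx : x ≠ 0) (s : ℂ) :
    ∏ w, ((av x w : ℝ) : ℂ) ^ (-s) = ((Ideal.absNorm (Ideal.span {x}) : ℕ) : ℂ) ^ (-s) := by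
  have h1 : ∏ w, av x w = (Ideal.absNorm (Ideal.span {x}) : ℝ) := by
    have h2 := InfinitePlace.prod_eq_abs_norm (x : K)
    simp only [IsTotallyReal.mult_eq, pow_one] at h2
    unfold av
    rw [h2, Ideal.absNorm_span_singleton, ← Algebra.coe_norm_int]
    rw [Nat.cast_natAbs]
    push_cast
    rfl
  have h3 : ∀ f : InfinitePlace K → ℝ, (∀ w, 0 < f w) → ∏ w, ((f w : ℝ) : ℂ) ^ (-s) =
      ((∏ w, f w : ℝ) : ℂ) ^ (-s) := by
    intro f hf
    have hp : 0 < ∏ w, f w := Finset.prod_pos fun w _ => hf w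
    rw [Complex.cpow_def_of_ne_zero (by exact_mod_cast hp.ne'), ← Complex.ofReal_log hp.le,
      Real.log_prod (fun w _ => (hf w).ne')]
    push_cast
    rw [Finset.sum_mul, Complex.exp_sum]
    refine Finset.prod_congr rfl fun w _ => ?_
    rw [Complex.cpow_def_of_ne_zero (by exact_mod_cast (hf w).ne'), ← Complex.ofReal_log (hf w).le]
  rw [h3 _ (av_pos hx), h1]
  push_cast
  rfl

end Pool.Agent.Y773
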