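import Mathlib

/-!
# Ray class characters of number fields and their L-functions: definitions

Owner helper773 (zeros of Artin L-functions of degree three).
-/

set_option autoImplicit false

open NumberField Complex Filter Topology

namespace Pool.Agent.Y773

section chars

variable (K : Type) [Field K] [NumberField K]

/-- `x` is totally positive. -/
def TPos (x : 𝓞 K) : Prop := ∀ σ : K →+* ℝ, 0 < σ (x : K)

/-- `ψ` is a primitive ray class character of conductor `𝔣` (times some real places), as a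
function on the ideals of `K`, zero on the ideals which are not prime to `𝔣`. -/
structure IsPrimChar (𝔣 : Ideal (𝓞 K)) (ψ : Ideal (𝓞 K) →*₀ ℂ) : Prop where
  ne_bot : 𝔣 ≠ ⊥
  supp : ∀ 𝔞 : Ideal (𝓞 K), 𝔞 ≠ ⊥ → (ψ 𝔞 ≠ 0 ↔ IsCoprime 𝔞 𝔣)
  ray : ∀ x : 𝓞 K, x - 1 ∈ 𝔣 → TPos K x → ψ (Ideal.span {x}) = 1
  prim : ∀ 𝔤 : Ideal (𝓞 K), 𝔤 ∣ 𝔣 → 𝔤 ≠ 𝔣 →
    ∃ x : 𝓞 K, x - 1 ∈ 𝔤 ∧ TPos K x ∧ IsCoprime (Ideal.span {x}) 𝔣 ∧ ψ (Ideal.span {x}) ≠ 1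

variable {K}

/-- the twist of `ψ` by the Dirichlet character `χ` of the norm -/
noncomputable def tw (ψ : Ideal (𝓞 K) →*₀ ℂ) {q : ℕ} (χ : DirichletCharacter ℂ q) :
    Ideal (𝓞 K) →*₀ ℂ where
  toFun 𝔞 := ψ 𝔞 * χ ((Ideal.absNorm 𝔞 : ℕ) : ZMod q)
  map_zero' := by rw [map_zero, zero_mul]
  map_one' := by rw [map_one, map_one, Nat.cast_one, map_one, one_mul]
  map_mul' 𝔞 𝔟 := by
    simp only [map_mul, Nat.cast_mul]
    ring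

/-- the Dirichlet series `∑ ψ(𝔞) N(𝔞)^(-s)` (over all ideals; `ψ 0 = 0`) -/
noncomputable def LI (ψ : Ideal (𝓞 K) →*₀ ℂ) (s : ℂ) : ℂ :=
  ∑' 𝔞 : Ideal (𝓞 K), ψ 𝔞 * ((Ideal.absNorm 𝔞 : ℕ) : ℂ) ^ (-s)

open Classical in
/-- the von Mangoldt function on ideals: `log N(𝔭)` at the powers `𝔭^k`, `k ≥ 1` -/
noncomputable def VM (𝔞 : Ideal (𝓞 K)) : ℝ :=
  if IsPrimePow 𝔞 then Real.log (Ideal.absNorm 𝔞.radical) else 0

/-- `cc ψ n * Λ(n) = ∑_{N(𝔞) = n} VM(𝔞) ψ(𝔞)` -/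
noncomputable def cc (ψ : Ideal (𝓞 K) →*₀ ℂ) (n : ℕ) : ℂ :=
  (∑ᶠ 𝔞 ∈ {𝔞 : Ideal (𝓞 K) | Ideal.absNorm 𝔞 = n}, (VM 𝔞 : ℂ) * ψ 𝔞) /
    (ArithmeticFunction.vonMangoldt n : ℂ)

/-- the Galois conjugate of `ψ` -/
noncomputable def gal (σ : K ≃+* K) (ψ : Ideal (𝓞 K) →*₀ ℂ) : Ideal (𝓞 K) →*₀ ℂ where
  toFun 𝔞 := ψ (𝔞.map (RingOfIntegers.mapRingEquiv σ : 𝓞 K →+* 𝓞 K))
  map_zero' := by rw [Ideal.zero_eq_bot, Ideal.map_bot, ← Ideal.zero_eq_bot, map_zero]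
  map_one' := by rw [Ideal.one_eq_top, Ideal.map_top, ← Ideal.one_eq_top, map_one]
  map_mul' 𝔞 𝔟 := by rw [Ideal.map_mul, map_mul]

/-- the function `ψ · conj(ψ^σ)` -/
noncomputable def rs (σ : K ≃+* K) (ψ : Ideal (𝓞 K) →*₀ ℂ) : Ideal (𝓞 K) →*₀ ℂ where
  toFun 𝔞 := ψ 𝔞 * (starRingEnd ℂ) (gal σ ψ 𝔞)
  map_zero' := by rw [map_zero, zero_mul]
  map_one' := by rw [map_one, map_one, map_one, one_mul]
  map_mul' 𝔞 𝔟 := by simp only [map_mul]; ring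

end chars

/-! ## totally real fields: signs and quotients of ideals -/

section real

variable {K : Type} [Field K] [NumberField K] [IsTotallyReal K]

/-- the real embedding of the place `w` -/
noncomputable def rl (w : InfinitePlace K) : K →+* ℝ :=
  InfinitePlace.embedding_of_isReal (IsTotallyReal.isReal w)

/-- the sign character `∏ sgn(x_w)^(e_w)` -/
noncomputable def sg (e : InfinitePlace K → ℕ) (x : K) : ℂ :=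
  ∏ w, (((SignType.sign (rl w x) : SignType) : ℤ) : ℂ) ^ (e w)

/-- `η` is a (not necessarily primitive) ray class character modulo `𝔪` and the real places, of
signature `e`, as a function on the ideals. -/
structure IsModChar (𝔪 : Ideal (𝓞 K)) (e : InfinitePlace K → ℕ) (η : Ideal (𝓞 K) →*₀ ℂ) : Prop where
  ne_bot : 𝔪 ≠ ⊥
  ne_top : 𝔪 ≠ ⊤
  sig_le : ∀ w, e w ≤ 1
  supp : ∀ 𝔞 : Ideal (𝓞 K), η 𝔞 ≠ 0 ↔ IsCoprime 𝔞 𝔪
  sig : ∀ x : 𝓞 K, x ≠ 0 → x - 1 ∈ 𝔪 → η (Ideal.span {x}) = sg e (x : K)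

end real

open Classical in
/-- the ideal `𝔞` with `𝔞 * 𝔟 = (x)` (or `0` if there is none) -/
noncomputable def qt {K : Type} [Field K] [NumberField K] (𝔟 : Ideal (𝓞 K)) (x : 𝓞 K) :
    Ideal (𝓞 K) :=
  if h : ∃ 𝔞 : Ideal (𝓞 K), 𝔞 * 𝔟 = Ideal.span {x} then h.choose else ⊥

/-- `Ψ_𝔟(x) = η(x 𝔟⁻¹) sgn_e(x)` for `x ∈ 𝔟`, and `0` otherwise -/
noncomputable def Ps {K : Type} [Field K] [NumberField K] [IsTotallyReal K]
    (η : Ideal (𝓞 K) →*₀ ℂ) (e : InfinitePlace K → ℕ) (𝔟 : Ideal (𝓞 K)) (x : 𝓞 K) : ℂ :=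
  η (qt 𝔟 x) * sg e (x : K)

open Classical in
/-- the finite Fourier transform modulo `m`: `∑_{r mod m} Ψ(r) e(Tr(x r) / (m D))` if
`Tr(x r) ≡ 0 mod D` for all `r`, and `0` otherwise -/
noncomputable def FT {K : Type} [Field K] [NumberField K] (D m : ℕ) (Ψ : 𝓞 K → ℂ) (x : 𝓞 K) : ℂ :=
  if ∀ r : 𝓞 K, (D : ℤ) ∣ Algebra.trace ℤ (𝓞 K) (x * r) then
    ∑ᶠ r : 𝓞 K ⧸ Ideal.span {(m : 𝓞 K)}, Ψ (Quotient.out r) *
      Complex.exp (2 * Real.pi * Complex.I *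
        ((Algebra.trace ℤ (𝓞 K) (x * Quotient.out r) : ℤ) : ℂ) / ((m * D : ℕ) : ℂ))
  else 0

/-! ## gamma factors -/

/-- the archimedean factor `R^(s/2) ∏ Γ_ℝ(s + e_i)` -/
noncomputable def GG {ι : Type} [Fintype ι] (R : ℝ) (e : ι → ℕ) (s : ℂ) : ℂ :=
  (R : ℂ) ^ (s / 2) * ∏ i, Complex.Gammaℝ (s + e i)

/-- functional equation data of degree `#ι` -/
structure FEd {ι : Type} [Fintype ι] (R : ℝ) (e : ι → ℕ) (F : ℂ → ℂ) : Prop where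
  he : ∀ i, e i ≤ 1
  diff : Differentiable ℂ F
  fe : ∃ w : ℂ, ‖w‖ = 1 ∧ ∀ s : ℂ, s.im ≠ 0 → GG R e s * F s =
    w * (starRingEnd ℂ) (GG R e (1 - (starRingEnd ℂ) s) * F (1 - (starRingEnd ℂ) s))
  vert : ∀ a b : ℝ, ∃ C : ℝ, ∀ s : ℂ, a ≤ s.re → s.re ≤ b → 1 ≤ |s.im| → ‖GG R e s * F s‖ ≤ C

end Pool.Agent.Y773
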