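import Pool.Agent.Y773.HK.Geo
import Pool.Agent.Y773.HK.Gau

/-! # Poisson summation on the ring of integers of a totally real field -/

set_option autoImplicit false
set_option linter.unusedSectionVars false

open NumberField Complex Filter Topology MeasureTheory

namespace Pool.Agent.Y773

variable {K : Type} [Field K] [NumberField K] [IsTotallyReal K]

/-- elements with integral traces, multiplied by an element of the different, are integral -/
lemma dual_int {D : 𝓞 K} (hD : D ∈ differentIdeal ℤ (𝓞 K)) (ξ : K)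
    (hξ : ∀ a : 𝓞 K, ∃ n : ℤ, Algebra.trace ℚ K (ξ * a) = n) : ∃ x : 𝓞 K, (x : K) = D * ξ := by
  have h1 : (D : K) ∈ IsLocalization.coeSubmodule K (differentIdeal ℤ (𝓞 K)) := ⟨D, hD, rfl⟩
  rw [coeSubmodule_differentIdeal ℤ ℚ] at h1
  rw [Submodule.mem_div_iff_forall_mul_mem] at h1
  have h2 : ξ ∈ Submodule.traceDual ℤ ℚ (1 : Submodule (𝓞 K) K) := by
    rw [Submodule.mem_traceDual]
    intro a ha
    rw [Submodule.mem_one] at ha
    obtain ⟨a', rfl⟩ := ha
    obtain ⟨n, hn⟩ := hξ a'
    refine ⟨n, ?_⟩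
    rw [Algebra.traceForm_apply]
    rw [hn]
    simp
  have h3 := h1 ξ h2
  rw [Submodule.mem_one] at h3
  obtain ⟨x, hx⟩ := h3
  exact ⟨x, hx⟩

/-- coordinates -/
noncomputable def co (x : 𝓞 K) : Idx K → ℤ := fun j => (RingOfIntegers.basis K).repr x j

noncomputable def coE (K : Type) [Field K] [NumberField K] : 𝓞 K ≃ (Idx K → ℤ) :=
  (RingOfIntegers.basis K).equivFun.toEquiv

lemma coE_apply (x : 𝓞 K) : coE K x = co x := by
  funext j
  simp [coE, co]

lemma coe_eq_sum (x : 𝓞 K) : (x : K) = ∑ j, (co x j : K) * integralBasis K j := by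
  have h := (RingOfIntegers.basis K).sum_repr x
  have h2 := congrArg (algebraMap (𝓞 K) K) h
  rw [map_sum] at h2
  refine h2.symm.trans ?_
  refine Finset.sum_congr rfl fun j _ => ?_
  rw [integralBasis_apply]
  simp [co]

lemma rl_eq_emb (x : 𝓞 K) : (fun w => rl w (x : K)) = emb K (lp (co x)) := by
  funext w
  conv_lhs => rw [coe_eq_sum x]
  rw [map_sum]
  simp only [emb, LinearMap.coe_mk, AddHom.coe_mk, lp, map_mul, map_intCast]

/-- the dual lattice -/
noncomputable def xi (k : Idx K → ℤ) : K := ∑ i, (k i : K) * db K i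

lemma trace_xi_basis (k : Idx K → ℤ) (j : Idx K) :
    Algebra.trace ℚ K (xi k * integralBasis K j) = k j := by
  classical
  unfold xi
  rw [Finset.sum_mul, map_sum]
  have : ∀ i, Algebra.trace ℚ K ((k i : K) * db K i * integralBasis K j) =
      if i = j then (k i : ℚ) else 0 := by
    intro i
    rw [mul_assoc]
    have h1 : (k i : K) * (db K i * integralBasis K j) =
        (k i : ℚ) • (db K i * integralBasis K j) := by
      rw [Algebra.smul_def]
      simp
    rw [h1, map_smul, db_trace]
    split_ifs <;> simp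
  simp only [this, Finset.sum_ite_eq', Finset.mem_univ, if_true]

lemma trace_xi (k : Idx K → ℤ) (x : 𝓞 K) :
    Algebra.trace ℚ K (xi k * x) = ((∑ j, k j * co x j : ℤ) : ℚ) := by
  conv_lhs => rw [coe_eq_sum x]
  rw [Finset.mul_sum, map_sum]
  push_cast
  refine Finset.sum_congr rfl fun j _ => ?_
  have h1 : xi k * ((co x j : K) * integralBasis K j) =
      (co x j : ℚ) • (xi k * integralBasis K j) := by
    rw [Algebra.smul_def]
    simp
    ring
  rw [h1, map_smul, trace_xi_basis]
  simp [mul_comm]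

lemma rl_xi (k : Idx K → ℤ) (v : Idx K → ℝ) :
    ∑ w : InfinitePlace K, rl w (xi k) * emb K v w = ∑ j, (k j : ℝ) * v j := by
  have h := embD_emb v
  calc ∑ w : InfinitePlace K, rl w (xi k) * emb K v w
      = ∑ i, (k i : ℝ) * ∑ w : InfinitePlace K, emb K v w * rl w (db K i) := by
        simp only [xi, map_sum, map_mul, map_intCast, Finset.sum_mul, Finset.mul_sum]
        rw [Finset.sum_comm]
        refine Finset.sum_congr rfl fun j _ => Finset.sum_congr rfl fun w _ => by ring
    _ = ∑ j, (k j : ℝ) * v j := by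
        refine Finset.sum_congr rfl fun i _ => ?_
        have h2 := congrFun h i
        simp only [embD, LinearMap.coe_mk, AddHom.coe_mk] at h2
        rw [h2]

section param

variable {D : ℕ} (hD : (D : 𝓞 K) ∈ differentIdeal ℤ (𝓞 K))

/-- `D ξ_k`, as an algebraic integer -/
noncomputable def dx (k : Idx K → ℤ) : 𝓞 K :=
  (dual_int hD (xi k) (fun a => ⟨_, trace_xi k a⟩)).choose

lemma dx_spec (k : Idx K → ℤ) : ((dx hD k : 𝓞 K) : K) = D * xi k := by
  have := (dual_int hD (xi k) (fun a => ⟨_, trace_xi k a⟩)).choose_spec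
  refine this.trans ?_
  congr 1

lemma trace_dx (k : Idx K → ℤ) (x : 𝓞 K) :
    Algebra.trace ℤ (𝓞 K) (dx hD k * x) = D * ∑ j, k j * co x j := by
  have h1 : ((Algebra.trace ℤ (𝓞 K) (dx hD k * x) : ℤ) : ℚ) =
      ((D * ∑ j, k j * co x j : ℤ) : ℚ) := by
    rw [Algebra.coe_trace_int]
    have h0 : ((dx hD k * x : 𝓞 K) : K) = D * xi k * x := by
      rw [← dx_spec hD k]
      exact map_mul (algebraMap (𝓞 K) K) _ _
    refine (congrArg (Algebra.trace ℚ K) h0).trans ?_
    push_cast
    have h2 : (D : K) * xi k * (x : K) = (D : ℚ) • (xi k * x) := by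
      rw [Algebra.smul_def]
      simp
      ring
    rw [h2, map_smul, trace_xi]
    push_cast
    rfl
  exact_mod_cast h1

lemma dx_injective (hD0 : 0 < D) : Function.Injective (dx hD) := by
  classical
  intro k l h
  funext j
  have h1 := trace_dx hD k ((RingOfIntegers.basis K) j)
  have h2 := trace_dx hD l ((RingOfIntegers.basis K) j)
  rw [h, h2] at h1
  have h3 : ∀ k : Idx K → ℤ, ∑ i, k i * co ((RingOfIntegers.basis K) j) i = k j := by
    intro k
    simp [co, Finsupp.single_apply]
  rw [h3, h3] at h1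
  have hD1 : (D : ℤ) ≠ 0 := by exact_mod_cast hD0.ne'
  exact (mul_left_cancel₀ hD1 h1).symm

lemma exists_dx (hD0 : 0 < D) (x : 𝓞 K)
    (hx : ∀ r : 𝓞 K, (D : ℤ) ∣ Algebra.trace ℤ (𝓞 K) (x * r)) : ∃ k, dx hD k = x := by
  classical
  have hD1 : (D : ℤ) ≠ 0 := by exact_mod_cast hD0.ne'
  choose f hf using hx
  refine ⟨fun j => f ((RingOfIntegers.basis K) j), ?_⟩
  set k : Idx K → ℤ := fun j => f ((RingOfIntegers.basis K) j) with hk
  -- the difference has trace zero against everything
  have h1 : ∀ j, Algebra.trace ℚ K (((dx hD k : 𝓞 K) - x : K) * integralBasis K j) = 0 := by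
    intro j
    rw [sub_mul, map_sub, sub_eq_zero]
    have e1 : Algebra.trace ℚ K (((dx hD k : 𝓞 K) : K) * integralBasis K j) =
        ((Algebra.trace ℤ (𝓞 K) (dx hD k * (RingOfIntegers.basis K) j) : ℤ) : ℚ) := by
      rw [Algebra.coe_trace_int, integralBasis_apply]
      simp
    have e2 : Algebra.trace ℚ K ((x : K) * integralBasis K j) =
        ((Algebra.trace ℤ (𝓞 K) (x * (RingOfIntegers.basis K) j) : ℤ) : ℚ) := by
      rw [Algebra.coe_trace_int, integralBasis_apply]
      simp
    rw [e1, e2, trace_dx, hf]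
    have h3 : ∑ i, k i * co ((RingOfIntegers.basis K) j) i = k j := by
      simp [co, Finsupp.single_apply]
    rw [h3]
  have h2 : ((dx hD k : 𝓞 K) - x : K) = 0 := by
    have hnd := traceForm_nondegenerate ℚ K
    apply hnd.1
    intro y
    have hy : y = ∑ j, (integralBasis K).repr y j • integralBasis K j :=
      ((integralBasis K).sum_repr y).symm
    rw [hy, map_sum]
    refine Finset.sum_eq_zero fun j _ => ?_
    rw [map_smul, Algebra.traceForm_apply, h1, smul_zero]
  apply RingOfIntegers.coe_injective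
  exact sub_eq_zero.mp h2

end param

end Pool.Agent.Y773
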