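import Pool.Agent.Y773.HK.Poi2

/-! # Poisson summation for theta series of periodic functions -/

set_option autoImplicit false
set_option linter.unusedSectionVars false

open NumberField Complex Filter Topology MeasureTheory

namespace Pool.Agent.Y773

variable {K : Type} [Field K] [NumberField K] [IsTotallyReal K]

lemma span_m_ne_bot {m : ℕ} (hm : 0 < m) : Ideal.span {(m : 𝓞 K)} ≠ ⊥ := by
  rw [Ne, Ideal.span_singleton_eq_bot]
  exact_mod_cast hm.ne'

lemma finite_quot {m : ℕ} (hm : 0 < m) : Finite (𝓞 K ⧸ Ideal.span {(m : 𝓞 K)}) :=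
  Ideal.finiteQuotientOfFreeOfNeBot _ (span_m_ne_bot hm)

/-- residues and multiples of `m` -/
noncomputable def resE {m : ℕ} (hm : 0 < m) : (𝓞 K ⧸ Ideal.span {(m : 𝓞 K)}) × 𝓞 K ≃ 𝓞 K :=
  Equiv.ofBijective (fun p => Quotient.out p.1 + m * p.2) (by
    have hm0 : (m : 𝓞 K) ≠ 0 := by exact_mod_cast hm.ne'
    have hout : ∀ r : 𝓞 K ⧸ Ideal.span {(m : 𝓞 K)},
        Ideal.Quotient.mk (Ideal.span {(m : 𝓞 K)}) (Quotient.out r) = r := fun r =>
      Quotient.out_eq r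
    have hmk : ∀ (r : 𝓞 K ⧸ Ideal.span {(m : 𝓞 K)}) (z : 𝓞 K),
        Ideal.Quotient.mk (Ideal.span {(m : 𝓞 K)}) (Quotient.out r + m * z) = r := by
      intro r z
      rw [map_add, hout]
      have : Ideal.Quotient.mk (Ideal.span {(m : 𝓞 K)}) (m * z) = 0 := by
        rw [Ideal.Quotient.eq_zero_iff_mem]
        exact Ideal.mul_mem_right _ _ (Ideal.mem_span_singleton_self _)
      rw [this, add_zero]
    constructor
    · rintro ⟨r, z⟩ ⟨r', z'⟩ h
      simp only at h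
      have h1 : r = r' := by rw [← hmk r z, h, hmk]
      subst h1
      have h2 := add_left_cancel h
      rw [mul_left_cancel₀ hm0 h2]
    · intro x
      set r := Ideal.Quotient.mk (Ideal.span {(m : 𝓞 K)}) x with hr
      have h1 : Ideal.Quotient.mk (Ideal.span {(m : 𝓞 K)}) (x - Quotient.out r) = 0 := by
        rw [map_sub, hout, ← hr, sub_self]
      rw [Ideal.Quotient.eq_zero_iff_mem, Ideal.mem_span_singleton] at h1
      obtain ⟨z, hz⟩ := h1
      exact ⟨(r, z), by simp only; rw [← hz]; ring⟩)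

lemma resE_apply {m : ℕ} (hm : 0 < m) (r : 𝓞 K ⧸ Ideal.span {(m : 𝓞 K)}) (z : 𝓞 K) :
    resE hm (r, z) = Quotient.out r + m * z := rfl

lemma FT_dx {D m : ℕ} (hD0 : 0 < D) (hD : (D : 𝓞 K) ∈ differentIdeal ℤ (𝓞 K)) (hm : 0 < m)
    (Ψ : 𝓞 K → ℂ) [Fintype (𝓞 K ⧸ Ideal.span {(m : 𝓞 K)})] (k : Idx K → ℤ) :
    FT D m Ψ (dx hD k) = ∑ r : 𝓞 K ⧸ Ideal.span {(m : 𝓞 K)}, Ψ (Quotient.out r) *
      cexp (2 * Real.pi * I * ((∑ j, k j * co (Quotient.out r) j : ℤ) : ℂ) / m) := by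
  unfold FT
  rw [if_pos (fun r => by rw [trace_dx]; exact dvd_mul_right _ _), finsum_eq_sum_of_fintype]
  refine Finset.sum_congr rfl fun r _ => ?_
  rw [trace_dx]
  congr 2
  have hD1 : (D : ℂ) ≠ 0 := by exact_mod_cast hD0.ne'
  have hm1 : (m : ℂ) ≠ 0 := by exact_mod_cast hm.ne'
  push_cast
  field_simp

lemma FT_support {D m : ℕ} (hD0 : 0 < D) (hD : (D : 𝓞 K) ∈ differentIdeal ℤ (𝓞 K))
    (Ψ : 𝓞 K → ℂ) (x : 𝓞 K) (hx : FT D m Ψ x ≠ 0) : ∃ k, dx hD k = x := by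
  refine exists_dx hD hD0 x ?_
  by_contra h
  apply hx
  unfold FT
  rw [if_neg h]

lemma norm_FT_le {D m : ℕ} (hm : 0 < m) {Ψ : 𝓞 K → ℂ} {B : ℝ} (hB : 0 ≤ B) (hΨ : ∀ x, ‖Ψ x‖ ≤ B)
    (x : 𝓞 K) : ‖FT D m Ψ x‖ ≤ Nat.card (𝓞 K ⧸ Ideal.span {(m : 𝓞 K)}) * B := by
  have := finite_quot (K := K) hm
  have := Fintype.ofFinite (𝓞 K ⧸ Ideal.span {(m : 𝓞 K)})
  unfold FT
  split_ifs
  · rw [finsum_eq_sum_of_fintype]
    refine (norm_sum_le _ _).trans ?_
    rw [Nat.card_eq_fintype_card, ← nsmul_eq_mul, ← Finset.card_univ]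
    refine Finset.sum_le_card_nsmul _ _ _ fun r _ => ?_
    rw [norm_mul]
    have h1 : ‖cexp (2 * Real.pi * I *
        ((Algebra.trace ℤ (𝓞 K) (x * Quotient.out r) : ℤ) : ℂ) / ((m * D : ℕ) : ℂ))‖ = 1 := by
      have : (2 * Real.pi * I * ((Algebra.trace ℤ (𝓞 K) (x * Quotient.out r) : ℤ) : ℂ) /
          ((m * D : ℕ) : ℂ)) = ((2 * Real.pi * (Algebra.trace ℤ (𝓞 K) (x * Quotient.out r) : ℤ) /
          ((m * D : ℕ) : ℝ) : ℝ) : ℂ) * I := by
        push_cast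
        ring
      rw [this, Complex.norm_exp_ofReal_mul_I]
    rw [h1, mul_one]
    exact hΨ _
  · rw [norm_zero]
    positivity

/-- **Poisson summation** for the theta series -/
theorem th_poisson (K : Type) [Field K] [NumberField K] [IsTotallyReal K] : ∃ V : ℝ, 0 < V ∧
    ∀ (e : InfinitePlace K → ℕ), (∀ w, e w ≤ 1) → ∀ (Ψ : 𝓞 K → ℂ) (B : ℝ), (∀ x, ‖Ψ x‖ ≤ B) →
    ∀ m D : ℕ, 0 < m → 0 < D → (D : 𝓞 K) ∈ differentIdeal ℤ (𝓞 K) →
    (∀ x z : 𝓞 K, Ψ (x + m * z) = Ψ x) → ∀ y : InfinitePlace K → ℝ,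
      th e Ψ y = (((V⁻¹ : ℝ) : ℂ) * ((m : ℂ) ^ (Module.finrank ℚ K))⁻¹ * (-I) ^ (∑ w, e w)) *
        ((Real.exp (-(∑ w, y w) / 2) : ℝ) : ℂ) *
        th e (FT D m Ψ) (fun w => -y w - 2 * Real.log (m * D)) := by
  classical
  obtain ⟨V, hV0, hV⟩ := exists_vol K
  refine ⟨V, hV0, fun e he Ψ B hΨ m D hm hD0 hD hper y => ?_⟩
  have hm' : (0 : ℝ) < m := by exact_mod_cast hm
  have hD' : (0 : ℝ) < D := by exact_mod_cast hD0
  have := finite_quot (K := K) hm
  have := Fintype.ofFinite (𝓞 K ⧸ Ideal.span {(m : 𝓞 K)})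
  set a : InfinitePlace K → ℝ := fun w => Real.exp (y w / 2) with ha'
  have ha : ∀ w, 0 < a w := fun w => Real.exp_pos _
  have hs := summable_th he hΨ ha
  set C : ℂ := ((V⁻¹ : ℝ) : ℂ) * ((∏ w, ((a w * m : ℝ) : ℂ)⁻¹) * (-I) ^ (∑ w, e w)) with hC
  -- split into residue classes
  have h1 : th e Ψ y = ∑ r : 𝓞 K ⧸ Ideal.span {(m : 𝓞 K)}, Ψ (Quotient.out r) *
      ∑' z : 𝓞 K, ((G0 e (fun w => a w * rl w ((Quotient.out r + m * z : 𝓞 K) : K)) : ℝ) : ℂ) := by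
    unfold th
    rw [← (resE hm).tsum_eq]
    have hs2 := (resE hm).summable_iff.mpr hs
    refine (hs2.tsum_prod' (fun r => hs2.prod_factor r)).trans ?_
    rw [tsum_fintype]
    refine Finset.sum_congr rfl fun r _ => ?_
    rw [← tsum_mul_left]
    refine tsum_congr fun z => ?_
    simp only [Function.comp_apply]
    rw [resE_apply, hper]
  have h2 : ∀ r : 𝓞 K, _ := fun r => poisson_class hV0 hV he ha hm r
  have h3 : th e Ψ y = C * ∑' k : Idx K → ℤ,
      ((G0 e (fun w => rl w (xi k) / (a w * m)) : ℝ) : ℂ) * FT D m Ψ (dx hD k) := by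
    rw [h1]
    simp_rw [fun r => (h2 r).2]
    have h4 : ∀ r : 𝓞 K, Summable fun k : Idx K → ℤ =>
        ((G0 e (fun w => rl w (xi k) / (a w * m)) : ℝ) : ℂ) *
        cexp (2 * Real.pi * I * ((∑ j, k j * co r j : ℤ) : ℂ) / m) := by
      intro r
      refine Summable.of_norm_bounded (h2 r).1.norm fun k => ?_
      rw [norm_mul]
      have : (2 * Real.pi * I * ((∑ j, k j * co r j : ℤ) : ℂ) / m) =
          ((2 * Real.pi * ((∑ j, k j * co r j : ℤ) : ℝ) / m : ℝ) : ℂ) * I := by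
        push_cast
        ring
      rw [this, Complex.norm_exp_ofReal_mul_I, mul_one]
    calc ∑ r : 𝓞 K ⧸ Ideal.span {(m : 𝓞 K)}, Ψ (Quotient.out r) * (C * ∑' k : Idx K → ℤ,
          ((G0 e (fun w => rl w (xi k) / (a w * m)) : ℝ) : ℂ) *
          cexp (2 * Real.pi * I * ((∑ j, k j * co (Quotient.out r) j : ℤ) : ℂ) / m))
        = C * ∑ r : 𝓞 K ⧸ Ideal.span {(m : 𝓞 K)}, ∑' k : Idx K → ℤ, Ψ (Quotient.out r) *
          (((G0 e (fun w => rl w (xi k) / (a w * m)) : ℝ) : ℂ) *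
          cexp (2 * Real.pi * I * ((∑ j, k j * co (Quotient.out r) j : ℤ) : ℂ) / m)) := by
          rw [Finset.mul_sum]
          refine Finset.sum_congr rfl fun r _ => ?_
          rw [tsum_mul_left]
          ring
      _ = C * ∑' k : Idx K → ℤ, ∑ r : 𝓞 K ⧸ Ideal.span {(m : 𝓞 K)}, Ψ (Quotient.out r) *
          (((G0 e (fun w => rl w (xi k) / (a w * m)) : ℝ) : ℂ) *
          cexp (2 * Real.pi * I * ((∑ j, k j * co (Quotient.out r) j : ℤ) : ℂ) / m)) := by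
          rw [Summable.tsum_finsetSum (fun r _ => (h4 _).mul_left _)]
      _ = _ := by
          congr 1
          refine tsum_congr fun k => ?_
          rw [FT_dx hD0 hD hm, Finset.mul_sum]
          refine Finset.sum_congr rfl fun r _ => ?_
          ring
  rw [h3]
  have h5 : ∑' k : Idx K → ℤ, ((G0 e (fun w => rl w (xi k) / (a w * m)) : ℝ) : ℂ) *
      FT D m Ψ (dx hD k) = th e (FT D m Ψ) (fun w => -y w - 2 * Real.log (m * D)) := by
    unfold th
    rw [← (dx_injective hD hD0).tsum_eq]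
    · refine tsum_congr fun k => ?_
      rw [mul_comm]
      congr 3
      funext w
      have h6 : Real.exp ((-y w - 2 * Real.log (m * D)) / 2) = (a w)⁻¹ * (m * D : ℝ)⁻¹ := by
        rw [ha', ← Real.exp_neg, ← Real.exp_log (show (0 : ℝ) < (m * D : ℝ)⁻¹ by positivity),
          ← Real.exp_add, Real.log_inv]
        congr 1
        ring
      rw [h6, dx_spec, map_mul, map_natCast]
      have := (ha w).ne'
      field_simp
    · intro x hx
      rw [Function.mem_support] at hx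
      exact FT_support hD0 hD Ψ x (left_ne_zero_of_mul hx)
  rw [h5]
  congr 1
  rw [hC]
  have h7 : (∏ w : InfinitePlace K, ((a w * m : ℝ) : ℂ)⁻¹) =
      ((Real.exp (-(∑ w, y w) / 2) : ℝ) : ℂ) * ((m : ℂ) ^ (Module.finrank ℚ K))⁻¹ := by
    rw [← card_place (K := K)]
    have h8 : ∀ w : InfinitePlace K, ((a w * m : ℝ) : ℂ)⁻¹ =
        ((Real.exp (-(y w) / 2) : ℝ) : ℂ) * (m : ℂ)⁻¹ := by
      intro w
      rw [ha']
      push_cast
      rw [mul_inv, ← Complex.exp_neg]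
      congr 2
      ring
    simp_rw [h8]
    rw [Finset.prod_mul_distrib, Finset.prod_const, Finset.card_univ, inv_pow]
    congr 1
    rw [← Complex.ofReal_prod, ← Real.exp_sum]
    congr 2
    rw [← Finset.sum_div, Finset.sum_neg_distrib]
  rw [h7]
  ring

end Pool.Agent.Y773
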