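import Pool.Agent.Y773.HK.Unit

/-! # The local integrals and unfolding -/

set_option autoImplicit false
set_option linter.unusedSectionVars false

open NumberField Complex Filter Topology MeasureTheory Set
open NumberField.Units NumberField.Units.dirichletUnitTheorem

namespace Pool.Agent.Y773

lemma exp_image_univ : Real.exp '' univ = Ioi 0 := by rw [image_univ, Real.range_exp]

lemma integral_exp_sub (f : ℝ → ℂ) :
    ∫ v : ℝ, (Real.exp v : ℂ) * f (Real.exp v) = ∫ t in Ioi (0 : ℝ), f t := by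
  rw [← exp_image_univ, integral_image_eq_integral_abs_deriv_smul MeasurableSet.univ
    (fun x _ => (Real.hasDerivAt_exp x).hasDerivWithinAt) Real.exp_injective.injOn]
  simp only [Measure.restrict_univ]
  refine integral_congr_ae (Eventually.of_forall fun v => ?_)
  simp only
  rw [abs_of_pos (Real.exp_pos _), Complex.real_smul]

lemma integrable_exp_sub (f : ℝ → ℂ) :
    Integrable (fun v : ℝ => (Real.exp v : ℂ) * f (Real.exp v)) ↔ IntegrableOn f (Ioi (0 : ℝ)) := by
  rw [← exp_image_univ, integrableOn_image_iff_integrableOn_abs_deriv_smul MeasurableSet.univ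
    (fun x _ => (Real.hasDerivAt_exp x).hasDerivWithinAt) Real.exp_injective.injOn,
    integrableOn_univ]
  refine integrable_congr (Eventually.of_forall fun v => ?_)
  simp only
  rw [abs_of_pos (Real.exp_pos _), Complex.real_smul]

lemma integrableOn_cpow_exp {a : ℂ} {r : ℝ} (ha : 0 < a.re) (hr : 0 < r) :
    IntegrableOn (fun t : ℝ => (t : ℂ) ^ (a - 1) * cexp (-(r * t))) (Ioi 0) := by
  have h := integrableOn_rpow_mul_exp_neg_mul_rpow (p := 1) (s := a.re - 1) (b := r)
    (by linarith) one_pos hr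
  refine Integrable.mono' h ?_ ?_
  · refine ContinuousOn.aestronglyMeasurable ?_ measurableSet_Ioi
    refine ContinuousOn.mul ?_ (by fun_prop)
    intro t ht
    exact (continuousAt_ofReal_cpow_const _ _ (Or.inr (ne_of_gt ht))).continuousWithinAt
  · refine (ae_restrict_iff' measurableSet_Ioi).mpr (Eventually.of_forall fun t ht => ?_)
    have ht' : (0 : ℝ) < t := ht
    rw [norm_mul, Complex.norm_cpow_eq_rpow_re_of_pos ht', Complex.norm_exp]
    have : (-((r : ℂ) * t)).re = -r * t ^ (1 : ℝ) := by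
      rw [Real.rpow_one]
      simp
    rw [this, sub_re, one_re]

/-- the local integral -/
lemma local_int {e : ℕ} {s : ℂ} (hs : 0 < s.re) {b : ℝ} (hb : 0 < b) :
    Integrable (fun v : ℝ => ((g0 e (Real.exp (v / 2) * b) : ℝ) : ℂ) * cexp (s * v / 2)) ∧
    ∫ v : ℝ, ((g0 e (Real.exp (v / 2) * b) : ℝ) : ℂ) * cexp (s * v / 2) =
      (b : ℂ) ^ (-s) * Complex.Gammaℝ (s + e) := by
  have hπ := Real.pi_pos
  have hr : 0 < Real.pi * b ^ 2 := by positivity
  have ha : 0 < ((s + e) / 2 : ℂ).re := by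
    have h1 : ((s + e) / 2 : ℂ).re = (s.re + e) / 2 := by
      rw [Complex.div_re]
      simp
      ring
    rw [h1]
    have : (0 : ℝ) ≤ e := Nat.cast_nonneg e
    linarith
  have hbc : (b : ℂ) ≠ 0 := by exact_mod_cast hb.ne'
  set f : ℝ → ℂ := fun t => (b : ℂ) ^ e * ((t : ℂ) ^ ((s + e) / 2 - 1) *
    cexp (-(((Real.pi * b ^ 2 : ℝ) : ℂ) * t))) with hf
  have hkey : ∀ v : ℝ, ((g0 e (Real.exp (v / 2) * b) : ℝ) : ℂ) * cexp (s * v / 2) =
      (Real.exp v : ℂ) * f (Real.exp v) := by
    intro v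
    simp only [hf, g0]
    have hev : ((Real.exp v : ℝ) : ℂ) ≠ 0 := by exact_mod_cast (Real.exp_pos v).ne'
    have h1 : ((Real.exp v : ℝ) : ℂ) ^ ((s + e) / 2 - 1) = cexp (v * ((s + e) / 2 - 1)) := by
      rw [Complex.cpow_def_of_ne_zero hev, ← Complex.ofReal_log (Real.exp_pos v).le, Real.log_exp]
    have h2 : (Real.exp (v / 2) * b) ^ 2 = b ^ 2 * Real.exp v := by
      rw [mul_pow, ← Real.exp_nat_mul]
      ring_nf
    rw [h1, h2]
    push_cast
    rw [mul_pow, ← Complex.exp_nat_mul]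
    have h3 : cexp (↑e * (↑v / 2)) * (b : ℂ) ^ e * cexp (-Real.pi * ((b : ℂ) ^ 2 * cexp v)) *
        cexp (s * v / 2) = (b : ℂ) ^ e * (cexp (↑e * (↑v / 2)) * cexp (s * v / 2)) *
        cexp (-Real.pi * ((b : ℂ) ^ 2 * cexp v)) := by ring
    have h4 : cexp v * ((b : ℂ) ^ e * (cexp (v * ((s + e) / 2 - 1)) *
        cexp (-(Real.pi * (b : ℂ) ^ 2 * cexp v)))) =
        (b : ℂ) ^ e * (cexp v * cexp (v * ((s + e) / 2 - 1))) *
        cexp (-(Real.pi * (b : ℂ) ^ 2 * cexp v)) := by ring
    rw [h3, h4, ← Complex.exp_add, ← Complex.exp_add]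
    congr 1
    · congr 1
      congr 1
      ring
    · congr 1
      ring
  have hfun : (fun v : ℝ => ((g0 e (Real.exp (v / 2) * b) : ℝ) : ℂ) * cexp (s * v / 2)) =
      fun v : ℝ => (Real.exp v : ℂ) * f (Real.exp v) := funext hkey
  rw [hfun]
  constructor
  · rw [integrable_exp_sub]
    exact (integrableOn_cpow_exp ha hr).const_mul _
  · rw [integral_exp_sub, hf, integral_const_mul, integral_cpow_mul_exp_neg_mul_Ioi ha hr]
    rw [Complex.Gammaℝ_def]
    have hπc : (Real.pi : ℂ) ≠ 0 := by exact_mod_cast hπ.ne'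
    have h5 : (1 / ((Real.pi * b ^ 2 : ℝ) : ℂ)) ^ ((s + e) / 2) =
        (Real.pi : ℂ) ^ (-(s + e) / 2) * (b : ℂ) ^ (-(s + e)) := by
      have h6 : (1 / ((Real.pi * b ^ 2 : ℝ) : ℂ)) = (((Real.pi * b ^ 2)⁻¹ : ℝ) : ℂ) := by
        push_cast
        rw [one_div]
      rw [h6, Complex.cpow_def_of_ne_zero (by exact_mod_cast (inv_pos.mpr hr).ne'),
        ← Complex.ofReal_log (inv_pos.mpr hr).le, Real.log_inv, Real.log_mul hπ.ne'
          (by positivity), Real.log_pow, Complex.cpow_def_of_ne_zero hπc,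
        Complex.cpow_def_of_ne_zero hbc, ← Complex.ofReal_log hπ.le, ← Complex.ofReal_log hb.le,
        ← Complex.exp_add]
      congr 1
      push_cast
      ring
    rw [h5]
    have h7 : (b : ℂ) ^ e * (b : ℂ) ^ (-(s + e)) = (b : ℂ) ^ (-s) := by
      rw [← Complex.cpow_natCast, ← Complex.cpow_add _ _ hbc]
      congr 1
      ring
    rw [← h7]
    ring

/-- unfolding over the integral translates -/
lemma unfold_P {r : ℕ} (G : ℝ × (Fin r → ℝ) → ℂ) (hG : Integrable G) :
    HasSum (fun m : Fin r → ℤ => ∫ p in {p : ℝ × (Fin r → ℝ) | ∀ i, ⌊p.2 i⌋ = 0},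
      G (p.1, p.2 + lp m)) (∫ p, G p) := by
  classical
  set S : (Fin r → ℤ) → Set (ℝ × (Fin r → ℝ)) := fun m => {p | ∀ i, ⌊p.2 i⌋ = m i} with hS
  have hmeas : ∀ m, MeasurableSet (S m) := by
    intro m
    have : S m = ⋂ i, {p : ℝ × (Fin r → ℝ) | ⌊p.2 i⌋ = m i} := by
      ext p
      simp [hS]
    rw [this]
    refine MeasurableSet.iInter fun i => ?_
    have h1 : Measurable fun p : ℝ × (Fin r → ℝ) => ⌊p.2 i⌋ :=
      Int.measurable_floor.comp ((measurable_pi_apply i).comp measurable_snd)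
    exact h1 (measurableSet_singleton (m i))
  have hdisj : Pairwise (Function.onFun Disjoint S) := by
    intro m m' hmm
    rw [Function.onFun, Set.disjoint_left]
    intro p hp hp'
    exact hmm (funext fun i => (hp i).symm.trans (hp' i))
  have hun : ⋃ m, S m = univ := by
    ext p
    simp only [mem_iUnion, mem_univ, iff_true]
    exact ⟨fun i => ⌊p.2 i⌋, fun i => rfl⟩
  have h1 := hasSum_integral_iUnion hmeas hdisj (f := G) (μ := volume) (by rw [hun]; exact hG.integrableOn)
  rw [hun, setIntegral_univ] at h1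
  refine h1.congr_fun ?_
  intro m
  have : (volume : Measure (ℝ × (Fin r → ℝ))).IsAddLeftInvariant := by
    rw [Measure.volume_eq_prod]
    infer_instance
  have hmp := measurePreserving_add_left (volume : Measure (ℝ × (Fin r → ℝ)))
    ((0 : ℝ), (lp m : Fin r → ℝ))
  have hme := (Homeomorph.addLeft ((0 : ℝ), (lp m : Fin r → ℝ))).toMeasurableEquiv.measurableEmbedding
  have h2 := hmp.setIntegral_preimage_emb hme G (S m)
  rw [← h2]
  have h3 : (fun x : ℝ × (Fin r → ℝ) => ((0 : ℝ), (lp m : Fin r → ℝ)) + x) ⁻¹' (S m) =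
      {p : ℝ × (Fin r → ℝ) | ∀ i, ⌊p.2 i⌋ = 0} := by
    ext p
    simp only [hS, mem_preimage, mem_ofPred_eq, Prod.snd_add, Pi.add_apply, lp, Int.floor_intCast_add]
    refine forall_congr' fun i => ?_
    constructor
    · intro h
      omega
    · intro h
      omega
  rw [h3]
  refine setIntegral_congr_fun (by rw [← h3]; exact hmp.measurable (hmeas m)) fun p _ => ?_
  change G (p.1, p.2 + lp m) = G (0 + p.1, lp m + p.2)
  rw [zero_add, add_comm]

end Pool.Agent.Y773
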